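import Pool.Agent.W5h44.DS.Pol

/-!
# One block: resampling of the direction and the Poincare inequality
-/

set_option autoImplicit false
set_option linter.unusedSectionVars false

namespace Pool.Agent.W5h44.DS

open MeasureTheory Set Filter Topology Module
open scoped ENNReal

/-- the mean minimises the quadratic deviation -/
theorem var_min {α : Type} [MeasurableSpace α] (κ : Measure α) [IsProbabilityMeasure κ]
    {H : α → ℝ} (hH : Measurable H) {B : ℝ} (hB : ∀ x, |H x| ≤ B) (a : ℝ) :
    ∫⁻ s, ENNReal.ofReal ((H s - ∫ t, H t ∂κ) ^ 2) ∂κ ≤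
      ∫⁻ s, ENNReal.ofReal ((H s - a) ^ 2) ∂κ := by
  obtain ⟨c, hc⟩ : ∃ c, c = ∫ t, H t ∂κ := ⟨_, rfl⟩
  rw [← hc]
  have hi : Integrable H κ := Integrable.of_bound hH.aestronglyMeasurable B
    (Eventually.of_forall fun x => by rw [Real.norm_eq_abs]; exact hB x)
  have hi2 : Integrable (fun x => H x ^ 2) κ :=
    Integrable.of_bound (hH.pow_const 2).aestronglyMeasurable (B ^ 2)
      (Eventually.of_forall fun x => by
        rw [Real.norm_eq_abs, abs_pow]
        exact pow_le_pow_left₀ (abs_nonneg _) (hB x) 2)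
  have hq : ∀ e : ℝ, Integrable (fun x => (H x - e) ^ 2) κ ∧
      ∫ x, (H x - e) ^ 2 ∂κ = ∫ x, H x ^ 2 ∂κ - 2 * e * c + e ^ 2 := by
    intro e
    have h1 : (fun x => (H x - e) ^ 2) = fun x => (H x ^ 2 - 2 * e * H x) + e ^ 2 := by
      funext x
      ring
    rw [h1]
    have h2 : Integrable (fun x => H x ^ 2 - 2 * e * H x) κ := hi2.sub (hi.const_mul _)
    refine ⟨h2.add (integrable_const _), ?_⟩
    rw [integral_add h2 (integrable_const _), integral_sub hi2 (hi.const_mul _),
      integral_const_mul, ← hc]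
    simp
  rw [← ofReal_integral_eq_lintegral_ofReal (hq c).1 (Eventually.of_forall fun x => sq_nonneg _),
    ← ofReal_integral_eq_lintegral_ofReal (hq a).1 (Eventually.of_forall fun x => sq_nonneg _)]
  refine ENNReal.ofReal_le_ofReal ?_
  rw [(hq c).2, (hq a).2]
  nlinarith [sq_nonneg (a - c)]

section

variable {F : Type} [NormedAddCommGroup F] [NormedSpace ℝ F] [FiniteDimensional ℝ F]
  [MeasurableSpace F] [BorelSpace F] [Nontrivial F] (μ : Measure F) [μ.IsAddHaarMeasure]
  {N N' : F → ℝ}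

/-- the Poincare inequality with constant `A` in an affinely invariant form, for the uniform
distribution on the unit ball of `N` -/
def PB (A : ℝ) (N : F → ℝ) : Prop := ∀ f : F → ℝ, ContDiff ℝ 1 f → (∃ B : ℝ, ∀ x, |f x| ≤ B) →
  (∃ L : ℝ, ∀ x, ‖fderiv ℝ f x‖ ≤ L) →
  ∫ x, (f x - ∫ y, f y ∂(un μ N)) ^ 2 ∂(un μ N) ≤
    A * ∫ x, ∫ y, (fderiv ℝ f x y) ^ 2 ∂(un μ N) ∂(un μ N)

theorem un_bdd (hN : Gg N) : ∃ R : ℝ, 0 ≤ R ∧ ∀ᵐ y ∂(un μ N), ‖y‖ ≤ R := by
  obtain ⟨R, hR⟩ := (hN.compact 1).isBounded.exists_norm_le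
  refine ⟨max R 0, le_max_right _ _, ?_⟩
  unfold un
  refine Measure.ae_smul_measure ?_ _
  rw [ae_restrict_iff' (hN.compact 1).measurableSet]
  exact Eventually.of_forall fun y hy => (hR y hy).trans (le_max_left _ _)

theorem un_ne : ∀ᵐ y ∂(un μ N), y ≠ 0 := by
  unfold un
  refine Measure.ae_smul_measure (ae_restrict_of_ae ?_) _
  rw [ae_iff]
  simp

/-- integration over a dilated ball -/
theorem scale (hN : Gg N) {ρ : ℝ} (hρ : 0 < ρ) {g : F → ℝ≥0∞} (hg : Measurable g) :
    ∫⁻ x in {x | N x ≤ ρ}, g x ∂μ =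
      ENNReal.ofReal (ρ ^ finrank ℝ F) * μ {x | N x ≤ 1} * ∫⁻ x, g (ρ • x) ∂(un μ N) := by
  have hm : ∀ r : ℝ, MeasurableSet {x : F | N x ≤ r} := fun r =>
    measurableSet_le hN.cont.measurable measurable_const
  rw [← lintegral_indicator (hm ρ), ← lint_smul μ hρ (hg.indicator (hm ρ))]
  have h1 : ∀ x, {x | N x ≤ ρ}.indicator g (ρ • x) = {x | N x ≤ 1}.indicator
      (fun x => g (ρ • x)) x := by
    intro x
    have h2 : ρ • x ∈ {x | N x ≤ ρ} ↔ x ∈ {x | N x ≤ 1} := by
      show N (ρ • x) ≤ ρ ↔ N x ≤ 1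
      rw [hN.smul, abs_of_pos hρ]
      constructor
      · intro h
        exact le_of_mul_le_mul_left (by simpa using h) hρ
      · intro h
        exact mul_le_of_le_one_right hρ.le h
    by_cases hx : x ∈ {x | N x ≤ 1}
    · rw [indicator_of_mem hx, indicator_of_mem (h2.2 hx)]
    · rw [indicator_of_notMem hx, indicator_of_notMem (fun h => hx (h2.1 h))]
  simp_rw [h1]
  rw [lintegral_indicator (hm 1), un, lintegral_smul_measure, smul_eq_mul, mul_assoc]
  congr 1
  rw [← mul_assoc, ENNReal.mul_inv_cancel (hN.vol_pos μ one_pos).ne' (hN.vol_lt μ 1).ne, one_mul]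

/-- polar coordinates on a ball -/
theorem polar_ball (hN : Gg N) (hN' : Gg N') (ρ : ℝ) {f : F → ℝ≥0∞} (hf : Measurable f) :
    ∫⁻ z in {z | N' z ≤ ρ}, ∫⁻ y, f ((N' z / N y) • y) ∂(un μ N) ∂μ =
      cc μ N N' * ∫⁻ x in {x | N x ≤ ρ}, f x ∂μ := by
  have hm : MeasurableSet {x : F | N x ≤ ρ} :=
    measurableSet_le hN.cont.measurable measurable_const
  have hm' : MeasurableSet {x : F | N' x ≤ ρ} :=
    measurableSet_le hN'.cont.measurable measurable_const
  have hprob := un_prob μ hN
  rw [← lintegral_indicator hm, ← polar μ hN hN' (hf.indicator hm), ← lintegral_indicator hm']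
  refine lintegral_congr fun z => ?_
  have h3 : ∀ᵐ y ∂(un μ N), {x | N x ≤ ρ}.indicator f ((N' z / N y) • y) =
      {z | N' z ≤ ρ}.indicator (fun _ => f ((N' z / N y) • y)) z := by
    filter_upwards [un_ne μ (N := N)] with y hy
    have hyi := hN.pos _ hy
    have h4 : N ((N' z / N y) • y) = N' z := by
      rw [hN.smul, abs_of_nonneg (div_nonneg (hN'.nonneg _) hyi.le), div_mul_cancel₀ _ hyi.ne']
    by_cases hz : N' z ≤ ρ
    · rw [indicator_of_mem (show z ∈ {z | N' z ≤ ρ} from hz), indicator_of_mem]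
      show N _ ≤ ρ
      rw [h4]
      exact hz
    · rw [indicator_of_notMem (show z ∉ {z | N' z ≤ ρ} from hz), indicator_of_notMem]
      intro h
      have h' : N _ ≤ ρ := h
      rw [h4] at h'
      exact hz h'
  rw [lintegral_congr_ae h3]
  by_cases hz : z ∈ {z | N' z ≤ ρ}
  · rw [indicator_of_mem hz]
    simp only [indicator_of_mem hz]
  · rw [indicator_of_notMem hz]
    simp only [indicator_of_notMem hz, lintegral_zero]

/-- continuity of the energy -/
theorem en_cont (hN : Gg N) {X : Type} [TopologicalSpace X] [FirstCountableTopology X]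
    [LocallyCompactSpace X] {l : X → F → ℝ} (hl : Continuous fun q : X × F => l q.1 q.2) :
    Continuous fun x => ∫ y, (l x y) ^ 2 ∂(un μ N) := by
  have h1 : (fun x => ∫ y, (l x y) ^ 2 ∂(un μ N)) = fun x =>
      ((μ {y | N y ≤ 1})⁻¹).toReal • ∫ y in {y | N y ≤ 1}, (l x y) ^ 2 ∂μ := by
    funext x
    rw [un, integral_smul_measure]
  rw [h1]
  have h2 : Continuous fun x => ∫ y in {y | N y ≤ 1}, (l x y) ^ 2 ∂μ :=
    continuous_parametric_integral_of_continuous (f := fun x y => (l x y) ^ 2)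
      ((continuous_pow 2).comp hl) (hN.compact 1)
  exact (continuous_const_smul _).comp h2

/-- **one block** -/
theorem block (hN : Gg N) (hN' : Gg N') {A : ℝ} (hA : 0 ≤ A) (hP : PB μ A N) {ρ : ℝ} (hρ : 0 ≤ ρ)
    {h : F → ℝ} (hh : ContDiff ℝ 1 h) {B L : ℝ} (hB : ∀ x, |h x| ≤ B)
    (hL : ∀ x, ‖fderiv ℝ h x‖ ≤ L) :
    ∫⁻ t in {t | N' t ≤ ρ}, ∫⁻ s, ENNReal.ofReal ((h ((N' t / N s) • s) -
        ∫ s', h ((N' t / N s') • s') ∂(un μ N)) ^ 2) ∂(un μ N) ∂μ ≤
      ENNReal.ofReal (A * ρ ^ 2) * ∫⁻ t in {t | N' t ≤ ρ}, ∫⁻ s, ENNReal.ofReal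
        (∫ y, (fderiv ℝ h ((N' t / N s) • s) y) ^ 2 ∂(un μ N)) ∂(un μ N) ∂μ := by
  have hprob := un_prob μ hN
  rcases hρ.eq_or_lt with h0 | h0
  · have h1 : μ {t | N' t ≤ ρ} = 0 := by
      have h2 : {t : F | N' t ≤ ρ} ⊆ {0} := by
        intro t ht
        by_contra h3
        have h4 := hN'.pos t h3
        have h5 : N' t ≤ ρ := ht
        linarith
      exact measure_mono_null h2 (by simp)
    rw [Measure.restrict_eq_zero.2 h1]
    simp
  have hφ : ∀ t : F, Measurable fun s : F => (N' t / N s) • s := fun t =>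
    (measurable_const.div hN.cont.measurable).smul measurable_id
  have hfd : Continuous (fderiv ℝ h) := hh.continuous_fderiv (by norm_num)
  have hcont : Continuous fun q : F × F => fderiv ℝ h q.1 q.2 :=
    (hfd.comp continuous_fst).clm_apply continuous_snd
  have hQ := en_cont μ hN (l := fun x y => fderiv ℝ h x y) hcont
  obtain ⟨a, ha⟩ : ∃ a, a = ∫ x, h (ρ • x) ∂(un μ N) := ⟨_, rfl⟩
  have hm1 : Measurable fun x : F => ENNReal.ofReal ((h x - a) ^ 2) :=
    ((hh.continuous.measurable.sub_const a).pow_const 2).ennreal_ofReal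
  have hm2 : Measurable fun x : F => ENNReal.ofReal
      (∫ y, (fderiv ℝ h x y) ^ 2 ∂(un μ N)) := hQ.measurable.ennreal_ofReal
  calc _ ≤ ∫⁻ t in {t | N' t ≤ ρ}, ∫⁻ s, ENNReal.ofReal ((h ((N' t / N s) • s) - a) ^ 2)
        ∂(un μ N) ∂μ := by
        refine lintegral_mono fun t => ?_
        exact var_min (un μ N) (H := fun s => h ((N' t / N s) • s))
          (hh.continuous.measurable.comp (hφ t)) (fun s => hB _) a
    _ = cc μ N N' * ∫⁻ x in {x | N x ≤ ρ}, ENNReal.ofReal ((h x - a) ^ 2) ∂μ :=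
        polar_ball μ hN hN' ρ hm1
    _ ≤ cc μ N N' * (ENNReal.ofReal (A * ρ ^ 2) * ∫⁻ x in {x | N x ≤ ρ}, ENNReal.ofReal
        (∫ y, (fderiv ℝ h x y) ^ 2 ∂(un μ N)) ∂μ) := by
        refine mul_le_mul_right ?_ _
        rw [scale μ hN h0 hm1, scale μ hN h0 hm2]
        have hs : ContDiff ℝ 1 fun x : F => h (ρ • x) := hh.comp (contDiff_const_smul ρ)
        have hfs : ∀ x : F, fderiv ℝ (fun x : F => h (ρ • x)) x = ρ • fderiv ℝ h (ρ • x) := by
          intro x
          have h1 : HasFDerivAt h (fderiv ℝ h (ρ • x)) (ρ • x) :=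
            (hh.differentiable (by norm_num) _).hasFDerivAt
          have h2 : HasFDerivAt (fun x : F => ρ • x) (ρ • ContinuousLinearMap.id ℝ F) x :=
            (hasFDerivAt_id x).const_smul ρ
          have h3 := h1.comp x h2
          rw [show (fun x : F => h (ρ • x)) = h ∘ fun x => ρ • x from rfl, h3.fderiv]
          ext y
          simp
        have key := hP (fun x => h (ρ • x)) hs ⟨B, fun x => hB _⟩ ⟨ρ * L, fun x => by
          rw [hfs, norm_smul, Real.norm_eq_abs, abs_of_pos h0]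
          exact mul_le_mul_of_nonneg_left (hL _) h0.le⟩
        rw [← ha] at key
        have e1 : ∀ x : F, ∫ y, (fderiv ℝ (fun x : F => h (ρ • x)) x y) ^ 2 ∂(un μ N) =
            ρ ^ 2 * ∫ y, (fderiv ℝ h (ρ • x) y) ^ 2 ∂(un μ N) := by
          intro x
          rw [hfs, ← integral_const_mul]
          refine integral_congr_ae (Eventually.of_forall fun y => ?_)
          simp only [smul_apply, smul_eq_mul]
          ring
        simp_rw [e1] at key
        rw [integral_const_mul] at key
        have hc2 : Continuous fun x : F => ρ • x := continuous_const_smul ρ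
        have hi1 : Integrable (fun x => (h (ρ • x) - a) ^ 2) (un μ N) := by
          refine Integrable.of_bound (((hh.continuous.comp hc2).sub
            continuous_const).pow 2).aestronglyMeasurable ((B + |a|) ^ 2)
            (Eventually.of_forall fun x => ?_)
          rw [Real.norm_eq_abs, abs_pow]
          refine pow_le_pow_left₀ (abs_nonneg _) ?_ 2
          exact (abs_sub _ _).trans (by linarith [hB (ρ • x)])
        have hi2 : Integrable (fun x => ∫ y, (fderiv ℝ h (ρ • x) y) ^ 2 ∂(un μ N)) (un μ N) := by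
          obtain ⟨R, hR0, hR⟩ := un_bdd μ hN
          refine Integrable.of_bound (hQ.comp hc2).aestronglyMeasurable ((|L| * R) ^ 2)
            (Eventually.of_forall fun x => ?_)
          rw [Real.norm_eq_abs, abs_of_nonneg (integral_nonneg fun y => sq_nonneg _)]
          calc _ ≤ ∫ _, (|L| * R) ^ 2 ∂(un μ N) := by
                refine integral_mono_of_nonneg (Eventually.of_forall fun y => sq_nonneg _)
                  (integrable_const _) ?_
                filter_upwards [hR] with y hy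
                have h5 : |fderiv ℝ h (ρ • x) y| ≤ |L| * R := by
                  refine ((fderiv ℝ h (ρ • x)).le_opNorm y).trans ?_
                  exact mul_le_mul ((hL _).trans (le_abs_self _)) hy (norm_nonneg _)
                    (abs_nonneg _)
                rw [← sq_abs]
                exact pow_le_pow_left₀ (abs_nonneg _) h5 2
            _ = _ := by simp
        rw [← ofReal_integral_eq_lintegral_ofReal hi1 (Eventually.of_forall fun x => sq_nonneg _),
          ← ofReal_integral_eq_lintegral_ofReal hi2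
            (Eventually.of_forall fun x => integral_nonneg fun y => sq_nonneg _)]
        have e2 : ENNReal.ofReal (∫ x, (h (ρ • x) - a) ^ 2 ∂(un μ N)) ≤
            ENNReal.ofReal (A * ρ ^ 2) * ENNReal.ofReal
              (∫ x, ∫ y, (fderiv ℝ h (ρ • x) y) ^ 2 ∂(un μ N) ∂(un μ N)) := by
          rw [← ENNReal.ofReal_mul (by positivity)]
          refine ENNReal.ofReal_le_ofReal (key.trans (le_of_eq ?_))
          ring
        calc _ ≤ ENNReal.ofReal (ρ ^ finrank ℝ F) * μ {x | N x ≤ 1} *
              (ENNReal.ofReal (A * ρ ^ 2) * ENNReal.ofReal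
              (∫ x, ∫ y, (fderiv ℝ h (ρ • x) y) ^ 2 ∂(un μ N) ∂(un μ N))) :=
              mul_le_mul_right e2 _
          _ = _ := by ring
    _ = _ := by
        rw [← mul_assoc, mul_comm (cc μ N N'), mul_assoc, ← polar_ball μ hN hN' ρ hm2]

end

end Pool.Agent.W5h44.DS
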