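import Pool.Agent.W5h44.DS.Law
import Pool.Agent.W5h44.DS.Blk

/-!
# The angular part, block by block
-/

set_option autoImplicit false
set_option linter.unusedSectionVars false

namespace Pool.Agent.W5h44.DS

open MeasureTheory Set Filter Topology Module
open scoped ENNReal
open Pool.Agent.R751.MB (Eu UBody Body)

variable {b : ℕ} {m : Fin b → ℕ}

/-- the points `z` for which all points of the `D`-sum with the same other blocks have
`N'_i ≤ τ` -/
def Wi (D : Set (Eu (Fin b))) (N' : ∀ i, Eu (Fin (m i)) → ℝ) (i : Fin b) (τ : ℝ) : Set (E m) :=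
  {z | ∀ q : ℚ, τ < q → WithLp.toLp 2 (Function.update (fun j => N' j (z j)) i (q : ℝ)) ∉ D}

theorem slice {D : Set (Eu (Fin b))} (hD : UBody D) (u : Fin b → ℝ) (i : Fin b) :
    (∀ r : ℝ, 0 ≤ r → WithLp.toLp 2 (Function.update u i r) ∉ D) ∨
      ∃ ρ : ℝ, 0 ≤ ρ ∧ ∀ r : ℝ, 0 ≤ r → (WithLp.toLp 2 (Function.update u i r) ∈ D ↔ r ≤ ρ) := by
  by_cases h : ∃ r : ℝ, 0 ≤ r ∧ WithLp.toLp 2 (Function.update u i r) ∈ D
  · right
    obtain ⟨r0, hr0, hr0D⟩ := h
    obtain ⟨R, hR⟩ : ∃ R : Set ℝ, R = {r | 0 ≤ r ∧ WithLp.toLp 2 (Function.update u i r) ∈ D} :=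
      ⟨_, rfl⟩
    have hcont : Continuous fun r : ℝ => (WithLp.toLp 2 (Function.update u i r) : Eu (Fin b)) :=
      (PiLp.continuous_toLp 2 _).comp (continuous_const.update i continuous_id)
    have hcl : IsClosed R := by
      rw [hR]
      exact (isClosed_le continuous_const continuous_id).inter (hD.comp.isClosed.preimage hcont)
    obtain ⟨M, hM⟩ := hD.comp.isBounded.exists_norm_le
    have hbd : BddAbove R := by
      refine ⟨M, fun r hr => ?_⟩
      rw [hR] at hr
      have h2 := hM _ hr.2
      have h3 := PiLp.norm_apply_le (WithLp.toLp 2 (Function.update u i r) : Eu (Fin b)) i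
      have h4 : ‖r‖ ≤ M := by simpa using h3.trans h2
      exact (le_abs_self _).trans h4
    have hne : R.Nonempty := ⟨r0, by rw [hR]; exact ⟨hr0, hr0D⟩⟩
    have hs := hcl.csSup_mem hne hbd
    refine ⟨sSup R, by rw [hR] at hs ⊢; exact hs.1, fun r hr => ⟨fun h => ?_, fun h => ?_⟩⟩
    · exact le_csSup hbd (by rw [hR]; exact ⟨hr, h⟩)
    · have h1 : WithLp.toLp 2 (Function.update u i (sSup R)) ∈ D := by
        have h5 := hs
        rw [hR] at h5
        rw [hR]
        exact h5.2
      have h0 : 0 ≤ sSup R := hr.trans h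
      refine hD.unc _ h1 _ fun j => ?_
      by_cases hj : j = i
      · subst hj
        simp only [Function.update_self]
        rw [abs_of_nonneg hr, abs_of_nonneg h0]
        exact h
      · simp [Function.update_of_ne hj]
  · left
    intro r hr hrD
    exact h ⟨r, hr, hrD⟩

section

variable {D : Set (Eu (Fin b))} (hD : UBody D) {N N' : ∀ i, Eu (Fin (m i)) → ℝ}
  (hN : ∀ i, Gg (N i)) (hN' : ∀ i, Gg (N' i))

include hD hN'

theorem Wi_meas (i : Fin b) (τ : ℝ) : MeasurableSet (Wi D N' i τ) := by
  have : Wi D N' i τ = ⋂ q : ℚ, {z | τ < q →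
      WithLp.toLp 2 (Function.update (fun j => N' j (z j)) i (q : ℝ)) ∉ D} := by
    ext z
    simp [Wi]
  rw [this]
  refine MeasurableSet.iInter fun q => ?_
  by_cases hq : τ < q
  · simp only [hq, true_implies]
    have hc : Continuous fun z : E m =>
        (WithLp.toLp 2 (Function.update (fun j => N' j (z j)) i (q : ℝ)) : Eu (Fin b)) :=
      (PiLp.continuous_toLp 2 _).comp
        ((continuous_pi fun j => (hN' j).cont.comp (continuous_apply j)).update i continuous_const)
    exact (hD.comp.isClosed.preimage hc).measurableSet.compl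
  · simp [hq]

theorem Wi_le {i : Fin b} {τ : ℝ} (hτ : 0 ≤ τ) {z : E m} (hz : z ∈ Wi D N' i τ) {r : ℝ}
    (hr : 0 ≤ r) (h : WithLp.toLp 2 (Function.update (fun j => N' j (z j)) i r) ∈ D) : r ≤ τ := by
  by_contra hlt
  rw [not_le] at hlt
  obtain ⟨q, hq1, hq2⟩ := exists_rat_btwn hlt
  refine hz q hq1 (hD.unc _ h _ fun j => ?_)
  by_cases hj : j = i
  · subst hj
    simp only [Function.update_self]
    rw [abs_of_nonneg (hτ.trans hq1.le), abs_of_nonneg hr]
    exact hq2.le
  · simp [Function.update_of_ne hj]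

theorem Wi_update (i : Fin b) (τ : ℝ) (z : E m) (t : Eu (Fin (m i))) :
    Function.update z i t ∈ Wi D N' i τ ↔ z ∈ Wi D N' i τ := by
  have h : ∀ q : ℚ, Function.update (fun j => N' j (Function.update z i t j)) i (q : ℝ) =
      Function.update (fun j => N' j (z j)) i (q : ℝ) := by
    intro q
    funext j
    by_cases hj : j = i
    · subst hj
      simp
    · simp [Function.update_of_ne hj]
  unfold Wi
  simp only [mem_ofPred_eq, h]

theorem SS_update (i : Fin b) (z : E m) (t : Eu (Fin (m i))) :
    Function.update z i t ∈ SS D N' ↔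
      WithLp.toLp 2 (Function.update (fun j => N' j (z j)) i (N' i t)) ∈ D := by
  have h : (fun j => N' j (Function.update z i t j)) =
      Function.update (fun j => N' j (z j)) i (N' i t) := by
    funext j
    by_cases hj : j = i
    · subst hj
      simp
    · simp [Function.update_of_ne hj]
  unfold SS
  simp only [mem_ofPred_eq, h]

omit hD hN' in
theorem Φ_update (i : Fin b) (z y : E m) (t s : Eu (Fin (m i))) :
    Φ N N' (Function.update z i t) (Function.update y i s) =
      Function.update (Φ N N' z y) i ((N' i t / N i s) • s) := by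
  funext j
  unfold Φ
  by_cases hj : j = i
  · subst hj
    simp
  · simp [Function.update_of_ne hj]

omit hD hN' in
theorem update_eq (i : Fin b) (c : E m) (x : Eu (Fin (m i))) :
    Function.update c i x = Function.update c i 0 +
      ContinuousLinearMap.single ℝ (fun j => Eu (Fin (m j))) i x := by
  funext j
  by_cases hj : j = i
  · subst hj
    simp
  · simp [Function.update_of_ne hj, Pi.single_eq_of_ne hj]

variable {k : ℕ} (L : E m →L[ℝ] Eu (Fin k)) {v : Eu (Fin k) → ℝ} (hv : ContDiff ℝ 1 v)

/-- the energy of one block -/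
noncomputable def qi (N : ∀ i, Eu (Fin (m i)) → ℝ) (L : E m →L[ℝ] Eu (Fin k))
    (v : Eu (Fin k) → ℝ) (i : Fin b) (x : E m) : ℝ :=
  ∫ y, (fderiv ℝ v (L x) (L (ContinuousLinearMap.single ℝ (fun j => Eu (Fin (m j))) i y))) ^ 2
    ∂(un volume (N i))

include hN hv

omit hD hN' in
theorem qi_cont (hm : ∀ i, 1 ≤ m i) (i : Fin b) : Continuous (qi N L v i) := by
  have := nontriv hm i
  have hfd : Continuous (fderiv ℝ v) := hv.continuous_fderiv (by norm_num)
  refine en_cont (volume : Measure (Eu (Fin (m i)))) (hN i) (X := E m) (l := fun x y =>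
    fderiv ℝ v (L x) (L (ContinuousLinearMap.single ℝ (fun j => Eu (Fin (m j))) i y))) ?_
  exact (hfd.comp (L.continuous.comp continuous_fst)).clm_apply
    (L.continuous.comp ((ContinuousLinearMap.continuous _).comp continuous_snd))

theorem ang (hm : ∀ i, 1 ≤ m i) (i : Fin b) {A : ℝ} (hA : 0 ≤ A)
    (hP : PB (volume : Measure (Eu (Fin (m i)))) A (N i)) {τ : ℝ} (hτ : 0 ≤ τ) {B C : ℝ}
    (hB : ∀ x, |v x| ≤ B) (hC : ∀ x, ‖fderiv ℝ v x‖ ≤ C) :
    ∫⁻ z in SS D N' ∩ Wi D N' i τ, ∫⁻ y, ENNReal.ofReal ((v (L (Φ N N' z y)) -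
        ∫ t, v (L (Φ N N' z (Function.update y i t))) ∂(un volume (N i))) ^ 2) ∂(KM N) ≤
      ENNReal.ofReal (A * τ ^ 2) * ∫⁻ z in SS D N' ∩ Wi D N' i τ, ∫⁻ y,
        ENNReal.ofReal (qi N L v i (Φ N N' z y)) ∂(KM N) := by
  have hnt := nontriv hm
  have hpi : ∀ i, IsProbabilityMeasure (un volume (N i)) := fun i => un_prob volume (hN i)
  have hKM : IsProbabilityMeasure (KM N) := KM_prob hD hN
  obtain ⟨P, hPdef⟩ : ∃ P, P = SS D N' ∩ Wi D N' i τ := ⟨_, rfl⟩
  have hPm : MeasurableSet P := by
    rw [hPdef]
    exact (SS_closed hD hN').measurableSet.inter (Wi_meas hD hN' i τ)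
  rw [← hPdef]
  have hΦ := Φ_meas hN hN'
  have hvm : Measurable fun x : E m => v (L x) := (hv.continuous.comp L.continuous).measurable
  -- the integrands
  obtain ⟨f0, hf0⟩ : ∃ f0 : E m → E m → ℝ≥0∞, f0 = fun z y => ENNReal.ofReal ((v (L (Φ N N' z y)) -
        ∫ t, v (L (Φ N N' z (Function.update y i t))) ∂(un volume (N i))) ^ 2) := ⟨_, rfl⟩
  obtain ⟨g0, hg0⟩ : ∃ g0 : E m → E m → ℝ≥0∞, g0 = fun z y =>
      ENNReal.ofReal (qi N L v i (Φ N N' z y)) := ⟨_, rfl⟩
  have hf0m : Measurable fun q : E m × E m => f0 q.1 q.2 := by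
    rw [hf0]
    have h1 : StronglyMeasurable fun q : (E m × E m) × Eu (Fin (m i)) =>
        v (L (Φ N N' q.1.1 (Function.update q.1.2 i q.2))) := by
      refine (hvm.comp (hΦ.comp (g := fun q : E m × E m => Φ N N' q.1 q.2)
        (f := fun q : (E m × E m) × Eu (Fin (m i)) => (q.1.1, Function.update q.1.2 i q.2))
        ?_)).stronglyMeasurable
      exact (measurable_fst.comp measurable_fst).prodMk (measurable_update'.comp
        ((measurable_snd.comp measurable_fst).prodMk measurable_snd))
    exact (((hvm.comp hΦ).sub h1.integral_prod_right'.measurable).pow_const 2).ennreal_ofReal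
  have hg0m : Measurable fun q : E m × E m => g0 q.1 q.2 := by
    rw [hg0]
    exact ((qi_cont hN L hv hm i).measurable.comp hΦ).ennreal_ofReal
  have e1 : ∀ h : E m → E m → ℝ≥0∞, ∫⁻ z in P, ∫⁻ y, h z y ∂(KM N) =
      ∫⁻ z, P.indicator (fun z => ∫⁻ y, h z y ∂(KM N)) z ∂(Measure.pi fun j =>
        (volume : Measure (Eu (Fin (m j))))) := by
    intro h
    rw [← lintegral_indicator hPm]
    rfl
  have hgoal : ∫⁻ z in P, ∫⁻ y, f0 z y ∂(KM N) ≤
      ENNReal.ofReal (A * τ ^ 2) * ∫⁻ z in P, ∫⁻ y, g0 z y ∂(KM N) := by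
    have hFm : Measurable (P.indicator fun z => ∫⁻ y, f0 z y ∂(KM N)) :=
      (Measurable.lintegral_prod_right' hf0m).indicator hPm
    have hGm0 : Measurable (P.indicator fun z => ∫⁻ y, g0 z y ∂(KM N)) :=
      (Measurable.lintegral_prod_right' hg0m).indicator hPm
    have hGm : Measurable fun z => ENNReal.ofReal (A * τ ^ 2) *
        P.indicator (fun z => ∫⁻ y, g0 z y ∂(KM N)) z := hGm0.const_mul _
    rw [e1, e1, ← lintegral_const_mul _ hGm0]
    refine lintegral_le_of_lmarginal_le (μ := fun j => (volume : Measure (Eu (Fin (m j))))) {i}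
      hFm hGm ?_
    intro z
    rw [lmarginal_singleton, lmarginal_singleton]
    show ∫⁻ t, P.indicator (fun z => ∫⁻ y, f0 z y ∂(KM N)) (Function.update z i t) ≤
      ∫⁻ t, ENNReal.ofReal (A * τ ^ 2) *
        P.indicator (fun z => ∫⁻ y, g0 z y ∂(KM N)) (Function.update z i t)
    by_cases hzW : z ∈ Wi D N' i τ
    swap
    · have h0 : ∀ t, P.indicator (fun z => ∫⁻ y, f0 z y ∂(KM N)) (Function.update z i t) = 0 := by
        intro t
        refine indicator_of_notMem ?_ _
        rw [hPdef]
        exact fun h => hzW ((Wi_update hD hN' i τ z t).1 h.2)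
      simp only [h0, lintegral_zero]
      exact zero_le
    rcases slice hD (fun j => N' j (z j)) i with hsl | ⟨ρ, hρ, hsl⟩
    · have h0 : ∀ t, P.indicator (fun z => ∫⁻ y, f0 z y ∂(KM N)) (Function.update z i t) = 0 := by
        intro t
        refine indicator_of_notMem ?_ _
        rw [hPdef]
        exact fun h => hsl _ ((hN' i).nonneg t) ((SS_update hD hN' i z t).1 h.1)
      simp only [h0, lintegral_zero]
      exact zero_le
    have hρτ : ρ ≤ τ := Wi_le hD hN' hτ hzW hρ ((hsl ρ hρ).2 le_rfl)
    have hmem : ∀ t, Function.update z i t ∈ P ↔ t ∈ {t | N' i t ≤ ρ} := by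
      intro t
      rw [hPdef]
      constructor
      · intro h
        exact (hsl _ ((hN' i).nonneg t)).1 ((SS_update hD hN' i z t).1 h.1)
      · intro h
        exact ⟨(SS_update hD hN' i z t).2 ((hsl _ ((hN' i).nonneg t)).2 h),
          (Wi_update hD hN' i τ z t).2 hzW⟩
    have hρm : MeasurableSet {t | N' i t ≤ ρ} :=
      measurableSet_le (hN' i).cont.measurable measurable_const
    have hind : ∀ h : E m → ℝ≥0∞, ∀ t, P.indicator h (Function.update z i t) =
        {t | N' i t ≤ ρ}.indicator (fun t => h (Function.update z i t)) t := by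
      intro h t
      by_cases ht : t ∈ {t | N' i t ≤ ρ}
      · rw [indicator_of_mem ht, indicator_of_mem ((hmem t).2 ht)]
      · rw [indicator_of_notMem ht, indicator_of_notMem (fun h => ht ((hmem t).1 h))]
    simp_rw [hind]
    rw [lintegral_const_mul', lintegral_indicator hρm, lintegral_indicator hρm]
    swap
    · exact ENNReal.ofReal_ne_top
    -- resampling and exchange of the integrals
    have hres : ∀ h : E m → E m → ℝ≥0∞, Measurable (fun q : E m × E m => h q.1 q.2) →
        ∫⁻ t in {t | N' i t ≤ ρ}, ∫⁻ y, h (Function.update z i t) y ∂(KM N) =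
        ∫⁻ y, ∫⁻ t in {t | N' i t ≤ ρ}, ∫⁻ s,
          h (Function.update z i t) (Function.update y i s) ∂(un volume (N i)) ∂volume
            ∂(KM N) := by
      intro h hh
      have h2 : ∀ t, ∫⁻ y, h (Function.update z i t) y ∂(KM N) =
          ∫⁻ y, ∫⁻ s, h (Function.update z i t) (Function.update y i s) ∂(un volume (N i))
            ∂(KM N) := fun t =>
        rs_resample_l (fun i => un volume (N i)) i (fun y => h (Function.update z i t) y)
          (hh.comp measurable_prodMk_left)
      simp_rw [h2]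
      have h3 : Measurable fun q : (Eu (Fin (m i)) × E m) × Eu (Fin (m i)) =>
          h (Function.update z i q.1.1) (Function.update q.1.2 i q.2) := by
        refine hh.comp (g := fun q : E m × E m => h q.1 q.2)
          (f := fun q : (Eu (Fin (m i)) × E m) × Eu (Fin (m i)) =>
            (Function.update z i q.1.1, Function.update q.1.2 i q.2)) ?_
        exact ((measurable_update z).comp (measurable_fst.comp measurable_fst)).prodMk
          (measurable_update'.comp ((measurable_snd.comp measurable_fst).prodMk measurable_snd))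
      have h4 : Measurable fun q : Eu (Fin (m i)) × E m => ∫⁻ s,
          h (Function.update z i q.1) (Function.update q.2 i s) ∂(un volume (N i)) :=
        Measurable.lintegral_prod_right' (f := fun q : (Eu (Fin (m i)) × E m) × Eu (Fin (m i)) =>
          h (Function.update z i q.1.1) (Function.update q.1.2 i q.2)) h3
      exact lintegral_lintegral_swap (f := fun t y => ∫⁻ s,
          h (Function.update z i t) (Function.update y i s) ∂(un volume (N i))) h4.aemeasurable
    rw [hres f0 hf0m, hres g0 hg0m, ← lintegral_const_mul']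
    swap
    · exact ENNReal.ofReal_ne_top
    refine lintegral_mono fun y => ?_
    -- one block
    obtain ⟨c, hc⟩ : ∃ c, c = Φ N N' z y := ⟨_, rfl⟩
    obtain ⟨h, hh⟩ : ∃ h : Eu (Fin (m i)) → ℝ, h = fun x => v (L (Function.update c i x)) :=
      ⟨_, rfl⟩
    have hhe : h = v ∘ fun x => L (Function.update c i 0) +
        L (ContinuousLinearMap.single ℝ (fun j => Eu (Fin (m j))) i x) := by
      rw [hh]
      funext x
      simp only [Function.comp_apply]
      rw [update_eq, map_add]
    have hfd : ∀ x, HasFDerivAt h ((fderiv ℝ v (L (Function.update c i x))).comp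
        (L.comp (ContinuousLinearMap.single ℝ (fun j => Eu (Fin (m j))) i))) x := by
      intro x
      have h1 : HasFDerivAt v (fderiv ℝ v (L (Function.update c i x)))
          (L (Function.update c i 0) +
            L (ContinuousLinearMap.single ℝ (fun j => Eu (Fin (m j))) i x)) := by
        rw [← map_add, ← update_eq]
        exact (hv.differentiable (by norm_num) _).hasFDerivAt
      have h2 : HasFDerivAt (fun x => L (Function.update c i 0) +
          L (ContinuousLinearMap.single ℝ (fun j => Eu (Fin (m j))) i x))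
          (L.comp (ContinuousLinearMap.single ℝ (fun j => Eu (Fin (m j))) i)) x :=
        ((L.comp (ContinuousLinearMap.single ℝ (fun j => Eu (Fin (m j))) i)).hasFDerivAt).const_add _
      rw [hhe]
      exact h1.comp x h2
    have hcd : ContDiff ℝ 1 h := by
      rw [hhe]
      refine hv.comp (contDiff_const.add ?_)
      exact (L.comp (ContinuousLinearMap.single ℝ (fun j => Eu (Fin (m j))) i)).contDiff
    have hbl := block (volume : Measure (Eu (Fin (m i)))) (hN i) (hN' i) hA hP hρ hcd (B := B)
      (L := C * ‖L.comp (ContinuousLinearMap.single ℝ (fun j => Eu (Fin (m j))) i)‖)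
      (fun x => by rw [hh]; exact hB _) (fun x => by
        rw [(hfd x).fderiv]
        refine (ContinuousLinearMap.opNorm_comp_le _ _).trans ?_
        exact mul_le_mul_of_nonneg_right (hC _) (norm_nonneg _))
    have q1 : ∀ t s, f0 (Function.update z i t) (Function.update y i s) =
        ENNReal.ofReal ((h ((N' i t / N i s) • s) -
          ∫ s', h ((N' i t / N i s') • s') ∂(un volume (N i))) ^ 2) := by
      intro t s
      rw [hf0, hh]
      simp only [Function.update_idem, Φ_update]
      rw [hc]
    have q2 : ∀ t s, g0 (Function.update z i t) (Function.update y i s) =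
        ENNReal.ofReal (∫ y', (fderiv ℝ h ((N' i t / N i s) • s) y') ^ 2 ∂(un volume (N i))) := by
      intro t s
      rw [hg0]
      simp only [Φ_update]
      rw [← hc]
      unfold qi
      simp only [(hfd _).fderiv]
      rfl
    simp_rw [q1, q2]
    refine hbl.trans (mul_le_mul_left ?_ _)
    refine ENNReal.ofReal_le_ofReal (mul_le_mul_of_nonneg_left ?_ hA)
    exact pow_le_pow_left₀ hρ hρτ 2
  rw [hf0, hg0] at hgoal
  exact hgoal

end

end Pool.Agent.W5h44.DS
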