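import Pool.Agent.W5h44.DS.Iso

/-!
# The exceptional set of the radial variables
-/

set_option autoImplicit false
set_option linter.unusedSectionVars false

namespace Pool.Agent.W5h44.DS

open MeasureTheory Set Filter Topology Module
open scoped ENNReal InnerProductSpace
open Pool.Agent.R751.MB (Eu UBody Body)

theorem vol_ball {F : Type} [NormedAddCommGroup F] [NormedSpace ℝ F] [FiniteDimensional ℝ F]
    [MeasurableSpace F] [BorelSpace F] [Nontrivial F] (μ : Measure F) [μ.IsAddHaarMeasure]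
    {N : F → ℝ} (hN : Gg N) {r : ℝ} (hr : 0 < r) :
    μ {x | N x ≤ r} = ENNReal.ofReal (r ^ finrank ℝ F) * μ {x | N x ≤ 1} := by
  have hprob := un_prob μ hN
  have h1 := scale μ hN hr (g := fun _ => 1) measurable_const
  simpa using h1

theorem half_ball {F : Type} [NormedAddCommGroup F] [NormedSpace ℝ F] [FiniteDimensional ℝ F]
    [MeasurableSpace F] [BorelSpace F] [Nontrivial F] (μ : Measure F) [μ.IsAddHaarMeasure]
    {N : F → ℝ} (hN : Gg N) {τ ρ : ℝ} (hτ : 0 < τ) (hρ : τ ≤ ρ) :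
    μ {x | N x ≤ ρ} ≤ 2 * μ {x | N x ≤ ρ ∧ τ / 2 < N x} := by
  have hd : 1 ≤ finrank ℝ F := finrank_pos
  have h1 : 2 * μ {x | N x ≤ τ / 2} ≤ μ {x | N x ≤ ρ} := by
    rw [vol_ball μ hN (half_pos hτ), vol_ball μ hN (hτ.trans_le hρ), ← mul_assoc]
    refine mul_le_mul_left ?_ _
    have h2 : (2 : ℝ≥0∞) = ENNReal.ofReal 2 := by simp
    rw [h2, ← ENNReal.ofReal_mul (by norm_num)]
    refine ENNReal.ofReal_le_ofReal ?_
    rw [div_pow]
    have h3 : (2 : ℝ) ≤ 2 ^ finrank ℝ F := by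
      calc (2 : ℝ) = 2 ^ 1 := by norm_num
        _ ≤ 2 ^ finrank ℝ F := pow_le_pow_right₀ (by norm_num) hd
    have h4 : τ ^ finrank ℝ F ≤ ρ ^ finrank ℝ F := pow_le_pow_left₀ hτ.le hρ _
    calc 2 * (τ ^ finrank ℝ F / 2 ^ finrank ℝ F) = (2 / 2 ^ finrank ℝ F) * τ ^ finrank ℝ F := by
          ring
      _ ≤ 1 * τ ^ finrank ℝ F := by
          refine mul_le_mul_of_nonneg_right ?_ (by positivity)
          rw [div_le_one (by positivity)]
          exact h3
      _ ≤ ρ ^ finrank ℝ F := by rw [one_mul]; exact h4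
  have h2 : μ {x | N x ≤ ρ} ≤ μ {x | N x ≤ τ / 2} + μ {x | N x ≤ ρ ∧ τ / 2 < N x} := by
    refine (measure_mono ?_).trans (measure_union_le _ _)
    intro x hx
    rcases le_or_gt (N x) (τ / 2) with h | h
    · exact Or.inl h
    · exact Or.inr ⟨hx, h⟩
  have h3 : μ {x | N x ≤ ρ} ≠ ⊤ := (hN.vol_lt μ ρ).ne
  have h4 : μ {x | N x ≤ ρ} + μ {x | N x ≤ ρ} ≤
      μ {x | N x ≤ ρ} + 2 * μ {x | N x ≤ ρ ∧ τ / 2 < N x} := by
    calc _ = 2 * μ {x | N x ≤ ρ} := by rw [two_mul]
      _ ≤ 2 * (μ {x | N x ≤ τ / 2} + μ {x | N x ≤ ρ ∧ τ / 2 < N x}) := mul_le_mul_right h2 _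
      _ = 2 * μ {x | N x ≤ τ / 2} + 2 * μ {x | N x ≤ ρ ∧ τ / 2 < N x} := mul_add _ _ _
      _ ≤ _ := add_le_add_left h1 _
  exact (ENNReal.add_le_add_iff_left h3).1 h4

variable {b : ℕ} {m : Fin b → ℕ}

section

variable {D : Set (Eu (Fin b))} (hD : UBody D) {N' : ∀ i, Eu (Fin (m i)) → ℝ}
  (hN' : ∀ i, Gg (N' i)) (hm : ∀ i, 1 ≤ m i)

include hD hN' hm

theorem bad (i : Fin b) {τ : ℝ} (hτ : 0 < τ) :
    PS D N' (Wi D N' i τ)ᶜ ≤ 2 * PS D N' {z | τ / 2 < N' i (z i)} := by
  have hnt := nontriv hm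
  have hSm : MeasurableSet (SS D N') := (SS_closed hD hN').measurableSet
  have hWm : MeasurableSet (Wi D N' i τ)ᶜ := (Wi_meas hD hN' i τ).compl
  have hTm : MeasurableSet {z : E m | τ / 2 < N' i (z i)} :=
    measurableSet_lt measurable_const (cont_N hD hN' i).measurable
  unfold PS
  rw [Measure.smul_apply, Measure.smul_apply, Measure.restrict_apply hWm,
    Measure.restrict_apply hTm, smul_eq_mul, smul_eq_mul, mul_left_comm]
  refine mul_le_mul_right ?_ _
  rw [← lintegral_indicator_one (hWm.inter hSm), ← lintegral_indicator_one (hTm.inter hSm)]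
  have hA : Measurable (((Wi D N' i τ)ᶜ ∩ SS D N').indicator (1 : E m → ℝ≥0∞)) :=
    measurable_one.indicator (hWm.inter hSm)
  have hB : Measurable (({z : E m | τ / 2 < N' i (z i)} ∩ SS D N').indicator
    (1 : E m → ℝ≥0∞)) := measurable_one.indicator (hTm.inter hSm)
  rw [← lintegral_const_mul _ hB]
  refine lintegral_le_of_lmarginal_le (μ := fun j => (volume : Measure (Eu (Fin (m j))))) {i}
    hA (hB.const_mul _) ?_
  intro z
  rw [lmarginal_singleton, lmarginal_singleton]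
  show ∫⁻ t, ((Wi D N' i τ)ᶜ ∩ SS D N').indicator (1 : E m → ℝ≥0∞) (Function.update z i t) ≤
    ∫⁻ t, 2 * ({z : E m | τ / 2 < N' i (z i)} ∩ SS D N').indicator (1 : E m → ℝ≥0∞)
      (Function.update z i t)
  by_cases hz : z ∈ Wi D N' i τ
  · have h0 : ∀ t, ((Wi D N' i τ)ᶜ ∩ SS D N').indicator (1 : E m → ℝ≥0∞)
        (Function.update z i t) = 0 := by
      intro t
      refine indicator_of_notMem ?_ _
      exact fun h => h.1 ((Wi_update hD hN' i τ z t).2 hz)
    simp only [h0, lintegral_zero]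
    exact zero_le
  · have hex : ∃ q : ℚ, τ < q ∧
        WithLp.toLp 2 (Function.update (fun j => N' j (z j)) i (q : ℝ)) ∈ D := by
      by_contra hcon
      push Not at hcon
      exact hz hcon
    obtain ⟨q, hq, hqD⟩ := hex
    rcases slice hD (fun j => N' j (z j)) i with hsl | ⟨ρ, hρ, hsl⟩
    · exact absurd hqD (hsl _ (hτ.le.trans hq.le))
    have hqρ : (q : ℝ) ≤ ρ := (hsl _ (hτ.le.trans hq.le)).1 hqD
    have hτρ : τ ≤ ρ := hq.le.trans hqρ
    have hm1 : MeasurableSet {t : Eu (Fin (m i)) | N' i t ≤ ρ} :=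
      measurableSet_le (hN' i).cont.measurable measurable_const
    have hm2 : MeasurableSet {t : Eu (Fin (m i)) | N' i t ≤ ρ ∧ τ / 2 < N' i t} :=
      hm1.inter (measurableSet_lt measurable_const (hN' i).cont.measurable)
    have e1 : ∀ t, ((Wi D N' i τ)ᶜ ∩ SS D N').indicator (1 : E m → ℝ≥0∞)
        (Function.update z i t) = {t | N' i t ≤ ρ}.indicator 1 t := by
      intro t
      have hiff : Function.update z i t ∈ (Wi D N' i τ)ᶜ ∩ SS D N' ↔ t ∈ {t | N' i t ≤ ρ} := by
        constructor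
        · intro h
          exact (hsl _ ((hN' i).nonneg t)).1 ((SS_update hD hN' i z t).1 h.2)
        · intro h
          exact ⟨fun h2 => hz ((Wi_update hD hN' i τ z t).1 h2),
            (SS_update hD hN' i z t).2 ((hsl _ ((hN' i).nonneg t)).2 h)⟩
      by_cases ht : t ∈ {t | N' i t ≤ ρ}
      · rw [indicator_of_mem ht, indicator_of_mem (hiff.2 ht)]
        rfl
      · rw [indicator_of_notMem ht, indicator_of_notMem (fun h => ht (hiff.1 h))]
    have e2 : ∀ t, ({z : E m | τ / 2 < N' i (z i)} ∩ SS D N').indicator (1 : E m → ℝ≥0∞)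
        (Function.update z i t) = {t | N' i t ≤ ρ ∧ τ / 2 < N' i t}.indicator 1 t := by
      intro t
      have hiff : Function.update z i t ∈ {z : E m | τ / 2 < N' i (z i)} ∩ SS D N' ↔
          t ∈ {t | N' i t ≤ ρ ∧ τ / 2 < N' i t} := by
        constructor
        · intro h
          refine ⟨(hsl _ ((hN' i).nonneg t)).1 ((SS_update hD hN' i z t).1 h.2), ?_⟩
          have h2 : τ / 2 < N' i (Function.update z i t i) := h.1
          rwa [Function.update_self] at h2
        · intro h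
          refine ⟨?_, (SS_update hD hN' i z t).2 ((hsl _ ((hN' i).nonneg t)).2 h.1)⟩
          show τ / 2 < N' i (Function.update z i t i)
          rw [Function.update_self]
          exact h.2
      by_cases ht : t ∈ {t | N' i t ≤ ρ ∧ τ / 2 < N' i t}
      · rw [indicator_of_mem ht, indicator_of_mem (hiff.2 ht)]
        rfl
      · rw [indicator_of_notMem ht, indicator_of_notMem (fun h => ht (hiff.1 h))]
    simp_rw [e1, e2]
    rw [lintegral_const_mul _ (measurable_one.indicator hm2), lintegral_indicator_one hm1,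
      lintegral_indicator_one hm2]
    exact half_ball volume (hN' i) hτ hτρ

end

end Pool.Agent.W5h44.DS
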