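import Pool.Agent.W5h44.DS.Gau

/-!
# `D`-sums of symmetric bodies: concentration
-/

set_option autoImplicit false
set_option linter.unusedSectionVars false

namespace Pool.Agent.W5h44.DS

open MeasureTheory Set Filter Topology Module
open scoped ENNReal InnerProductSpace Pointwise
open Pool.Agent.R751.MB (Eu UBody Body dsum ind EW VW AP CcW Adm)
open Pool.Agent.TH610.RB (CC CC_pos)

theorem un_img {b n : ℕ} {m : Fin b → ℕ} (e : E m ≃ₗ[ℝ] Eu (Fin n))
    {K : Set (E m)} (h0 : volume K ≠ 0) (f : Eu (Fin n) → ℝ) :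
    ∫ x, f x ∂(Pool.Agent.R754.KG.un (e '' K)) =
      ∫ z, f (e z) ∂((volume K)⁻¹ • volume.restrict K) := by
  let e' : E m ≃L[ℝ] Eu (Fin n) := e.toContinuousLinearEquiv
  have hme : MeasurableEmbedding e' := e'.toHomeomorph.measurableEmbedding
  have hh : (Measure.map e' (volume : Measure (E m))).IsAddHaarMeasure :=
    e'.isAddHaarMeasure_map volume
  obtain ⟨c, hc⟩ : ∃ c : NNReal, Measure.map e' (volume : Measure (E m)) =
      c • (volume : Measure (Eu (Fin n))) := ⟨_, Measure.isAddLeftInvariant_eq_smul _ _⟩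
  have hKe : e' ⁻¹' (e '' K) = K := preimage_image_eq K e.injective
  have hv : volume K = c * volume (e '' K) := by
    have h2 : (Measure.map e' (volume : Measure (E m))) (e '' K) = volume K := by
      rw [hme.map_apply, hKe]
    rw [← h2, hc]
    rfl
  have hc0 : (c : ℝ≥0∞) ≠ 0 := by
    intro h
    rw [h, zero_mul] at hv
    exact h0 hv
  have hr : Measure.map e' (volume.restrict K) = c • (volume.restrict (e '' K)) := by
    rw [← hKe, ← hme.restrict_map, hc, Measure.restrict_smul, hKe]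
  have hun : Pool.Agent.R754.KG.un (e '' K) =
      Measure.map e' ((volume K)⁻¹ • volume.restrict K) := by
    unfold Pool.Agent.R754.KG.un
    rw [Measure.map_smul, hr, hv]
    have h3 : (c • (volume.restrict (e '' K)) : Measure (Eu (Fin n))) =
        (c : ℝ≥0∞) • volume.restrict (e '' K) := rfl
    rw [h3, smul_smul, ENNReal.mul_inv (Or.inl hc0) (Or.inl ENNReal.coe_ne_top)]
    congr 1
    rw [mul_comm (c : ℝ≥0∞)⁻¹, mul_assoc, ENNReal.inv_mul_cancel hc0 ENNReal.coe_ne_top, mul_one]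
  rw [hun, hme.integral_map]
  rfl

/-- **concentration for unconditional sums of arbitrarily many symmetric bodies** -/
theorem cc_sum {A T δ : ℝ} (hA : 0 ≤ A) (hT0 : 0 ≤ T) (hδ : 0 < δ) : ∃ κ : ℝ, 0 < κ ∧
    ∀ (b n : ℕ) (m : Fin b → ℕ) (e : (∀ i, Eu (Fin (m i))) ≃ₗ[ℝ] Eu (Fin n))
      (D : Set (Eu (Fin b))) (K : ∀ i, Set (Eu (Fin (m i)))), (∀ i, 1 ≤ m i) → UBody D →
      (∀ i, Body (K i)) → (∀ i, ∀ x ∈ K i, -x ∈ K i) → (∀ i, PB volume A (gauge (K i))) →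
      ∑ i, Real.exp (-(T * m i)) ≤ 1 → CcW κ δ (ind (e '' dsum D K)) := by
  obtain ⟨r, hr⟩ : ∃ r : ℝ, r = |Real.log (δ / 4)| := ⟨_, rfl⟩
  have hr0 : 0 ≤ r := by rw [hr]; exact abs_nonneg _
  have hr1 : 2 * Real.exp (-r) ≤ δ / 2 := by
    have h1 : Real.exp (-r) ≤ δ / 4 := by
      calc Real.exp (-r) ≤ Real.exp (Real.log (δ / 4)) := by
            rw [Real.exp_le_exp, hr]
            linarith [neg_abs_le (Real.log (δ / 4))]
        _ = δ / 4 := Real.exp_log (by positivity)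
    linarith
  obtain ⟨M, hM⟩ : ∃ M : ℝ, M = A * (1080 * (1 + (T + r) / 3)) ^ 2 +
      (2 * (CC * (1 + T) ^ 2) + 2) := ⟨_, rfl⟩
  have hM0 : 0 < M := by
    rw [hM]
    have := CC_pos
    positivity
  refine ⟨Real.sqrt (δ / (2 * M)), Real.sqrt_pos.2 (by positivity),
    fun b n m e D K hm hD hK hsy hP hT k _ T1 s hs hcv v hv hv1 hvl => ?_⟩
  have hN : ∀ i, Gg (gauge (K i)) := fun i => gauge_gg (hK i) (hsy i)
  have hde := dsum_eq hD hK hsy
  have hvol : volume (SS D fun i => gauge (K i)) ≠ 0 := (SS_pos hD hN).ne'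
  have hprob := PS_prob hD hN
  have hmeas : MeasurableSet (e '' dsum D K) :=
    (Pool.Agent.R751.MB.dsb b n m e D K hD hK hsy).comp.measurableSet
  obtain ⟨L, hL⟩ : ∃ L : E m →L[ℝ] Eu (Fin k), L =
      (LinearMap.toContinuousLinearMap (T1 ∘ₗ e.toLinearMap)) := ⟨_, rfl⟩
  have hLx : ∀ x, T1 (e x) = L x := fun x => by rw [hL]; rfl
  have tr : ∀ f : Eu (Fin n) → ℝ, ∫ x, f x ∂(Pool.Agent.R754.KG.un (e '' dsum D K)) =
      ∫ z, f (e z) ∂(PS D fun i => gauge (K i)) := by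
    intro f
    rw [hde]
    exact un_img e hvol f
  rw [Pool.Agent.R751.MB.Prd.VW_ind hmeas, tr, tr]
  simp only [hLx]
  have hcov : ∀ φ : Eu (Fin k) →L[ℝ] ℝ,
      ∫ x, (φ (L x)) ^ 2 ∂(PS D fun i => gauge (K i)) ≤ s * ‖φ‖ ^ 2 := by
    intro φ
    by_cases h0 : φ = 0
    · rw [h0]
      simp
    · obtain ⟨θ, hθ⟩ : ∃ θ, θ = (InnerProductSpace.toDual ℝ (Eu (Fin k))).symm φ := ⟨_, rfl⟩
      have hn : ‖θ‖ = ‖φ‖ := by rw [hθ, LinearIsometryEquiv.norm_map]
      have hn0 : 0 < ‖θ‖ := by rw [hn]; exact norm_pos_iff.2 h0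
      have hφ : ∀ y, φ y = ⟪y, θ⟫_ℝ := by
        intro y
        rw [real_inner_comm, hθ, InnerProductSpace.toDual_symm_apply]
      have h1 := hcv (‖θ‖⁻¹ • θ) (by rw [norm_smul, norm_inv, norm_norm, inv_mul_cancel₀ hn0.ne'])
      rw [Pool.Agent.R751.MB.Prd.VW_ind hmeas, tr, tr] at h1
      simp only [hLx, inner_smul_right, ← hφ] at h1
      have h2 : ∫ z, ‖θ‖⁻¹ * φ (L z) ∂(PS D fun i => gauge (K i)) = 0 := by
        have h5 : ∫ z, φ (L z) ∂(PS D fun i => gauge (K i)) = 0 := mean0 hD hN (φ.comp L)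
        rw [integral_const_mul, h5, mul_zero]
      rw [h2] at h1
      simp only [mul_pow] at h1
      rw [integral_const_mul] at h1
      rw [← hn]
      have h3 : ‖θ‖ ^ 2 * (‖θ‖⁻¹ ^ 2 * ∫ z, φ (L z) ^ 2 ∂(PS D fun i => gauge (K i)) - 0 ^ 2) ≤
          ‖θ‖ ^ 2 * s := mul_le_mul_of_nonneg_left h1 (sq_nonneg _)
      have h4 : ‖θ‖ ^ 2 * (‖θ‖⁻¹ ^ 2 * ∫ z, φ (L z) ^ 2 ∂(PS D fun i => gauge (K i)) - 0 ^ 2) =
          ∫ z, φ (L z) ^ 2 ∂(PS D fun i => gauge (K i)) := by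
        field_simp
        ring
      rw [h4] at h3
      linarith
  have hκ0 : 0 < Real.sqrt (δ / (2 * M)) := Real.sqrt_pos.2 (by positivity)
  have key := conc hD hN hm hs hcov hv (C := Real.sqrt (δ / (2 * M)) / Real.sqrt s)
    (div_pos hκ0 (Real.sqrt_pos.2 hs)) hvl hv1 hA hP hT0 hT hr0
  rw [← hM] at key
  have e1 : s * (Real.sqrt (δ / (2 * M)) / Real.sqrt s) ^ 2 = δ / (2 * M) := by
    rw [div_pow, Real.sq_sqrt hs.le, Real.sq_sqrt (by positivity)]
    field_simp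
  rw [e1] at key
  have e2 : M * (δ / (2 * M)) = δ / 2 := by field_simp
  rw [e2] at key
  have hvc : Measurable fun x : E m => v (L x) := (hv.continuous.comp L.continuous).measurable
  rw [Pool.Agent.R751.MB.Prd.sqexp _
    (Pool.Agent.R751.MB.Prd.bint _ hvc (C := 1) fun x => hv1 _)
    (Pool.Agent.R751.MB.Prd.bint _ (hvc.pow_const 2) (C := 1) fun x => by
      rw [abs_pow]
      exact pow_le_one₀ (abs_nonneg _) (hv1 _))] at key
  linarith

end Pool.Agent.W5h44.DS
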