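import Mathlib

/-!
# Resampling and the inequality of Efron and Stein for products of different spaces

Adapted from `Pool.Agent.H5R2.NL.Poin`.
-/

set_option autoImplicit false
set_option linter.unusedSectionVars false

noncomputable section

namespace Pool.Agent.W5h44.DS

open MeasureTheory Metric Set
open scoped ENNReal

section ES

variable {ι : Type} [Fintype ι] [DecidableEq ι] {X : ι → Type} [∀ i, MeasurableSpace (X i)]

/-- resampling one coordinate preserves the product measure -/
theorem rs_mp (μ : ∀ i, Measure (X i)) [∀ i, IsProbabilityMeasure (μ i)] (i : ι) :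
    MeasurePreserving (fun q : (∀ i, X i) × X i => Function.update q.1 i q.2)
      ((Measure.pi μ).prod (μ i)) (Measure.pi μ) := by
  have hm : Measurable (fun q : (∀ i, X i) × X i => Function.update q.1 i q.2) :=
    measurable_update'
  refine ⟨hm, ?_⟩
  symm
  apply Measure.pi_eq
  intro s hs
  rw [Measure.map_apply hm (MeasurableSet.univ_pi hs)]
  have h1 : (fun q : (∀ i, X i) × X i => Function.update q.1 i q.2) ⁻¹' (Set.univ.pi s) =
      (Set.univ.pi (Function.update s i univ)) ×ˢ s i := by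
    ext ⟨x, t⟩
    simp only [mem_preimage, mem_univ_pi, mem_prod]
    constructor
    · intro h
      refine ⟨fun j => ?_, ?_⟩
      · by_cases hj : j = i
        · subst hj; simp
        · have := h j; simpa [hj] using this
      · simpa using h i
    · rintro ⟨h1, h2⟩ j
      by_cases hj : j = i
      · subst hj; simpa using h2
      · simpa [hj] using h1 j
  rw [h1, Measure.prod_prod, Measure.pi_pi]
  have e : (fun j => μ j (Function.update s i univ j)) =
      Function.update (fun j => μ j (s j)) i 1 := by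
    ext j
    by_cases hj : j = i
    · subst hj; simp
    · simp [hj]
  rw [e, Finset.prod_update_of_mem (Finset.mem_univ i), one_mul, mul_comm]
  exact (Finset.prod_eq_mul_prod_sdiff_singleton_of_mem (Finset.mem_univ i)
    fun j => μ j (s j)).symm

theorem rs_resample {F : Type*} [NormedAddCommGroup F] [NormedSpace ℝ F]
    (μ : ∀ i, Measure (X i)) [∀ i, IsProbabilityMeasure (μ i)] (i : ι) (f : (∀ i, X i) → F)
    (hf : StronglyMeasurable f) (B : ℝ) (hB : ∀ x, ‖f x‖ ≤ B) :
    ∫ x, f x ∂(Measure.pi μ) =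
      ∫ x, ∫ t, f (Function.update x i t) ∂(μ i) ∂(Measure.pi μ) := by
  have hmp := rs_mp μ i
  conv_lhs => rw [← hmp.map_eq]
  rw [integral_map hmp.measurable.aemeasurable hf.aestronglyMeasurable]
  rw [integral_prod]
  exact Integrable.of_bound (hf.comp_measurable hmp.measurable).aestronglyMeasurable B
    (Filter.Eventually.of_forall fun x => hB _)

theorem rs_resample_l (μ : ∀ i, Measure (X i)) [∀ i, IsProbabilityMeasure (μ i)] (i : ι) (f : (∀ i, X i) → ℝ≥0∞)
    (hf : Measurable f) :
    ∫⁻ x, f x ∂(Measure.pi μ) =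
      ∫⁻ x, ∫⁻ t, f (Function.update x i t) ∂(μ i) ∂(Measure.pi μ) := by
  have hmp := rs_mp μ i
  conv_lhs => rw [← hmp.map_eq]
  rw [lintegral_map hf hmp.measurable]
  exact lintegral_prod _ (hf.comp hmp.measurable).aemeasurable

/-- average over one coordinate -/
def rsE (μ : ∀ i, Measure (X i)) (i : ι) (u : (∀ i, X i) → ℝ) (x : ∀ i, X i) : ℝ :=
  ∫ t, u (Function.update x i t) ∂(μ i)

variable (μ : ∀ i, Measure (X i)) [∀ i, IsProbabilityMeasure (μ i)]

theorem rsE_meas (i : ι) {u : (∀ i, X i) → ℝ} (hu : Measurable u) : Measurable (rsE μ i u) := by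
  unfold rsE
  have h1 : StronglyMeasurable fun q : (∀ i, X i) × X i => u (Function.update q.1 i q.2) :=
    (hu.comp measurable_update').stronglyMeasurable
  exact h1.integral_prod_right'.measurable

omit [Fintype ι] in
theorem rsE_bdd (i : ι) {u : (∀ i, X i) → ℝ} {B : ℝ} (hB : ∀ x, ‖u x‖ ≤ B) (x : ∀ i, X i) :
    ‖rsE μ i u x‖ ≤ B := by
  unfold rsE
  refine (norm_integral_le_of_norm_le_const (C := B)
    (Filter.Eventually.of_forall fun t => hB _)).trans ?_
  simp

omit [Fintype ι] [∀ i, IsProbabilityMeasure (μ i)] in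
theorem rsE_update (i : ι) (u : (∀ i, X i) → ℝ) (x : ∀ i, X i) (t : X i) :
    rsE μ i u (Function.update x i t) = rsE μ i u x := by
  unfold rsE
  simp only [Function.update_idem]

/-- variance decomposition for one variable -/
theorem rs_vr {α : Type*} [MeasurableSpace α] (ν : Measure α) [IsProbabilityMeasure ν]
    (g : α → ℝ) (hg : Integrable g ν) (hg2 : Integrable (fun x => ‖g x‖ ^ 2) ν) :
    ∫ x, ‖g x - ∫ y, g y ∂ν‖ ^ 2 ∂ν = ∫ x, ‖g x‖ ^ 2 ∂ν - ‖∫ y, g y ∂ν‖ ^ 2 := by
  obtain ⟨m, hm⟩ : ∃ m, m = ∫ y, g y ∂ν := ⟨_, rfl⟩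
  rw [← hm]
  have h1 : ∀ x, ‖g x - m‖ ^ 2 = ‖g x‖ ^ 2 - 2 * inner ℝ m (g x) + ‖m‖ ^ 2 := by
    intro x
    rw [norm_sub_sq_real, real_inner_comm]
  have hi : Integrable (fun x => inner ℝ m (g x)) ν := hg.const_inner m
  have h2 : ∫ x, inner ℝ m (g x) ∂ν = ‖m‖ ^ 2 := by
    rw [integral_inner hg m, ← hm, real_inner_self_eq_norm_sq]
  simp_rw [h1]
  have h3 : ∫ x, (‖g x‖ ^ 2 - 2 * inner ℝ m (g x) + ‖m‖ ^ 2) ∂ν =
      ∫ x, (‖g x‖ ^ 2 - 2 * inner ℝ m (g x)) ∂ν + ∫ _, ‖m‖ ^ 2 ∂ν :=
    integral_add (hg2.sub (hi.const_mul 2)) (integrable_const _)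
  rw [h3, integral_sub hg2 (hi.const_mul 2), integral_const_mul, h2]
  simp
  ring

theorem rs_decomp (i : ι) {w : (∀ i, X i) → ℝ} (hw : Measurable w) {B : ℝ}
    (hB : ∀ x, ‖w x‖ ≤ B) :
    ∫ x, ‖w x‖ ^ 2 ∂(Measure.pi μ) =
      ∫ x, ‖w x - rsE μ i w x‖ ^ 2 ∂(Measure.pi μ) +
        ∫ x, ‖rsE μ i w x‖ ^ 2 ∂(Measure.pi μ) := by
  have hEm := rsE_meas μ i hw
  have hEb := rsE_bdd μ i hB
  rw [rs_resample μ i (fun x => ‖w x‖ ^ 2) (hw.norm.pow_const 2).stronglyMeasurable (B ^ 2)
      (fun x => by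
        rw [norm_pow, norm_norm]
        exact pow_le_pow_left₀ (norm_nonneg _) (hB x) 2),
    rs_resample μ i (fun x => ‖w x - rsE μ i w x‖ ^ 2)
      ((hw.sub hEm).norm.pow_const 2).stronglyMeasurable ((2 * B) ^ 2)
      (fun x => by
        rw [norm_pow, norm_norm]
        apply pow_le_pow_left₀ (norm_nonneg _)
        refine (norm_sub_le _ _).trans ?_
        linarith [hB x, hEb x])]
  have h1 : ∀ x : ∀ i, X i, ∫ t, ‖w (Function.update x i t)‖ ^ 2 ∂(μ i) =
      (∫ t, ‖w (Function.update x i t) - rsE μ i w (Function.update x i t)‖ ^ 2 ∂(μ i)) +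
        ‖rsE μ i w x‖ ^ 2 := by
    intro x
    simp only [rsE_update]
    have hgm : Measurable fun t => w (Function.update x i t) :=
      hw.comp (measurable_update x)
    have h2 := rs_vr (μ i) (fun t => w (Function.update x i t))
      (Integrable.of_bound hgm.aestronglyMeasurable B (Filter.Eventually.of_forall fun t => hB _))
      (Integrable.of_bound (hgm.norm.pow_const 2).aestronglyMeasurable (B ^ 2)
        (Filter.Eventually.of_forall fun t => by
          rw [norm_pow, norm_norm]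
          exact pow_le_pow_left₀ (norm_nonneg _) (hB _) 2))
    have h3 : rsE μ i w x = ∫ t, w (Function.update x i t) ∂(μ i) := rfl
    rw [h3, h2]
    ring
  simp_rw [h1]
  rw [integral_add]
  · have hmm : StronglyMeasurable fun q : (∀ i, X i) × X i =>
        ‖w (Function.update q.1 i q.2) - rsE μ i w (Function.update q.1 i q.2)‖ ^ 2 :=
      (((hw.sub hEm).comp measurable_update').norm.pow_const 2).stronglyMeasurable
    refine Integrable.of_bound hmm.integral_prod_right'.aestronglyMeasurable ((2 * B) ^ 2)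
      (Filter.Eventually.of_forall fun x => ?_)
    refine (norm_integral_le_of_norm_le_const (C := (2 * B) ^ 2)
      (Filter.Eventually.of_forall fun t => ?_)).trans (by simp)
    rw [norm_pow, norm_norm]
    apply pow_le_pow_left₀ (norm_nonneg _)
    refine (norm_sub_le _ _).trans ?_
    linarith [hB (Function.update x i t), hEb (Function.update x i t)]
  · refine Integrable.of_bound (hEm.norm.pow_const 2).aestronglyMeasurable (B ^ 2)
      (Filter.Eventually.of_forall fun x => ?_)
    rw [norm_pow, norm_norm]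
    exact pow_le_pow_left₀ (norm_nonneg _) (hEb x) 2

theorem rs_contr (i : ι) {w : (∀ i, X i) → ℝ} (hw : Measurable w) {B : ℝ}
    (hB : ∀ x, ‖w x‖ ≤ B) :
    ∫ x, ‖rsE μ i w x‖ ^ 2 ∂(Measure.pi μ) ≤
      ∫ x, ‖w x‖ ^ 2 ∂(Measure.pi μ) := by
  rw [rs_decomp μ i hw hB]
  have : 0 ≤ ∫ x, ‖w x - rsE μ i w x‖ ^ 2 ∂(Measure.pi μ) :=
    integral_nonneg fun x => by positivity
  linarith

/-- iterated averages -/
def rsP (μ : ∀ i, Measure (X i)) (u : (∀ i, X i) → ℝ) : List ι → (∀ i, X i) → ℝ
  | [] => u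
  | i :: L => rsE μ i (rsP μ u L)

theorem rsP_meas {u : (∀ i, X i) → ℝ} (hu : Measurable u) (L : List ι) :
    Measurable (rsP μ u L) := by
  induction L with
  | nil => exact hu
  | cons i L ih => exact rsE_meas μ i ih

omit [Fintype ι] in
theorem rsP_bdd {u : (∀ i, X i) → ℝ} {B : ℝ} (hB : ∀ x, ‖u x‖ ≤ B) (L : List ι) :
    ∀ x, ‖rsP μ u L x‖ ≤ B := by
  induction L with
  | nil => exact hB
  | cons i L ih => exact rsE_bdd μ i ih

omit [Fintype ι] [∀ i, IsProbabilityMeasure (μ i)] in
theorem rsP_inv (u : (∀ i, X i) → ℝ) (L : List ι) :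
    ∀ j ∈ L, ∀ (x : ∀ i, X i) (t : X j), rsP μ u L (Function.update x j t) = rsP μ u L x := by
  induction L with
  | nil => simp
  | cons i L ih =>
    intro j hj x t
    by_cases hji : j = i
    · subst hji
      exact rsE_update μ j _ x t
    · have hjL : j ∈ L := by
        rcases List.mem_cons.1 hj with h | h
        · exact absurd h hji
        · exact h
      change rsE μ i (rsP μ u L) (Function.update x j t) = rsE μ i (rsP μ u L) x
      unfold rsE
      congr 1
      ext τ
      rw [Function.update_comm hji]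
      exact ih j hjL _ t

theorem rsP_int {u : (∀ i, X i) → ℝ} (hu : Measurable u) {B : ℝ} (hB : ∀ x, ‖u x‖ ≤ B)
    (L : List ι) :
    ∫ x, rsP μ u L x ∂(Measure.pi μ) = ∫ x, u x ∂(Measure.pi μ) := by
  induction L with
  | nil => rfl
  | cons i L ih =>
    rw [← ih]
    rw [rs_resample μ i (rsP μ u L) (rsP_meas μ hu L).stronglyMeasurable B
      (rsP_bdd μ hB L)]
    rfl

theorem rs_const {f : (∀ i, X i) → ℝ}
    (hf : ∀ (j : ι) (x : ∀ i, X i) (t : X j), f (Function.update x j t) = f x) (x y : ∀ i, X i) :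
    f x = f y := by
  have h : ∀ s : Finset ι, f (s.piecewise y x) = f x := by
    intro s
    induction s using Finset.induction_on with
    | empty => simp
    | insert i s _ ih =>
      rw [Finset.piecewise_insert, hf, ih]
  have := h Finset.univ
  rw [Finset.piecewise_univ] at this
  exact this.symm

theorem rs_list {u : (∀ i, X i) → ℝ} (hu : Measurable u) {B : ℝ} (hB : ∀ x, ‖u x‖ ≤ B)
    (L : List ι) :
    ∫ x, ‖u x - rsP μ u L x‖ ^ 2 ∂(Measure.pi μ) ≤
      (L.map fun i => ∫ x, ‖u x - rsE μ i u x‖ ^ 2 ∂(Measure.pi μ)).sum := by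
  have hint : ∀ (i : ι) {v : (∀ i, X i) → ℝ}, Measurable v → (∀ x, ‖v x‖ ≤ B) → ∀ x : ∀ i, X i,
      Integrable (fun t => v (Function.update x i t)) (μ i) := fun i v hv hvB x =>
    Integrable.of_bound (hv.comp (measurable_update x)).aestronglyMeasurable B
      (Filter.Eventually.of_forall fun t => hvB _)
  induction L with
  | nil => simp [rsP]
  | cons i L ih =>
    rw [List.map_cons, List.sum_cons]
    have hPm := rsP_meas μ hu L
    have hPb := rsP_bdd μ hB L
    have hEm := rsE_meas μ i hPm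
    have hEb := rsE_bdd μ i hPb
    have hwm : Measurable fun x => u x - rsE μ i (rsP μ u L) x := hu.sub hEm
    have hwb : ∀ x, ‖u x - rsE μ i (rsP μ u L) x‖ ≤ 2 * B := fun x => by
      refine (norm_sub_le _ _).trans ?_
      linarith [hB x, hEb x]
    have h1 : ∀ x, rsE μ i (fun x => u x - rsE μ i (rsP μ u L) x) x =
        rsE μ i u x - rsE μ i (rsP μ u L) x := by
      intro x
      unfold rsE
      rw [integral_sub (hint i hu hB x)]
      · congr 1
        simp only [Function.update_idem]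
        simp
      · simp only [Function.update_idem]
        exact integrable_const _
    have h2 : ∀ x, rsE μ i (fun x => u x - rsP μ u L x) x =
        rsE μ i u x - rsE μ i (rsP μ u L) x := by
      intro x
      unfold rsE
      rw [integral_sub (hint i hu hB x) (hint i hPm hPb x)]
    change ∫ x, ‖u x - rsE μ i (rsP μ u L) x‖ ^ 2 ∂(Measure.pi μ) ≤ _
    rw [rs_decomp μ i hwm hwb]
    have h3 : ∀ x, (u x - rsE μ i (rsP μ u L) x) -
        rsE μ i (fun x => u x - rsE μ i (rsP μ u L) x) x = u x - rsE μ i u x := by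
      intro x; rw [h1]; ring
    simp_rw [h3, h1, ← h2]
    have h4 := rs_contr μ i (w := fun x => u x - rsP μ u L x) (hu.sub hPm) (B := 2 * B)
      (fun x => by
        refine (norm_sub_le _ _).trans ?_
        linarith [hB x, hPb x])
    linarith [ih]

end ES

theorem efron_stein {ι : Type} [Fintype ι] [DecidableEq ι] {X : ι → Type}
    [∀ i, MeasurableSpace (X i)] (μ : ∀ i, Measure (X i))
    [∀ i, IsProbabilityMeasure (μ i)] (u : (∀ i, X i) → ℝ) (hu : Measurable u)
    (hb : ∃ B, ∀ x, ‖u x‖ ≤ B) :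
    ∫ x, ‖u x - ∫ y, u y ∂(Measure.pi μ)‖ ^ 2 ∂(Measure.pi μ) ≤
      ∑ i, ∫ x, ‖u x - ∫ t, u (Function.update x i t) ∂(μ i)‖ ^ 2 ∂(Measure.pi μ) := by
  obtain ⟨B, hB⟩ := hb
  have h1 := rs_list μ hu hB (Finset.univ : Finset ι).toList
  have h2 : ∀ x, rsP μ u (Finset.univ : Finset ι).toList x =
      ∫ y, u y ∂(Measure.pi μ) := by
    intro x
    rw [← rsP_int μ hu hB (Finset.univ : Finset ι).toList]
    have h3 : ∀ y, rsP μ u (Finset.univ : Finset ι).toList y =
        rsP μ u (Finset.univ : Finset ι).toList x := fun y =>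
      rs_const (fun j z t => rsP_inv μ u _ j (by simp) z t) y x
    simp_rw [h3]
    simp
  simp_rw [h2] at h1
  refine h1.trans (le_of_eq ?_)
  rw [Finset.sum_map_toList]
  rfl


end Pool.Agent.W5h44.DS
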