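import Pool.Agent.Y506.PV.Stb
import Pool.Agent.Y506.PV.Fin
import Pool.Agent.Y211.PV.Iso

/-!
# From concentration to the functional inequality, for bodies, with an explicit constant
-/

set_option autoImplicit false

namespace Pool.Agent.W5h44.DS

open MeasureTheory Set Filter Topology
open scoped ENNReal InnerProductSpace
open Pool.Agent.W695.KH (Eu EU EV VV Sm Pot Uu)
open Pool.Agent.Y506.RG
open Pool.Agent.Y506.PV

variable {n : ℕ}

/-- from concentration to the functional inequality, with an explicit constant -/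
theorem stbx (n : ℕ) (κ : ℝ) (hκ : 0 < κ) (K : Set (Eu (Fin n))) (hK : IsCompact K)
    (hc : Convex ℝ K) (hint : (interior K).Nonempty) (hcc : CcW κ (1 / 25) (ind K)) :
    Star (2 / κ / Real.sqrt 1) (ind K) := by
  have hiso := Pool.Agent.Y211.PV.iso
  have hvol : 0 < volume K :=
    lt_of_lt_of_le (isOpen_interior.measure_pos volume hint) (measure_mono interior_subset)
  have hA := adm_ind K hK.measurableSet hK.isBounded hvol
  obtain ⟨A, hiA⟩ := hiso n (ind K) hA
  obtain ⟨K', hK'⟩ : ∃ K' : Set (Eu (Fin n)), K' = A '' K := ⟨_, rfl⟩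
  have hcp' : IsCompact K' := by rw [hK']; exact hK.image A.continuous
  have hcv' : Convex ℝ K' := by
    rw [hK']
    exact hc.linear_image A.toLinearEquiv.toLinearMap
  have hvol' : 0 < volume K' := by
    have h1 : (interior K').Nonempty := by
      obtain ⟨x, hx⟩ := hint
      have h2 : IsOpen (A '' interior K) := A.toHomeomorph.isOpenMap _ isOpen_interior
      have h3 : A '' interior K ⊆ K' := by rw [hK']; exact image_mono interior_subset
      exact ⟨A x, interior_maximal h3 h2 ⟨x, hx, rfl⟩⟩
    exact lt_of_lt_of_le (isOpen_interior.measure_pos volume h1) (measure_mono interior_subset)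
  have hA' := adm_ind K' hcp'.measurableSet hcp'.isBounded hvol'
  have hw : ∀ x, ind K x = 1 * ind K' (A (x - 0)) := by
    intro x
    rw [sub_zero, one_mul]
    unfold ind
    by_cases hx : x ∈ K
    · have : A x ∈ K' := by rw [hK']; exact ⟨x, hx, rfl⟩
      rw [indicator_of_mem hx, indicator_of_mem this]
    · have : A x ∉ K' := by
        rw [hK']
        rintro ⟨y, hy, hxy⟩
        exact hx (A.injective hxy ▸ hy)
      rw [indicator_of_notMem hx, indicator_of_notMem this]
  have hVW : ∀ v : Eu (Fin n) → ℝ, VW (ind K) (fun x => v (A x)) = VW (ind K') v := by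
    intro v
    unfold VW
    rw [EW_aff A 0 1 one_pos _ _ hw, EW_aff A 0 1 one_pos _ _ hw]
    simp only [add_zero, ContinuousLinearEquiv.apply_symm_apply]
  refine star_aff A 0 1 one_pos _ (ind K') hw hA' ?_
  refine star_of hA' 1 (2 / κ) one_pos (by positivity) ?_ ?_
  · intro θ hθ
    have h1 := hiA θ
    rw [hVW (fun z => ⟪z, θ⟫_ℝ), hθ] at h1
    have h2 : (fun z : Eu (Fin n) => ⟪θ, z⟫_ℝ) = fun z => ⟪z, θ⟫_ℝ := by
      funext z
      rw [real_inner_comm]
    rw [h2, h1]
    norm_num
  · intro g L' M' hg hb h5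
    have hl : Pool.Agent.Y506.FF.LCon K' κ (1 / 25) := by
      intro v hv hv1 hvl
      rw [VV_VW K' hcp'.measurableSet, ← hVW]
      refine hcc n le_rfl A.toLinearEquiv.toLinearMap 1 one_pos ?_ v hv hv1 ?_
      · intro θ hθ
        have h1 := hiA θ
        rw [hθ] at h1
        have h2 : VW (ind K) (fun x => ⟪A.toLinearEquiv.toLinearMap x, θ⟫_ℝ) =
          VW (ind K) (fun x => ⟪A x, θ⟫_ℝ) := rfl
        rw [h2, h1]
        norm_num
      · intro y
        rw [Real.sqrt_one, div_one]
        exact hvl y
    have key := Pool.Agent.Y665.FF.milb Pool.Agent.Y445.FF.mila' (Fin n) K' hcp' hcv' hvol'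
      (1 / 25) κ (by norm_num) hκ hl g L' M' hg hb (by
        rw [VV_VW K' hcp'.measurableSet]
        linarith)
    rw [VV_VW K' hcp'.measurableSet, EV_EW K' hcp'.measurableSet] at key
    exact key

end Pool.Agent.W5h44.DS
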