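import Pool.Agent.W5h44.DS.Nor
import Pool.Agent.W5h44.DS.Stbx

/-!
# `D`-sums of symmetric bodies: explicit dependence on the constants
-/

set_option autoImplicit false
set_option linter.unusedSectionVars false

namespace Pool.Agent.W5h44.DS

open MeasureTheory Set Filter Topology Module
open scoped ENNReal InnerProductSpace Pointwise
open Pool.Agent.R751.MB (Eu UBody Body dsum ind EW VW AP CcW Adm LCn AN Nrm)
open Pool.Agent.TH610.RB (CC CC_pos)
open Pool.Agent.Y506.RG (Star)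

theorem CcW.mono_d {n : ℕ} {κ δ δ' : ℝ} {w : Eu (Fin n) → ℝ} (h : δ ≤ δ') (H : CcW κ δ w) :
    CcW κ δ' w := fun k hk T s hs hT v hv hv1 hvl => (H k hk T s hs hT v hv hv1 hvl).trans h

/-- the inequality for images under linear maps with kernels of dimension `d` -/
def SI (d : ℕ) (c : ℝ) : Prop := ∀ (n : ℕ) (κ : ℝ)
    (K : Set (Eu (Fin (n + d)))) (A : Eu (Fin (n + d)) →ₗ[ℝ] Eu (Fin n)), 0 < κ → Body K →
    CcW κ (1 / c) (ind K) → Function.Surjective A →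
    Star (c / κ) (Pool.Agent.Y506.PV.ind (A '' K))

theorem SI.mono {d : ℕ} {c c' : ℝ} (hc : 0 < c) (hcc : c ≤ c') (h : SI d c) : SI d c' := by
  intro n κ K A hκ hK hcw hA
  refine Pool.Agent.Y506.RG.Star.mono (div_le_div_of_nonneg_right hcc hκ.le)
    (fun x => indicator_nonneg (fun _ _ => zero_le_one) x) (h n κ K A hκ hK ?_ hA)
  exact CcW.mono_d (one_div_le_one_div_of_le hc hcc) hcw

theorem SI_base (d : ℕ) : ∃ c : ℝ, 0 < c ∧ SI d c := by
  obtain ⟨δ0, c0, hδ0, hc0, H0⟩ := Pool.Agent.Y506.PV.cc_img Pool.Agent.Y941.PV.prj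
      Pool.Agent.Y506.PV.denR Pool.Agent.Y388.PV.cmp Pool.Agent.Y388.PV.fac d (1 / 25)
      (by norm_num)
  obtain ⟨c, hc⟩ : ∃ c, c = max (1 / δ0) (2 / c0) := ⟨_, rfl⟩
  have hcp : 0 < c := by rw [hc]; exact lt_max_of_lt_left (by positivity)
  refine ⟨c, hcp, fun n κ K A hκ hK hcc hA => ?_⟩
  have h1 : 1 / c ≤ δ0 := by
    rw [div_le_iff₀ hcp]
    have : 1 / δ0 ≤ c := by rw [hc]; exact le_max_left _ _
    rw [div_le_iff₀ hδ0] at this
    linarith
  have h2 : CcW κ δ0 (ind K) := CcW.mono_d h1 hcc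
  have hAc : Continuous A := A.continuous_of_finiteDimensional
  have h3 := stbx n (c0 * κ) (by positivity) (A '' K) (hK.comp.image hAc)
    (hK.conv.linear_image A) (Pool.Agent.Y506.PV.int_image hK.int A hA)
    (H0 n κ K A hκ hK.comp hK.conv hK.int hA h2)
  refine Pool.Agent.Y506.RG.Star.mono ?_ (fun x => indicator_nonneg (fun _ _ => zero_le_one) x) h3
  rw [Real.sqrt_one, div_one, ← div_div]
  refine div_le_div_of_nonneg_right ?_ hκ.le
  rw [hc]
  exact le_max_right _ _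

theorem SI_all (r : ℕ) : ∃ c : ℝ, 0 < c ∧ ∀ d, d ≤ r → SI d c := by
  induction r with
  | zero =>
    obtain ⟨c, hc, h⟩ := SI_base 0
    exact ⟨c, hc, fun d hd => by
      obtain rfl : d = 0 := by omega
      exact h⟩
  | succ r ih =>
    obtain ⟨c, hc, h⟩ := ih
    obtain ⟨c', hc', h'⟩ := SI_base (r + 1)
    refine ⟨max c c', lt_max_of_lt_left hc, fun d hd => ?_⟩
    rcases Nat.lt_or_ge d (r + 1) with h1 | h1
    · exact (h d (by omega)).mono hc (le_max_left _ _)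
    · obtain rfl : d = r + 1 := by omega
      exact h'.mono hc' (le_max_right _ _)

/-- images under linear maps with kernels of dimension at most `r` -/
theorem star_img (r : ℕ) : ∃ c : ℝ, 0 < c ∧ ∀ (n m : ℕ) (κ : ℝ)
    (K : Set (Eu (Fin m))) (A : Eu (Fin m) →ₗ[ℝ] Eu (Fin n)), m ≤ n + r → 0 < κ → Body K →
    CcW κ (1 / c) (ind K) → Function.Surjective A →
    IsCompact (A '' K) ∧ Convex ℝ (A '' K) ∧ (interior (A '' K)).Nonempty ∧
    Star (c / κ) (Pool.Agent.Y506.PV.ind (A '' K)) := by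
  obtain ⟨c, hc, H⟩ := SI_all r
  refine ⟨c, hc, fun n m κ K A hm hκ hK hcc hA => ?_⟩
  have hnm : n ≤ m := by
    have := LinearMap.finrank_le_finrank_of_surjective (f := A) hA
    simpa using this
  obtain ⟨d, rfl⟩ : ∃ d, m = n + d := ⟨m - n, by omega⟩
  have hAc : Continuous A := A.continuous_of_finiteDimensional
  exact ⟨hK.comp.image hAc, hK.conv.linear_image A, Pool.Agent.Y506.PV.int_image hK.int A hA,
    H d (by omega) n κ K A hκ hK hcc hA⟩

/-- **concentration for unconditional sums of arbitrarily many symmetric bodies**, with the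
dependence on the constants -/
theorem cc_expl {δ : ℝ} (hδ : 0 < δ) : ∃ a : ℝ, 0 < a ∧ ∀ (A T : ℝ), 1 ≤ A → 0 ≤ T →
    ∀ (b n : ℕ) (m : Fin b → ℕ) (e : (∀ i, Eu (Fin (m i))) ≃ₗ[ℝ] Eu (Fin n))
      (D : Set (Eu (Fin b))) (K : ∀ i, Set (Eu (Fin (m i)))), (∀ i, 1 ≤ m i) → UBody D →
      (∀ i, Body (K i)) → (∀ i, ∀ x ∈ K i, -x ∈ K i) → (∀ i, PB volume A (gauge (K i))) →
      ∑ i, Real.exp (-(T * m i)) ≤ 1 →
      CcW (a / (Real.sqrt A * (1 + T))) δ (ind (e '' dsum D K)) := by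
  obtain ⟨r, hr⟩ : ∃ r : ℝ, r = |Real.log (δ / 4)| := ⟨_, rfl⟩
  have hr0 : 0 ≤ r := by rw [hr]; exact abs_nonneg _
  have hr1 : 2 * Real.exp (-r) ≤ δ / 2 := by
    have h1 : Real.exp (-r) ≤ δ / 4 := by
      calc Real.exp (-r) ≤ Real.exp (Real.log (δ / 4)) := by
            rw [Real.exp_le_exp, hr]
            linarith [neg_abs_le (Real.log (δ / 4))]
        _ = δ / 4 := Real.exp_log (by positivity)
    linarith
  obtain ⟨M₀, hM₀⟩ : ∃ M₀ : ℝ, M₀ = (1080 * (1 + r)) ^ 2 + (2 * CC + 2) := ⟨_, rfl⟩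
  have hM₀p : 0 < M₀ := by
    rw [hM₀]
    have := CC_pos
    positivity
  refine ⟨Real.sqrt (δ / (2 * M₀)), Real.sqrt_pos.2 (by positivity),
    fun A T hA hT0 b n m e D K hm hD hK hsy hP hT k _ T1 s hs hcv v hv hv1 hvl => ?_⟩
  have hA0 : 0 < A := by linarith
  have hN : ∀ i, Gg (gauge (K i)) := fun i => gauge_gg (hK i) (hsy i)
  have hde := dsum_eq hD hK hsy
  have hvol : volume (SS D fun i => gauge (K i)) ≠ 0 := (SS_pos hD hN).ne'
  have hprob := PS_prob hD hN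
  have hmeas : MeasurableSet (e '' dsum D K) :=
    (Pool.Agent.R751.MB.dsb b n m e D K hD hK hsy).comp.measurableSet
  obtain ⟨L, hL⟩ : ∃ L : E m →L[ℝ] Eu (Fin k), L =
      (LinearMap.toContinuousLinearMap (T1 ∘ₗ e.toLinearMap)) := ⟨_, rfl⟩
  have hLx : ∀ x, T1 (e x) = L x := fun x => by rw [hL]; rfl
  have tr : ∀ f : Eu (Fin n) → ℝ, ∫ x, f x ∂(Pool.Agent.R754.KG.un (e '' dsum D K)) =
      ∫ z, f (e z) ∂(PS D fun i => gauge (K i)) := by
    intro f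
    rw [hde]
    exact un_img e hvol f
  rw [Pool.Agent.R751.MB.Prd.VW_ind hmeas, tr, tr]
  simp only [hLx]
  have hcov : ∀ φ : Eu (Fin k) →L[ℝ] ℝ,
      ∫ x, (φ (L x)) ^ 2 ∂(PS D fun i => gauge (K i)) ≤ s * ‖φ‖ ^ 2 := by
    intro φ
    by_cases h0 : φ = 0
    · rw [h0]
      simp
    · obtain ⟨θ, hθ⟩ : ∃ θ, θ = (InnerProductSpace.toDual ℝ (Eu (Fin k))).symm φ := ⟨_, rfl⟩
      have hn : ‖θ‖ = ‖φ‖ := by rw [hθ, LinearIsometryEquiv.norm_map]
      have hn0 : 0 < ‖θ‖ := by rw [hn]; exact norm_pos_iff.2 h0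
      have hφ : ∀ y, φ y = ⟪y, θ⟫_ℝ := by
        intro y
        rw [real_inner_comm, hθ, InnerProductSpace.toDual_symm_apply]
      have h1 := hcv (‖θ‖⁻¹ • θ) (by rw [norm_smul, norm_inv, norm_norm, inv_mul_cancel₀ hn0.ne'])
      rw [Pool.Agent.R751.MB.Prd.VW_ind hmeas, tr, tr] at h1
      simp only [hLx, inner_smul_right, ← hφ] at h1
      have h2 : ∫ z, ‖θ‖⁻¹ * φ (L z) ∂(PS D fun i => gauge (K i)) = 0 := by
        have h5 : ∫ z, φ (L z) ∂(PS D fun i => gauge (K i)) = 0 := mean0 hD hN (φ.comp L)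
        rw [integral_const_mul, h5, mul_zero]
      rw [h2] at h1
      simp only [mul_pow] at h1
      rw [integral_const_mul] at h1
      rw [← hn]
      have h3 : ‖θ‖ ^ 2 * (‖θ‖⁻¹ ^ 2 * ∫ z, φ (L z) ^ 2 ∂(PS D fun i => gauge (K i)) - 0 ^ 2) ≤
          ‖θ‖ ^ 2 * s := mul_le_mul_of_nonneg_left h1 (sq_nonneg _)
      have h4 : ‖θ‖ ^ 2 * (‖θ‖⁻¹ ^ 2 * ∫ z, φ (L z) ^ 2 ∂(PS D fun i => gauge (K i)) - 0 ^ 2) =
          ∫ z, φ (L z) ^ 2 ∂(PS D fun i => gauge (K i)) := by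
        field_simp
        ring
      rw [h4] at h3
      linarith
  obtain ⟨q, hq⟩ : ∃ q : ℝ, q = Real.sqrt (δ / (2 * M₀)) / (Real.sqrt A * (1 + T)) := ⟨_, rfl⟩
  have hq0 : 0 < q := by
    rw [hq]
    exact div_pos (Real.sqrt_pos.2 (by positivity))
      (mul_pos (Real.sqrt_pos.2 hA0) (by linarith))
  rw [← hq] at hvl
  have key := conc hD hN hm hs hcov hv (C := q / Real.sqrt s)
    (div_pos hq0 (Real.sqrt_pos.2 hs)) hvl hv1 hA0.le hP hT0 hT hr0
  have e1 : s * (q / Real.sqrt s) ^ 2 = q ^ 2 := by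
    rw [div_pow, Real.sq_sqrt hs.le]
    field_simp
  rw [e1] at key
  have e2 : q ^ 2 = δ / (2 * M₀) / (A * (1 + T) ^ 2) := by
    rw [hq, div_pow, mul_pow, Real.sq_sqrt hA0.le, Real.sq_sqrt (by positivity)]
  have e3 : A * (1080 * (1 + (T + r) / 3)) ^ 2 + (2 * (CC * (1 + T) ^ 2) + 2) ≤
      M₀ * (A * (1 + T) ^ 2) := by
    have hCC := CC_pos
    have g1 : 1 + (T + r) / 3 ≤ (1 + r) * (1 + T) := by nlinarith [mul_nonneg hr0 hT0]
    have g2 : (1080 * (1 + (T + r) / 3)) ^ 2 ≤ (1080 * (1 + r)) ^ 2 * (1 + T) ^ 2 := by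
      rw [← mul_pow]
      refine pow_le_pow_left₀ (by positivity) ?_ 2
      linarith
    have g3 : (1 : ℝ) ≤ (1 + T) ^ 2 := by nlinarith
    have g4 : A * (1080 * (1 + (T + r) / 3)) ^ 2 ≤ A * ((1080 * (1 + r)) ^ 2 * (1 + T) ^ 2) :=
      mul_le_mul_of_nonneg_left g2 hA0.le
    have g5 : (2 * CC + 2) * (1 + T) ^ 2 ≤ (2 * CC + 2) * (A * (1 + T) ^ 2) := by
      refine mul_le_mul_of_nonneg_left ?_ (by positivity)
      exact le_mul_of_one_le_left (by positivity) hA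
    have g6 : 2 * (CC * (1 + T) ^ 2) + 2 ≤ (2 * CC + 2) * (1 + T) ^ 2 := by nlinarith
    calc _ ≤ A * ((1080 * (1 + r)) ^ 2 * (1 + T) ^ 2) + (2 * CC + 2) * (A * (1 + T) ^ 2) :=
          add_le_add g4 (g6.trans g5)
      _ = _ := by rw [hM₀]; ring
  have e4 : (A * (1080 * (1 + (T + r) / 3)) ^ 2 + (2 * (CC * (1 + T) ^ 2) + 2)) * q ^ 2 ≤
      δ / 2 := by
    calc _ ≤ M₀ * (A * (1 + T) ^ 2) * q ^ 2 := mul_le_mul_of_nonneg_right e3 (sq_nonneg _)
      _ = δ / 2 := by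
          rw [e2]
          have : (1 + T) ≠ 0 := by positivity
          field_simp
  have hvc : Measurable fun x : E m => v (L x) := (hv.continuous.comp L.continuous).measurable
  rw [Pool.Agent.R751.MB.Prd.sqexp _
    (Pool.Agent.R751.MB.Prd.bint _ hvc (C := 1) fun x => hv1 _)
    (Pool.Agent.R751.MB.Prd.bint _ (hvc.pow_const 2) (C := 1) fun x => by
      rw [abs_pow]
      exact pow_le_one₀ (abs_nonneg _) (hv1 _))] at key
  linarith

/-- **the functional inequality**, with the dependence on the constants -/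
theorem star_many (q : ℕ) : ∃ c : ℝ, 0 < c ∧ ∀ (c0 T : ℝ), 1 ≤ c0 → 0 ≤ T →
    ∀ (b n N : ℕ) (m : Fin b → ℕ) (e : (∀ i, Eu (Fin (m i))) ≃ₗ[ℝ] Eu (Fin N))
      (D : Set (Eu (Fin b))) (K : ∀ i, Set (Eu (Fin (m i)))) (A : Eu (Fin N) →ₗ[ℝ] Eu (Fin n)),
      N ≤ n + q → Function.Surjective A → (∀ i, 1 ≤ m i) → UBody D →
      (∀ i, ∀ x ∈ K i, -x ∈ K i) → (∀ i, Bk c0 (K i)) → ∑ i, Real.exp (-(T * m i)) ≤ 1 →
      IsCompact (A '' (e '' dsum D K)) ∧ Convex ℝ (A '' (e '' dsum D K)) ∧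
      (interior (A '' (e '' dsum D K))).Nonempty ∧
      Star (c * (Real.sqrt c0 * (1 + T))) (Pool.Agent.Y506.PV.ind (A '' (e '' dsum D K))) := by
  obtain ⟨c, hc, H⟩ := star_img q
  obtain ⟨a, ha, H1⟩ := cc_expl (δ := 1 / c) (by positivity)
  obtain ⟨A1, hA1, H2⟩ := an_ap
  obtain ⟨B, hB⟩ : ∃ B, B = max A1 1 := ⟨_, rfl⟩
  have hB1 : 1 ≤ B := by rw [hB]; exact le_max_right _ _
  refine ⟨c * Real.sqrt B / a, by positivity, fun c0 T hc0 hT0 b n N m e D K A hN hA hm hD hs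
    hK hT => ?_⟩
  have hPB : ∀ i, Body (K i) ∧ PB volume (B * c0) (gauge (K i)) := by
    intro i
    rcases hK i with h | ⟨ν, hν, hνK⟩
    · exact ⟨⟨h.comp, h.conv, h.int⟩, PB.mono (by nlinarith) (pb_of_pi (by linarith) (hs i) h)⟩
    · obtain ⟨h1, h2, h3⟩ := H2 _ ν hν
      rw [← hνK] at h1 h2 h3
      refine ⟨h1, PB.mono ?_ (pb_of_ap hA1.le h1 h2 h3)⟩
      have : A1 ≤ B := by rw [hB]; exact le_max_left _ _
      nlinarith
  have hBc : 1 ≤ B * c0 := by nlinarith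
  have hcc := H1 (B * c0) T hBc hT0 b N m e D K hm hD (fun i => (hPB i).1) hs
    (fun i => (hPB i).2) hT
  have hκ : 0 < a / (Real.sqrt (B * c0) * (1 + T)) :=
    div_pos ha (mul_pos (Real.sqrt_pos.2 (by positivity)) (by linarith))
  obtain ⟨g1, g2, g3, g4⟩ := H n N _ (e '' dsum D K) A hN hκ
    (Pool.Agent.R751.MB.dsb b N m e D K hD (fun i => (hPB i).1) hs) hcc hA
  refine ⟨g1, g2, g3, ?_⟩
  have e1 : c / (a / (Real.sqrt (B * c0) * (1 + T))) =
      c * Real.sqrt B / a * (Real.sqrt c0 * (1 + T)) := by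
    rw [Real.sqrt_mul (by positivity)]
    field_simp
  rw [← e1]
  exact g4

end Pool.Agent.W5h44.DS
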