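import Pool.Agent.W5h44.DS.Main
import Pool.Agent.R751.MB.Dsb
import Pool.Agent.R751.MB.Prd
import Pool.Agent.R755.KF.Iso

/-!
# `D`-sums of symmetric bodies: gauges, Poincare inequality for the blocks
-/

set_option autoImplicit false
set_option linter.unusedSectionVars false

namespace Pool.Agent.W5h44.DS

open MeasureTheory Set Filter Topology Module
open scoped ENNReal InnerProductSpace Pointwise
open Pool.Agent.R751.MB (Eu UBody Body dsum ind EW VW AP CcW Adm)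

/-! ### gauges -/

theorem nhds0 {k : ℕ} {K : Set (Eu (Fin k))} (hK : Body K) (hs : ∀ x ∈ K, -x ∈ K) : K ∈ 𝓝 0 := by
  obtain ⟨x, hx⟩ := hK.int
  have h1 : -x ∈ interior K := by
    have hop : IsOpen ((fun y => -y) ⁻¹' interior K) := isOpen_interior.preimage continuous_neg
    have hsub : (fun y => -y) ⁻¹' interior K ⊆ K := by
      intro y hy
      have := hs _ (interior_subset hy)
      rwa [neg_neg] at this
    exact interior_maximal hsub hop (by simpa using hx)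
  have h2 := hK.conv.interior hx h1 (by norm_num : (0 : ℝ) ≤ 1 / 2)
      (by norm_num : (0 : ℝ) ≤ 1 / 2) (by norm_num)
  rw [smul_neg, add_neg_cancel] at h2
  exact mem_interior_iff_mem_nhds.1 h2

theorem gauge_gg {k : ℕ} {K : Set (Eu (Fin k))} (hK : Body K) (hs : ∀ x ∈ K, -x ∈ K) :
    Gg (gauge K) := by
  have h0 := nhds0 hK hs
  refine ⟨continuous_gauge hK.conv h0, fun x hx => ?_, fun t x => ?_⟩
  · exact (gauge_pos (absorbent_nhds_zero h0)
      (NormedSpace.isVonNBounded_iff ℝ |>.2 hK.comp.isBounded)).2 hx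
  · rcases le_or_gt 0 t with ht | ht
    · rw [gauge_smul_of_nonneg ht, abs_of_nonneg ht, smul_eq_mul]
    · have h1 : t • x = (-t) • (-x) := by simp
      rw [h1, gauge_smul_of_nonneg (by linarith), gauge_neg hs, abs_of_neg ht, smul_eq_mul]

theorem gauge_ball {k : ℕ} {K : Set (Eu (Fin k))} (hK : Body K) (hs : ∀ x ∈ K, -x ∈ K) :
    {x | gauge K x ≤ 1} = K := by
  ext x
  show gauge K x ≤ 1 ↔ x ∈ K
  rw [gauge_le_one_iff_mem_closure hK.conv (nhds0 hK hs), hK.comp.isClosed.closure_eq]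

theorem un_gauge {k : ℕ} {K : Set (Eu (Fin k))} (hK : Body K) (hs : ∀ x ∈ K, -x ∈ K) :
    un volume (gauge K) = Pool.Agent.R754.KG.un K := by
  unfold un Pool.Agent.R754.KG.un
  rw [gauge_ball hK hs]

theorem dsum_eq {b : ℕ} {m : Fin b → ℕ} {D : Set (Eu (Fin b))} (hD : UBody D)
    {K : ∀ i, Set (Eu (Fin (m i)))} (hK : ∀ i, Body (K i)) (hs : ∀ i, ∀ x ∈ K i, -x ∈ K i) :
    dsum D K = SS D fun i => gauge (K i) := by
  ext x
  constructor
  · rintro ⟨t, ht, hx⟩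
    refine hD.unc t ht _ fun i => ?_
    obtain ⟨y, hy, e⟩ := hx i
    have hg := gauge_gg (hK i) (hs i)
    simp only
    rw [abs_of_nonneg (hg.nonneg _), ← e]
    simp only
    rw [hg.smul]
    have h1 : gauge (K i) y ≤ 1 := by
      have := gauge_ball (hK i) (hs i)
      rw [← this] at hy
      exact hy
    exact mul_le_of_le_one_right (abs_nonneg _) h1
  · intro hx
    refine ⟨_, hx, fun i => ?_⟩
    have hg := gauge_gg (hK i) (hs i)
    by_cases h0 : x i = 0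
    · have h1 : (WithLp.toLp 2 (fun i => gauge (K i) (x i)) : Eu (Fin b)) i = 0 := by
        simp only [h0]
        exact hg.zero
      rw [h1, h0]
      exact ⟨0, mem_of_mem_nhds (nhds0 (hK i) (hs i)), by simp⟩
    · have hp := hg.pos _ h0
      refine ⟨(gauge (K i) (x i))⁻¹ • x i, ?_, ?_⟩
      · have h2 : gauge (K i) ((gauge (K i) (x i))⁻¹ • x i) ≤ 1 := by
          rw [hg.smul, abs_of_pos (inv_pos.2 hp), inv_mul_cancel₀ hp.ne']
        exact (Set.ext_iff.1 (gauge_ball (hK i) (hs i)) _).1 h2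
      · show gauge (K i) (x i) • ((gauge (K i) (x i))⁻¹ • x i) = x i
        rw [smul_smul, mul_inv_cancel₀ hp.ne', one_smul]

/-! ### the Poincare inequality -/

theorem un_bint {k : ℕ} {K : Set (Eu (Fin k))} (hK : Body K) {f : Eu (Fin k) → ℝ}
    (hf : Continuous f) : Integrable f (Pool.Agent.R754.KG.un K) :=
  Pool.Agent.R754.KG.un_int (Pool.Agent.R755.KF.vol_ne hK.int) hK.comp.isBounded hf

/-- the main step: a linear map `S` which makes the covariance the identity -/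
theorem pb_core {k : ℕ} {K : Set (Eu (Fin k))} (hK : Body K) (hs : ∀ x ∈ K, -x ∈ K) {A : ℝ}
    (hA : 0 ≤ A) (S : Eu (Fin k) ≃L[ℝ] Eu (Fin k))
    (hS : ∀ θ, (∫ x, ⟪S x, θ⟫_ℝ ^ 2 ∂(Pool.Agent.R754.KG.un K)) -
      (∫ x, ⟪S x, θ⟫_ℝ ∂(Pool.Agent.R754.KG.un K)) ^ 2 = ‖θ‖ ^ 2)
    (hP : ∀ f : Eu (Fin k) → ℝ, ContDiff ℝ 1 f → (∃ B : ℝ, ∀ x, |f x| ≤ B) →
      (∃ L : ℝ, ∀ x, ‖fderiv ℝ f x‖ ≤ L) →
      (∫ x, f (S x) ^ 2 ∂(Pool.Agent.R754.KG.un K)) -
        (∫ x, f (S x) ∂(Pool.Agent.R754.KG.un K)) ^ 2 ≤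
      A * ∫ x, ‖fderiv ℝ f (S x)‖ ^ 2 ∂(Pool.Agent.R754.KG.un K)) :
    PB volume A (gauge K) := by
  intro g hg ⟨B, hB⟩ ⟨L, hL⟩
  rw [un_gauge hK hs]
  have hprob : IsProbabilityMeasure (Pool.Agent.R754.KG.un K) :=
    Pool.Agent.R754.KG.un_prob (Pool.Agent.R755.KF.vol_ne hK.int) hK.comp.measure_lt_top.ne
  have hSc : Continuous S := S.continuous
  have hfd : ∀ y, fderiv ℝ (fun y => g (S.symm y)) y =
      (fderiv ℝ g (S.symm y)).comp (S.symm : Eu (Fin k) →L[ℝ] Eu (Fin k)) := by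
    intro y
    exact ((hg.differentiable (by norm_num) (S.symm y)).hasFDerivAt.comp y
      (S.symm : Eu (Fin k) →L[ℝ] Eu (Fin k)).hasFDerivAt).fderiv
  have key := hP (fun y => g (S.symm y)) (hg.comp S.symm.contDiff) ⟨B, fun x => hB _⟩
    ⟨L * ‖(S.symm : Eu (Fin k) →L[ℝ] Eu (Fin k))‖, fun x => by
      rw [hfd]
      exact (ContinuousLinearMap.opNorm_comp_le _ _).trans
        (mul_le_mul_of_nonneg_right (hL _) (norm_nonneg _))⟩
  simp only [ContinuousLinearEquiv.symm_apply_apply] at key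
  have e1 : ∫ x, (g x - ∫ y, g y ∂(Pool.Agent.R754.KG.un K)) ^ 2 ∂(Pool.Agent.R754.KG.un K) =
      (∫ x, g x ^ 2 ∂(Pool.Agent.R754.KG.un K)) - (∫ x, g x ∂(Pool.Agent.R754.KG.un K)) ^ 2 := by
    rw [Pool.Agent.R751.MB.Prd.sqexp _ (un_bint hK hg.continuous) (un_bint hK (by
      have := hg.continuous
      fun_prop))]
    ring
  rw [e1]
  refine key.trans (mul_le_mul_of_nonneg_left ?_ hA)
  have hc1 : Continuous (fderiv ℝ g) := hg.continuous_fderiv (by norm_num)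
  have hle : ∀ x, ‖fderiv ℝ (fun y => g (S.symm y)) (S x)‖ ^ 2 ≤
      ∫ y, (fderiv ℝ g x y) ^ 2 ∂(Pool.Agent.R754.KG.un K) := by
    intro x
    rw [hfd, ContinuousLinearEquiv.symm_apply_apply]
    obtain ⟨ℓ, hℓ⟩ : ∃ ℓ : Eu (Fin k) →L[ℝ] ℝ, ℓ = (fderiv ℝ g x).comp
      (S.symm : Eu (Fin k) →L[ℝ] Eu (Fin k)) := ⟨_, rfl⟩
    rw [← hℓ]
    obtain ⟨θ, hθ⟩ : ∃ θ, θ = (InnerProductSpace.toDual ℝ (Eu (Fin k))).symm ℓ := ⟨_, rfl⟩
    have hn : ‖ℓ‖ = ‖θ‖ := by rw [hθ, LinearIsometryEquiv.norm_map]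
    have hv : ∀ y, ⟪S y, θ⟫_ℝ = fderiv ℝ g x y := by
      intro y
      rw [real_inner_comm, hθ, InnerProductSpace.toDual_symm_apply, hℓ]
      simp
    rw [hn, ← hS θ]
    simp only [hv]
    linarith [sq_nonneg (∫ x_1, fderiv ℝ g x x_1 ∂(Pool.Agent.R754.KG.un K))]
  have hcR : Continuous fun x => ∫ y, (fderiv ℝ g x y) ^ 2 ∂(Pool.Agent.R754.KG.un K) := by
    obtain ⟨R, hR⟩ := hK.comp.isBounded.exists_norm_le
    have hRae : ∀ᵐ y ∂(Pool.Agent.R754.KG.un K), ‖y‖ ≤ R := by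
      unfold Pool.Agent.R754.KG.un
      refine Measure.ae_smul_measure ?_ _
      filter_upwards [ae_restrict_mem hK.comp.measurableSet] with y hy
      exact hR y hy
    refine continuous_of_dominated (F := fun x y => (fderiv ℝ g x y) ^ 2) (bound := fun _ =>
      (L * R) ^ 2) (fun x => ?_) (fun x => ?_) (integrable_const _)
      (Eventually.of_forall fun y => ?_)
    · exact (((fderiv ℝ g x).continuous).pow 2).aestronglyMeasurable
    · filter_upwards [hRae] with y hy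
      rw [Real.norm_eq_abs, abs_pow, ← Real.norm_eq_abs]
      refine pow_le_pow_left₀ (norm_nonneg _) ?_ 2
      refine ((fderiv ℝ g x).le_opNorm y).trans ?_
      exact mul_le_mul (hL x) hy (norm_nonneg _) ((norm_nonneg _).trans (hL x))
    · exact (hc1.clm_apply continuous_const).pow 2
  refine integral_mono (un_bint hK ?_) (un_bint hK hcR) hle
  have hc2 : Continuous fun y => fderiv ℝ (fun y => g (S.symm y)) y :=
    (hg.comp S.symm.contDiff).continuous_fderiv (by norm_num)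
  exact (hc2.comp hSc).norm.pow 2

theorem pb_of_pi {k : ℕ} {K : Set (Eu (Fin k))} {A : ℝ} (hA : 0 ≤ A)
    (hs : ∀ x ∈ K, -x ∈ K) (h : Pool.Agent.R755.KF.PI A K) : PB volume A (gauge K) := by
  obtain ⟨S, h1, h2⟩ := h.poi
  exact pb_core ⟨h.comp, h.conv, h.int⟩ hs hA S.toContinuousLinearEquiv h1
    fun f hf _ _ => h2 f hf

theorem pb_of_ap {k : ℕ} {K : Set (Eu (Fin k))} {A : ℝ} (hA : 0 ≤ A) (hK : Body K)
    (hs : ∀ x ∈ K, -x ∈ K) (h : AP A (ind K)) : PB volume A (gauge K) := by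
  obtain ⟨S, h1, h2⟩ := h.poi
  refine pb_core hK hs hA S (fun θ => ?_) fun f hf h3 h4 => ?_
  · rw [← Pool.Agent.R751.MB.Prd.VW_ind hK.comp.measurableSet]
    exact h1 θ
  · have h5 := h2 f hf h3 h4
    rw [Pool.Agent.R751.MB.Prd.VW_ind hK.comp.measurableSet,
      Pool.Agent.R751.MB.Prd.EW_ind hK.comp.measurableSet] at h5
    exact h5

theorem PB.mono {k : ℕ} {N : Eu (Fin k) → ℝ} {A A' : ℝ} (h : A ≤ A') (H : PB volume A N) :
    PB volume A' N := fun f hf h1 h2 => (H f hf h1 h2).trans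
  (mul_le_mul_of_nonneg_right h (integral_nonneg fun _ => integral_nonneg fun _ => sq_nonneg _))

end Pool.Agent.W5h44.DS
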