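import Mathlib

/-!
# Smoothing of Lipschitz functions
-/

set_option autoImplicit false
set_option linter.unusedSectionVars false

namespace Pool.Agent.W5h44.DS

open MeasureTheory Set Filter Topology Module
open scoped ENNReal Convolution

variable {V : Type} [NormedAddCommGroup V] [InnerProductSpace ℝ V] [FiniteDimensional ℝ V]
  [MeasurableSpace V] [BorelSpace V]

theorem moll {F : V → ℝ} {κ : ℝ} (hκ : 0 ≤ κ) (hF : ∀ x y, |F x - F y| ≤ κ * ‖x - y‖) {ε : ℝ}
    (hε : 0 < ε) : ∃ f : V → ℝ, ContDiff ℝ 1 f ∧ (∀ x, ‖fderiv ℝ f x‖ ≤ κ) ∧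
      ∀ x, |f x - F x| ≤ κ * ε := by
  have hL : LipschitzWith (Real.toNNReal κ) F := by
    refine LipschitzWith.of_dist_le_mul fun x y => ?_
    rw [Real.dist_eq, dist_eq_norm, Real.coe_toNNReal _ hκ]
    exact hF x y
  obtain ⟨φ, hφ⟩ : ∃ φ : ContDiffBump (0 : V), φ.rOut = ε :=
    ⟨⟨ε / 2, ε, by positivity, by linarith⟩, rfl⟩
  obtain ⟨f, hf⟩ : ∃ f : V → ℝ, f = (φ.normed volume ⋆[ContinuousLinearMap.lsmul ℝ ℝ, volume] F) :=
    ⟨_, rfl⟩
  have hloc : LocallyIntegrable F (volume : Measure V) := hL.continuous.locallyIntegrable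
  have hex : ∀ x, Integrable (fun t => φ.normed volume t * F (x - t)) (volume : Measure V) := by
    intro x
    exact (φ.hasCompactSupport_normed (μ := volume)).convolutionExists_left
      (ContinuousLinearMap.lsmul ℝ ℝ) φ.continuous_normed hloc x
  have hfe : ∀ x, f x = ∫ t, φ.normed volume t * F (x - t) := by
    intro x
    rw [hf]
    rfl
  have hlip : ∀ x y, |f x - f y| ≤ κ * ‖x - y‖ := by
    intro x y
    rw [hfe, hfe, ← integral_sub (hex x) (hex y), ← Real.norm_eq_abs]
    have h1 : Integrable (fun t => φ.normed volume t * (κ * ‖x - y‖)) (volume : Measure V) :=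
      φ.integrable_normed.mul_const _
    refine (norm_integral_le_of_norm_le h1 (Eventually.of_forall fun t => ?_)).trans ?_
    · rw [← mul_sub, norm_mul, Real.norm_eq_abs, abs_of_nonneg (φ.nonneg_normed t),
        Real.norm_eq_abs]
      refine mul_le_mul_of_nonneg_left ?_ (φ.nonneg_normed t)
      have h2 := hF (x - t) (y - t)
      have h3 : x - t - (y - t) = x - y := by abel
      rwa [h3] at h2
    · rw [integral_mul_const, φ.integral_normed, one_mul]
  refine ⟨f, ?_, fun x => ?_, fun x => ?_⟩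
  · rw [hf]
    exact (φ.hasCompactSupport_normed (μ := volume)).contDiff_convolution_left _
      φ.contDiff_normed hloc
  · refine norm_fderiv_le_of_lip' ℝ hκ (Eventually.of_forall fun y => ?_)
    rw [Real.norm_eq_abs]
    exact hlip _ _
  · rw [← Real.dist_eq, hf]
    refine ContDiffBump.dist_normed_convolution_le hL.continuous.aestronglyMeasurable
      fun y hy => ?_
    rw [Real.dist_eq]
    refine (hF y x).trans (mul_le_mul_of_nonneg_left ?_ hκ)
    rw [hφ, Metric.mem_ball, dist_eq_norm] at hy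
    exact hy.le

end Pool.Agent.W5h44.DS
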