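import Pool.Agent.W5h44.DS.Rad
import Pool.Agent.W5h44.DS.Moll

/-!
# The radial law: isotropy, concentration and tails
-/

set_option autoImplicit false
set_option linter.unusedSectionVars false

namespace Pool.Agent.W5h44.DS

open MeasureTheory Set Filter Topology Module
open scoped ENNReal InnerProductSpace
open Pool.Agent.R751.MB (Eu UBody Body)
open Pool.Agent.TH610.RB (P G RD Sw NN nS nb blk SC rf rf_apply CC CC_pos)
open Pool.Agent.H212R2.KLS (mu Bdd)
open Pool.Agent.TH594.KP (GD)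

variable {b : ℕ} {m : Fin b → ℕ}

section

variable {D : Set (Eu (Fin b))} (hD : UBody D) {N : ∀ i, Eu (Fin (m i)) → ℝ}
  (hN : ∀ i, Gg (N i)) (hm : ∀ i, 1 ≤ m i)

include hD hN hm

theorem mu_int {f : VV m → ℝ} (hf : Continuous f) : Integrable f (mu (rho D N)) := by
  have hcomp : IsCompact (Th ⁻¹' (SS D (NZ D N)) : Set (VV m)) := by
    have h1 : (Th ⁻¹' (SS D (NZ D N)) : Set (VV m)) = Ti '' (SS D (NZ D N)) := by
      ext x
      constructor
      · intro hx
        exact ⟨Th x, hx, Ti_Th x⟩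
      · rintro ⟨y, hy, rfl⟩
        exact hy
    rw [h1]
    exact (SS_compact hD (NZ_gg hD hN hm)).image Ti_cont
  rw [mu_eq hD hN hm]
  exact (hf.continuousOn.integrableOn_compact hcomp).smul_measure
    (ENNReal.inv_ne_top.2 (SS_pos hD (NZ_gg hD hN hm)).ne')

theorem int_map {g : VV m ≃ₗᵢ[ℝ] VV m}
    (hg : g ∈ G (Sigma.fst : Ix m → Fin b) (id : Fin b → Fin b)) {f : VV m → ℝ}
    (hf : Continuous f) : ∫ x, f (g x) ∂(mu (rho D N)) = ∫ x, f x ∂(mu (rho D N)) := by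
  have h1 := Pool.Agent.TH610.RB.gd_map (rho_RD hD hN hm).gd g hg
  conv_rhs => rw [← h1]
  rw [integral_map g.continuous.measurable.aemeasurable hf.aestronglyMeasurable]

theorem off {p q : Ix m} (hpq : p ≠ q) : ∫ x : VV m, x p * x q ∂(mu (rho D N)) = 0 := by
  have h1 := int_map hD hN hm (g := rf p) (Pool.Agent.TH610.RB.rf_mem p)
    (f := fun x => x p * x q) (by fun_prop)
  have h2 : ∀ x : VV m, rf p x p * rf p x q = -(x p * x q) := by
    intro x
    rw [rf_apply, rf_apply, if_pos rfl, if_neg (Ne.symm hpq)]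
    ring
  simp_rw [h2] at h1
  rw [integral_neg] at h1
  linarith

theorem diag {i : Fin b} (j j' : Fin (m i)) :
    ∫ x : VV m, x ⟨i, j⟩ ^ 2 ∂(mu (rho D N)) = ∫ x : VV m, x ⟨i, j'⟩ ^ 2 ∂(mu (rho D N)) := by
  obtain ⟨g, hg⟩ : ∃ g : VV m ≃ₗᵢ[ℝ] VV m, g = LinearIsometryEquiv.piLpCongrLeft 2 ℝ ℝ
    (Equiv.swap (⟨i, j⟩ : Ix m) ⟨i, j'⟩) := ⟨_, rfl⟩
  have hga : ∀ (x : VV m) (q : Ix m), g x q = x (Equiv.swap (⟨i, j⟩ : Ix m) ⟨i, j'⟩ q) := by
    intro x q
    rw [hg, LinearIsometryEquiv.piLpCongrLeft_apply]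
    rfl
  have hfst : ∀ q : Ix m, (Equiv.swap (⟨i, j⟩ : Ix m) ⟨i, j'⟩ q).1 = q.1 := by
    intro q
    rw [Equiv.swap_apply_def]
    split_ifs with h1 h2
    · rw [h1]
    · rw [h2]
    · rfl
  have hgG : g ∈ G (Sigma.fst : Ix m → Fin b) (id : Fin b → Fin b) := by
    refine ⟨i, i, rfl, fun c x => ?_⟩
    rw [Equiv.swap_self, Equiv.refl_apply]
    refine (sq_eq_sq₀ (norm_nonneg _) (norm_nonneg _)).1 ?_
    rw [Pool.Agent.TH610.RB.norm_sq_P, Pool.Agent.TH610.RB.norm_sq_P]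
    rw [← (Equiv.swap (⟨i, j⟩ : Ix m) ⟨i, j'⟩).sum_comp]
    refine Finset.sum_congr rfl fun q _ => ?_
    rw [hga, hfst, Equiv.swap_apply_self]
    simp
  have h1 := int_map hD hN hm hgG (f := fun x => x ⟨i, j'⟩ ^ 2) (by fun_prop)
  rw [← h1]
  refine integral_congr_ae (Eventually.of_forall fun x => ?_)
  simp only
  rw [hga, Equiv.swap_apply_right]

theorem coord (p : Ix m) : ∫ x : VV m, x p ^ 2 ∂(mu (rho D N)) = 1 := by
  obtain ⟨i, j⟩ := p
  have hal := al_pos hD hN hm i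
  have hmi : (0 : ℝ) < m i := by exact_mod_cast hm i
  have h1 : ∫ x : VV m, ‖Th x i‖ ^ 2 ∂(mu (rho D N)) = m i := by
    have h2 := c2_eq hD hN (NZ_gg hD hN hm) hm i
    have hc : Continuous fun z : E m => NZ D N i (z i) ^ 2 :=
      (cont_N hD (NZ_gg hD hN hm) i).pow 2
    rw [← map_mu hD hN hm, integral_map Th_cont.measurable.aemeasurable
      hc.aestronglyMeasurable] at h2
    have h3 : ∀ x : VV m, ‖Th x i‖ ^ 2 = al D N i ^ 2 * NZ D N i (Th x i) ^ 2 := by
      intro x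
      unfold NZ
      field_simp
    simp_rw [h3]
    rw [integral_const_mul, ← h2, al_sq hD hN hm i]
  have h2 : ∀ x : VV m, ‖Th x i‖ ^ 2 = ∑ l : Fin (m i), x ⟨i, l⟩ ^ 2 := by
    intro x
    rw [EuclideanSpace.real_norm_sq_eq]
    rfl
  simp_rw [h2] at h1
  rw [integral_finsetSum _ fun l _ => mu_int hD hN hm (f := fun x => x ⟨i, l⟩ ^ 2)
    (by fun_prop)] at h1
  have h3 : ∀ l : Fin (m i), ∫ x : VV m, x ⟨i, l⟩ ^ 2 ∂(mu (rho D N)) =
      ∫ x : VV m, x ⟨i, j⟩ ^ 2 ∂(mu (rho D N)) := fun l => diag hD hN hm l j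
  simp_rw [h3] at h1
  rw [Finset.sum_const, Finset.card_univ, Fintype.card_fin, nsmul_eq_mul] at h1
  exact mul_left_cancel₀ hmi.ne' (by rw [h1, mul_one])

theorem iso (θ : VV m) : ∫ x, ⟪θ, x⟫_ℝ ^ 2 ∂(mu (rho D N)) = ‖θ‖ ^ 2 := by
  have h1 : ∀ x : VV m, ⟪θ, x⟫_ℝ ^ 2 = ∑ p, ∑ q, (θ p * θ q) * (x p * x q) := by
    intro x
    rw [PiLp.inner_apply, pow_two, Finset.sum_mul_sum]
    refine Finset.sum_congr rfl fun p _ => Finset.sum_congr rfl fun q _ => ?_
    simp only [RCLike.inner_apply, conj_trivial]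
    ring
  simp_rw [h1]
  have hi : ∀ p q : Ix m, Integrable (fun x : VV m => (θ p * θ q) * (x p * x q))
      (mu (rho D N)) := fun p q => (mu_int hD hN hm (f := fun x => x p * x q)
        (by fun_prop)).const_mul _
  rw [integral_finsetSum _ fun p _ => integrable_finsetSum _ fun q _ => hi p q,
    EuclideanSpace.real_norm_sq_eq]
  refine Finset.sum_congr rfl fun p _ => ?_
  rw [integral_finsetSum _ fun q _ => hi p q, Finset.sum_eq_single p]
  · rw [integral_const_mul]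
    have h2 : ∀ x : VV m, x p * x p = x p ^ 2 := fun x => by ring
    simp_rw [h2]
    rw [coord hD hN hm p]
    ring
  · intro q _ hq
    rw [integral_const_mul, off hD hN hm (Ne.symm hq), mul_zero]
  · intro h
    exact absurd (Finset.mem_univ p) h

omit hD hN hm in
theorem card_p (a : Fin b) : (Finset.univ.filter fun i : Ix m => i.1 = a).card = m (id a) := by
  rw [Finset.card_filter, ← Finset.univ_sigma_univ, Finset.sum_sigma, Finset.sum_eq_single a]
  · simp
  · intro j _ hj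
    simp [hj]
  · intro h
    exact absurd (Finset.mem_univ a) h

omit hD hN hm in
theorem nb_eq (β : Fin b) : nb (id : Fin b → Fin b) m β = m β := by
  unfold nb blk
  simp [Finset.filter_eq']

/-- concentration of the radial law -/
theorem rad {T : ℝ} (hT0 : 0 ≤ T) (hT : ∑ i, Real.exp (-(T * m i)) ≤ 1) {F : E m → ℝ}
    {κ : ℝ} (hκ : 0 < κ)
    (hF : ∀ z z', |F z - F z'| ≤ κ * Real.sqrt (∑ i, ‖z i - z' i‖ ^ 2)) :
    ∫ z, (F z - ∫ z', F z' ∂(PS D (NZ D N))) ^ 2 ∂(PS D (NZ D N)) ≤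
      (2 * (CC * (1 + T) ^ 2) + 2) * κ ^ 2 := by
  have hprob : IsProbabilityMeasure (mu (rho D N)) := ⟨mu_prob hD hN hm⟩
  have hprob' := PS_prob hD (NZ_gg hD hN hm)
  obtain ⟨H, hH⟩ : ∃ H : VV m → ℝ, H = fun x => F (Th x) := ⟨_, rfl⟩
  have hHl : ∀ x y, |H x - H y| ≤ κ * ‖x - y‖ := by
    intro x y
    rw [hH]
    refine (hF _ _).trans (le_of_eq ?_)
    congr 1
    rw [← Real.sqrt_sq (norm_nonneg (x - y)), norm_VV]
    rfl
  obtain ⟨f, hf1, hf2, hf3⟩ := moll hκ.le hHl one_pos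
  have hfc : Continuous f := hf1.continuous
  have hsc : SC (G (Sigma.fst : Ix m → Fin b) (id : Fin b → Fin b)) (CC * (1 + T) ^ 2) := by
    refine Pool.Agent.TH610.RB.core ?_ m (fun a => card_p a) (fun β => ?_) T hT0 ?_
    · intro a a' haa
      refine ⟨1, fun i => ?_⟩
      have h : a = a' := haa
      rw [h, Equiv.swap_self]
      rfl
    · rw [nb_eq]
      exact hm β
    · simp_rw [nb_eq]
      exact hT
  have hvar : ∫ x, (f x - ∫ y, f y ∂(mu (rho D N))) ^ 2 ∂(mu (rho D N)) ≤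
      CC * (1 + T) ^ 2 * κ ^ 2 := by
    have h1 := hsc (rho D N) (rho_RD hD hN hm).gd (rho_bdd hD hN hm) (mu_prob hD hN hm) 1 one_pos
      (fun θ => by rw [iso hD hN hm θ, one_mul]) (fun x => κ⁻¹ * f x) (contDiff_const.mul hf1)
      (fun x => by
        have h2 : fderiv ℝ (fun x => κ⁻¹ * f x) x = κ⁻¹ • fderiv ℝ f x :=
          fderiv_const_mul (hf1.differentiable (by norm_num) x) _
        rw [h2, norm_smul, Real.norm_eq_abs, abs_of_pos (inv_pos.2 hκ), inv_mul_le_iff₀ hκ,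
          mul_one]
        exact hf2 x)
    obtain ⟨a, ha⟩ : ∃ a, a = ∫ y, f y ∂(mu (rho D N)) := ⟨_, rfl⟩
    have hi1 := mu_int hD hN hm hfc
    have hi2 := mu_int hD hN hm (hfc.pow 2)
    have h3 : ∀ x, (κ⁻¹ * f x) ^ 2 = (κ⁻¹) ^ 2 * f x ^ 2 := fun x => by ring
    simp_rw [h3] at h1
    rw [integral_const_mul, integral_const_mul, ← ha] at h1
    have h4 : (fun x => (f x - a) ^ 2) = fun x => ((f ^ 2) x - 2 * a * f x) + a ^ 2 := by
      funext x
      simp only [Pi.pow_apply]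
      ring
    have h5 : Integrable (fun x => (f ^ 2) x - 2 * a * f x) (mu (rho D N)) :=
      hi2.sub (hi1.const_mul _)
    rw [← ha, h4, integral_add h5 (integrable_const _), integral_sub hi2 (hi1.const_mul _),
      integral_const_mul, ← ha]
    simp only [integral_const, probReal_univ, one_smul, Pi.pow_apply]
    have h6 : κ⁻¹ ^ 2 * (∫ x, f x ^ 2 ∂(mu (rho D N)) - a ^ 2) ≤ CC * (1 + T) ^ 2 := by
      calc _ = κ⁻¹ ^ 2 * ∫ x, f x ^ 2 ∂(mu (rho D N)) - (κ⁻¹ * a) ^ 2 := by ring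
        _ ≤ CC * (1 + T) ^ 2 * 1 := h1
        _ = _ := mul_one _
    have h7 : ∫ x, f x ^ 2 ∂(mu (rho D N)) - a ^ 2 ≤ CC * (1 + T) ^ 2 * κ ^ 2 := by
      have h8 : κ ^ 2 * (κ⁻¹ ^ 2 * (∫ x, f x ^ 2 ∂(mu (rho D N)) - a ^ 2)) ≤
          κ ^ 2 * (CC * (1 + T) ^ 2) := mul_le_mul_of_nonneg_left h6 (sq_nonneg _)
      have h9 : κ ^ 2 * κ⁻¹ ^ 2 = 1 := by
        field_simp
      rw [← mul_assoc, h9, one_mul] at h8
      linarith
    nlinarith
  -- transfer
  obtain ⟨a, ha⟩ : ∃ a, a = ∫ y, f y ∂(mu (rho D N)) := ⟨_, rfl⟩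
  obtain ⟨c, hc⟩ : ∃ c, c = ∫ z', F z' ∂(PS D (NZ D N)) := ⟨_, rfl⟩
  rw [← ha] at hvar
  rw [← hc]
  have hHc : Continuous H := by
    refine LipschitzWith.continuous (K := Real.toNNReal κ) (LipschitzWith.of_dist_le_mul
      fun x y => ?_)
    rw [Real.dist_eq, dist_eq_norm, Real.coe_toNNReal _ hκ.le]
    exact hHl x y
  have hFc : Continuous F := by
    have h1 : F = fun z => H (Ti z) := by
      funext z
      rw [hH]
      rfl
    rw [h1]
    exact hHc.comp Ti_cont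
  have hmap : ∀ g : E m → ℝ, Continuous g →
      ∫ z, g z ∂(PS D (NZ D N)) = ∫ x, g (Th x) ∂(mu (rho D N)) := by
    intro g hg
    rw [← map_mu hD hN hm, integral_map Th_cont.measurable.aemeasurable hg.aestronglyMeasurable]
  have hcH : c = ∫ x, H x ∂(mu (rho D N)) := by
    rw [hc, hmap F hFc, hH]
  rw [hmap (fun z => (F z - c) ^ 2) ((hFc.sub continuous_const).pow 2)]
  have hHF : ∀ x, F (Th x) = H x := fun x => by rw [hH]
  simp only [hHF]
  have hHi := mu_int hD hN hm hHc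
  -- the mean minimises
  have h1 : ∫ x, (H x - c) ^ 2 ∂(mu (rho D N)) ≤ ∫ x, (H x - a) ^ 2 ∂(mu (rho D N)) := by
    have hq : ∀ e : ℝ, ∫ x, (H x - e) ^ 2 ∂(mu (rho D N)) =
        ∫ x, H x ^ 2 ∂(mu (rho D N)) - 2 * e * c + e ^ 2 := by
      intro e
      have hi2 := mu_int hD hN hm (hHc.pow 2)
      have h4 : (fun x => (H x - e) ^ 2) = fun x => ((H ^ 2) x - 2 * e * H x) + e ^ 2 := by
        funext x
        simp only [Pi.pow_apply]
        ring
      have h5 : Integrable (fun x => (H ^ 2) x - 2 * e * H x) (mu (rho D N)) :=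
        hi2.sub (hHi.const_mul _)
      rw [h4, integral_add h5 (integrable_const _), integral_sub hi2 (hHi.const_mul _),
        integral_const_mul, ← hcH]
      simp
    rw [hq c, hq a]
    nlinarith [sq_nonneg (a - c)]
  refine h1.trans ?_
  have h2 : ∫ x, (H x - a) ^ 2 ∂(mu (rho D N)) ≤
      ∫ x, (2 * (f x - a) ^ 2 + 2 * κ ^ 2) ∂(mu (rho D N)) := by
    have hi3 : Integrable (fun x => 2 * (f x - a) ^ 2) (mu (rho D N)) :=
      mu_int hD hN hm (f := fun x => 2 * (f x - a) ^ 2) (by fun_prop)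
    refine integral_mono (mu_int hD hN hm (f := fun x => (H x - a) ^ 2) (by fun_prop))
      (hi3.add (integrable_const _)) fun x => ?_
    have h3 := hf3 x
    rw [mul_one] at h3
    have h4 : (f x - H x) ^ 2 ≤ κ ^ 2 := by
      rw [← sq_abs]
      exact pow_le_pow_left₀ (abs_nonneg _) h3 2
    nlinarith [sq_nonneg ((f x - a) + (f x - H x))]
  refine h2.trans ?_
  have hi3 : Integrable (fun x => 2 * (f x - a) ^ 2) (mu (rho D N)) :=
    mu_int hD hN hm (f := fun x => 2 * (f x - a) ^ 2) (by fun_prop)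
  rw [integral_add hi3 (integrable_const _), integral_const_mul]
  simp only [integral_const, probReal_univ, one_smul]
  nlinarith

/-- the tail of one block -/
theorem tail1 (i : Fin b) {l : ℝ} (hl : 1 ≤ l) :
    PS D (NZ D N) {z | 540 * l * Real.sqrt (c2 D N i) < NZ D N i (z i)} ≤
      ENNReal.ofReal (Real.exp (-(3 * m i * (l - 1)))) := by
  have hal := al_pos hD hN hm i
  have hc := c2_pos hD hN hm i
  have hmi : (0 : ℝ) < m i := by exact_mod_cast hm i
  have h1 := Pool.Agent.TH610.RB.tail_blk (rho_RD hD hN hm) (rho_bdd hD hN hm)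
    (mu_prob hD hN hm) m (fun a => card_p a) i (by rw [nb_eq]; exact hm i) 1 one_pos
    (fun p => (coord hD hN hm p).le) l hl
  rw [nb_eq] at h1
  refine le_trans (le_of_eq ?_) h1
  have hms : MeasurableSet {z : E m | 540 * l * Real.sqrt (c2 D N i) < NZ D N i (z i)} :=
    measurableSet_lt measurable_const (cont_N hD (NZ_gg hD hN hm) i).measurable
  rw [← map_mu hD hN hm, Measure.map_apply Th_cont.measurable hms]
  congr 1
  ext x
  show 540 * l * Real.sqrt (c2 D N i) < NZ D N i (Th x i) ↔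
    l * (540 * Real.sqrt 1) * m i < NN (Sigma.fst : Ix m → Fin b) (blk id i) (m i) x
  have h2 : NN (Sigma.fst : Ix m → Fin b) (blk id i) (m i) x = Real.sqrt (m i) * ‖Th x i‖ := by
    unfold NN nS blk
    have h3 : (Finset.univ.filter fun a : Fin b => id a = i) = {i} := by
      ext a
      simp
    rw [h3, Finset.sum_singleton, norm_P']
  have h4 : Real.sqrt (m i) = al D N i * Real.sqrt (c2 D N i) := by
    rw [← al_sq hD hN hm i, Real.sqrt_mul (sq_nonneg _), Real.sqrt_sq hal.le]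
  have h5 : Real.sqrt (m i) * Real.sqrt (m i) = m i := Real.mul_self_sqrt hmi.le
  have h6 : 0 < Real.sqrt (m i) := Real.sqrt_pos.2 hmi
  rw [h2, Real.sqrt_one, mul_one]
  unfold NZ
  rw [lt_div_iff₀ hal]
  have h7 : 540 * l * Real.sqrt (c2 D N i) * al D N i = l * 540 * Real.sqrt (m i) := by
    rw [h4]
    ring
  have h8 : l * 540 * (m i : ℝ) = Real.sqrt (m i) * (l * 540 * Real.sqrt (m i)) := by
    nth_rewrite 1 [← h5]
    ring
  rw [h7, h8]
  exact (mul_lt_mul_iff_right₀ h6).symm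

end

end Pool.Agent.W5h44.DS
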