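import Pool.Agent.W5h44.DS.Pro
import Pool.Agent.R751.MB.Stm

/-!
# The uniform distribution on a `D`-sum in polar coordinates
-/

set_option autoImplicit false
set_option linter.unusedSectionVars false

namespace Pool.Agent.W5h44.DS

open MeasureTheory Set Filter Topology Module
open scoped ENNReal
open Pool.Agent.R751.MB (Eu UBody Body)

variable {b : ℕ} {m : Fin b → ℕ}

/-- the product of the spaces of the blocks -/
abbrev E (m : Fin b → ℕ) : Type := ∀ i, Eu (Fin (m i))

/-- the `D`-sum `{x | (N_i(x_i))_i ∈ D}` -/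
def SS (D : Set (Eu (Fin b))) (N : ∀ i, Eu (Fin (m i)) → ℝ) : Set (E m) :=
  {x | WithLp.toLp 2 (fun i => N i (x i)) ∈ D}

/-- the uniform distribution on the `D`-sum -/
noncomputable def PS (D : Set (Eu (Fin b))) (N : ∀ i, Eu (Fin (m i)) → ℝ) : Measure (E m) :=
  (volume (SS D N))⁻¹ • volume.restrict (SS D N)

/-- independent points with the uniform distributions on the unit balls of the `N_i` -/
noncomputable def KM (N : ∀ i, Eu (Fin (m i)) → ℝ) : Measure (E m) :=
  Measure.pi fun i => un volume (N i)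

theorem nontriv (hm : ∀ i, 1 ≤ m i) (i : Fin b) : Nontrivial (Eu (Fin (m i))) := by
  have : Nonempty (Fin (m i)) := ⟨⟨0, hm i⟩⟩
  infer_instance

theorem exists_pos {D : Set (Eu (Fin b))} (hD : UBody D) : ∃ τ ∈ D, ∀ i, 0 < τ i := by
  obtain ⟨t0, ht0⟩ := hD.int
  let u : Eu (Fin b) := WithLp.toLp 2 fun i => if 0 ≤ t0 i then 1 else -1
  have hcont : Continuous fun s : ℝ => t0 + s • u := by fun_prop
  have h1 : ∀ᶠ s in 𝓝 (0 : ℝ), t0 + s • u ∈ interior D := by
    apply hcont.continuousAt.eventually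
    simp only [zero_smul, add_zero]
    exact isOpen_interior.mem_nhds ht0
  have h2 : ∀ᶠ s in 𝓝[>] (0 : ℝ), t0 + s • u ∈ interior D := h1.filter_mono nhdsWithin_le_nhds
  obtain ⟨s, hs, hs0⟩ := (h2.and self_mem_nhdsWithin).exists
  have hs0 : 0 < s := hs0
  refine ⟨WithLp.toLp 2 fun i => |(t0 + s • u) i|, ?_, fun i => ?_⟩
  · exact hD.unc _ (interior_subset hs) _ fun i => by simp
  · simp only
    apply abs_pos.2
    have e1 : (t0 + s • u) i = t0 i + s * (if 0 ≤ t0 i then 1 else -1) := by
      simp [u]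
    rw [e1]
    split_ifs with h
    · have : 0 < t0 i + s * 1 := by linarith
      exact this.ne'
    · have : t0 i + s * -1 < 0 := by linarith
      exact this.ne

section

variable {D : Set (Eu (Fin b))} (hD : UBody D) {N N' : ∀ i, Eu (Fin (m i)) → ℝ}
  (hN : ∀ i, Gg (N i)) (hN' : ∀ i, Gg (N' i))

include hD hN

theorem cont_toLp : Continuous fun x : E m => (WithLp.toLp 2 fun i => N i (x i) : Eu (Fin b)) := by
  refine (PiLp.continuous_toLp 2 _).comp ?_
  exact continuous_pi fun i => (hN i).cont.comp (continuous_apply i)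

theorem SS_closed : IsClosed (SS D N) := hD.comp.isClosed.preimage (cont_toLp hD hN)

theorem SS_compact : IsCompact (SS D N) := by
  refine Metric.isCompact_of_isClosed_isBounded (SS_closed hD hN) ?_
  obtain ⟨R, hR⟩ := hD.comp.isBounded.exists_norm_le
  have h1 : SS D N ⊆ univ.pi fun i => {x | N i x ≤ R} := by
    intro x hx i _
    have h2 := hR _ hx
    have h3 := PiLp.norm_apply_le (WithLp.toLp 2 (fun i => N i (x i)) : Eu (Fin b)) i
    have h4 : ‖N i (x i)‖ ≤ R := h3.trans h2
    exact (le_abs_self _).trans h4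
  exact (isCompact_univ_pi fun i => (hN i).compact R).isBounded.subset h1

theorem SS_zero : (0 : E m) ∈ SS D N := by
  obtain ⟨τ, hτ, hpos⟩ := exists_pos hD
  refine hD.unc τ hτ _ fun i => ?_
  simp only [Pi.zero_apply]
  rw [(hN i).zero, abs_zero]
  exact abs_nonneg _

theorem SS_pos : 0 < volume (SS D N) := by
  obtain ⟨τ, hτ, hpos⟩ := exists_pos hD
  have hop : IsOpen (univ.pi fun i => {x : Eu (Fin (m i)) | N i x < τ i}) :=
    isOpen_set_pi finite_univ fun i _ => isOpen_lt (hN i).cont continuous_const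
  refine lt_of_lt_of_le (hop.measure_pos volume ⟨0, fun i _ => ?_⟩) (measure_mono ?_)
  · show N i 0 < τ i
    rw [(hN i).zero]
    exact hpos i
  · intro x hx
    refine hD.unc τ hτ _ fun i => ?_
    have h1 : N i (x i) < τ i := hx i (mem_univ i)
    simp only
    rw [abs_of_nonneg ((hN i).nonneg _), abs_of_pos (hpos i)]
    exact h1.le

theorem SS_lt : volume (SS D N) < ⊤ := (SS_compact hD hN).measure_lt_top

theorem PS_prob : IsProbabilityMeasure (PS D N) := by
  refine ⟨?_⟩
  rw [PS, Measure.smul_apply, Measure.restrict_apply_univ, smul_eq_mul]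
  exact ENNReal.inv_mul_cancel (SS_pos hD hN).ne' (SS_lt hD hN).ne

theorem KM_prob : IsProbabilityMeasure (KM N) := by
  have : ∀ i, IsProbabilityMeasure (un volume (N i)) := fun i => un_prob volume (hN i)
  unfold KM
  infer_instance

theorem KM_ne (hm : ∀ i, 1 ≤ m i) : ∀ᵐ y ∂(KM N), ∀ i, y i ≠ 0 := by
  have : ∀ i, IsProbabilityMeasure (un volume (N i)) := fun i => un_prob volume (hN i)
  rw [ae_all_iff]
  intro i
  have := nontriv hm i
  have h1 : ∀ᵐ y ∂(un volume (N i)), y ≠ 0 := by
    unfold un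
    refine Measure.ae_smul_measure (ae_restrict_of_ae ?_) _
    rw [ae_iff]
    simp
  have h2 : (KM N).map (Function.eval i) = un volume (N i) :=
    (measurePreserving_eval (fun i => un volume (N i)) i).map_eq
  rw [← h2] at h1
  exact ae_of_ae_map (measurable_pi_apply i).aemeasurable h1

include hN'

theorem law_l (hm : ∀ i, 1 ≤ m i) {f : E m → ℝ≥0∞} (hf : Measurable f) :
    ∫⁻ z, ∫⁻ y, f (Φ N N' z y) ∂(KM N) ∂(PS D N') = ∫⁻ x, f x ∂(PS D N) := by
  have hnt := nontriv hm
  have hprob := KM_prob hD hN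
  have hSm : MeasurableSet (SS D N) := (SS_closed hD hN).measurableSet
  have hSm' : MeasurableSet (SS D N') := (SS_closed hD hN').measurableSet
  -- not normalised
  have key : ∀ g : E m → ℝ≥0∞, Measurable g →
      ∫⁻ z in SS D N', ∫⁻ y, g (Φ N N' z y) ∂(KM N) =
        (∏ i, cc volume (N i) (N' i)) * ∫⁻ x in SS D N, g x := by
    intro g hg
    have h1 := polar_pi (fun i => (volume : Measure (Eu (Fin (m i))))) hN hN'
      (f := (SS D N).indicator g) (hg.indicator hSm)
    have h2 : ∫⁻ x, (SS D N).indicator g x ∂(Measure.pi fun i =>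
        (volume : Measure (Eu (Fin (m i))))) = ∫⁻ x in SS D N, g x := lintegral_indicator hSm g
    rw [h2] at h1
    rw [← h1, ← lintegral_indicator hSm']
    refine lintegral_congr fun z => ?_
    have h3 : ∀ᵐ y ∂(KM N), (SS D N).indicator g (Φ N N' z y) =
        (SS D N').indicator (fun _ => g (Φ N N' z y)) z := by
      filter_upwards [KM_ne hD hN hm] with y hy
      have h4 : ∀ i, N i (Φ N N' z y i) = N' i (z i) := by
        intro i
        have hyi := (hN i).pos _ (hy i)
        unfold Φ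
        rw [(hN i).smul, abs_of_nonneg (div_nonneg ((hN' i).nonneg _) hyi.le),
          div_mul_cancel₀ _ hyi.ne']
      have h5 : Φ N N' z y ∈ SS D N ↔ z ∈ SS D N' := by
        show WithLp.toLp 2 (fun i => N i (Φ N N' z y i)) ∈ D ↔ _
        simp_rw [h4]
        exact Iff.rfl
      by_cases hz : z ∈ SS D N'
      · rw [indicator_of_mem hz, indicator_of_mem (h5.2 hz)]
      · rw [indicator_of_notMem hz, indicator_of_notMem (fun h => hz (h5.1 h))]
    refine Eq.trans ?_ (lintegral_congr_ae h3).symm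
    by_cases hz : z ∈ SS D N'
    · rw [indicator_of_mem hz]
      simp only [indicator_of_mem hz]
    · rw [indicator_of_notMem hz]
      simp only [indicator_of_notMem hz, lintegral_zero]
  have hv := key (fun _ => 1) measurable_const
  simp only [lintegral_const, measure_univ, mul_one, one_mul, Measure.restrict_apply_univ] at hv
  have hc : (∏ i, cc volume (N i) (N' i)) ≠ 0 ∧ (∏ i, cc volume (N i) (N' i)) ≠ ⊤ :=
    ⟨Finset.prod_ne_zero_iff.2 fun i _ => (cc_ne volume (hN i) (hN' i)).1,
      ENNReal.prod_ne_top fun i _ => (cc_ne volume (hN i) (hN' i)).2⟩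
  unfold PS
  rw [lintegral_smul_measure, lintegral_smul_measure, key f hf, hv, smul_eq_mul, smul_eq_mul,
    ENNReal.mul_inv (Or.inl hc.1) (Or.inl hc.2)]
  calc _ = ((∏ i, cc volume (N i) (N' i))⁻¹ * ∏ i, cc volume (N i) (N' i)) *
        ((volume (SS D N))⁻¹ * ∫⁻ x in SS D N, f x) := by ring
    _ = _ := by rw [ENNReal.inv_mul_cancel hc.1 hc.2, one_mul]

theorem law (hm : ∀ i, 1 ≤ m i) :
    ((PS D N').prod (KM N)).map (fun q => Φ N N' q.1 q.2) = PS D N := by
  have hp1 := KM_prob hD hN
  have hp2 := PS_prob hD hN'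
  have hnt := nontriv hm
  have hΦ := Φ_meas hN hN'
  refine Measure.ext fun s hs => ?_
  have hh : ∀ ν : Measure (E m), ∫⁻ x, s.indicator (fun _ => (1 : ℝ≥0∞)) x ∂ν = ν s := fun ν => by
    rw [lintegral_indicator hs, setLIntegral_const, one_mul]
  have hi : Measurable (s.indicator fun _ => (1 : ℝ≥0∞)) := measurable_const.indicator hs
  have hi2 : Measurable fun q : E m × E m => s.indicator (fun _ => (1 : ℝ≥0∞)) (Φ N N' q.1 q.2) :=
    hi.comp hΦ
  rw [← hh, ← hh, lintegral_map hi hΦ, lintegral_prod _ hi2.aemeasurable]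
  exact law_l hD hN hN' hm hi

end

end Pool.Agent.W5h44.DS
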