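import Pool.Agent.W5h44.DS.Mom
import Pool.Agent.W5h44.DS.Ang

/-!
# The radial average is Lipschitz
-/

set_option autoImplicit false
set_option linter.unusedSectionVars false

namespace Pool.Agent.W5h44.DS

open MeasureTheory Set Filter Topology Module
open scoped ENNReal InnerProductSpace
open Pool.Agent.R751.MB (Eu UBody Body)

theorem sq_int_le {α : Type} [MeasurableSpace α] (κ : Measure α) [IsProbabilityMeasure κ]
    {f : α → ℝ} (h1 : Integrable f κ) (h2 : Integrable (fun x => f x ^ 2) κ) :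
    (∫ x, f x ∂κ) ^ 2 ≤ ∫ x, f x ^ 2 ∂κ := by
  obtain ⟨c, hc⟩ : ∃ c, c = ∫ x, f x ∂κ := ⟨_, rfl⟩
  have h3 : 0 ≤ ∫ x, (f x - c) ^ 2 ∂κ := integral_nonneg fun x => sq_nonneg _
  have h4 : (fun x => (f x - c) ^ 2) = fun x => (f x ^ 2 - 2 * c * f x) + c ^ 2 := by
    funext x
    ring
  have h5 : Integrable (fun x => f x ^ 2 - 2 * c * f x) κ := h2.sub (h1.const_mul _)
  rw [h4, integral_add h5 (integrable_const _), integral_sub h2 (h1.const_mul _),
    integral_const_mul, ← hc] at h3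
  simp only [integral_const, probReal_univ, one_smul] at h3
  rw [← hc]
  nlinarith

variable {b : ℕ} {m : Fin b → ℕ}

/-- the normalising factors -/
noncomputable def al (D : Set (Eu (Fin b))) (N : ∀ i, Eu (Fin (m i)) → ℝ) (i : Fin b) : ℝ :=
  Real.sqrt (m i / c2 D N i)

/-- the Euclidean gauges of the blocks -/
noncomputable def NZ (D : Set (Eu (Fin b))) (N : ∀ i, Eu (Fin (m i)) → ℝ) (i : Fin b)
    (z : Eu (Fin (m i))) : ℝ := ‖z‖ / al D N i

section

variable {D : Set (Eu (Fin b))} (hD : UBody D) {N : ∀ i, Eu (Fin (m i)) → ℝ}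
  (hN : ∀ i, Gg (N i)) (hm : ∀ i, 1 ≤ m i)

include hD hN hm

theorem al_pos (i : Fin b) : 0 < al D N i := by
  have h1 : (0 : ℝ) < m i := by exact_mod_cast hm i
  exact Real.sqrt_pos.2 (div_pos h1 (c2_pos hD hN hm i))

theorem al_sq (i : Fin b) : al D N i ^ 2 * c2 D N i = m i := by
  have h1 : (0 : ℝ) < m i := by exact_mod_cast hm i
  have h2 := c2_pos hD hN hm i
  unfold al
  rw [Real.sq_sqrt (div_pos h1 h2).le]
  field_simp

theorem NZ_gg (i : Fin b) : Gg (NZ D N i) := by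
  have h := al_pos hD hN hm i
  refine ⟨?_, fun x hx => div_pos (norm_pos_iff.2 hx) h, fun t x => ?_⟩
  · unfold NZ
    exact continuous_norm.div_const _
  · unfold NZ
    rw [norm_smul, Real.norm_eq_abs, mul_div_assoc]

variable {k : ℕ} {L : E m →L[ℝ] Eu (Fin k)} {s : ℝ} (hs : 0 < s)
  (hcov : ∀ φ : Eu (Fin k) →L[ℝ] ℝ, ∫ x, (φ (L x)) ^ 2 ∂(PS D N) ≤ s * ‖φ‖ ^ 2)

/-- the restriction of `L` to a block -/
noncomputable def Lb (L : E m →L[ℝ] Eu (Fin k)) (i : Fin b) : Eu (Fin (m i)) →L[ℝ] Eu (Fin k) :=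
  L.comp (ContinuousLinearMap.single ℝ (fun j => Eu (Fin (m j))) i)

include hcov

theorem hu_sum (φ : Eu (Fin k) →L[ℝ] ℝ) :
    ∑ i, c2 D N i * UU N i (φ.comp (Lb L i)) ≤ s * ‖φ‖ ^ 2 := by
  have h1 := mom hD hN (NZ_gg hD hN hm) hm (φ.comp L)
  have h2 : ∫ x, ‖(φ.comp L) x‖ ^ 2 ∂(PS D N) = ∫ x, (φ (L x)) ^ 2 ∂(PS D N) := by
    refine integral_congr_ae (Eventually.of_forall fun x => ?_)
    simp
  rw [h2] at h1
  have h3 := hcov φ
  rw [h1] at h3
  exact h3

include hs

theorem lb_trace (i : Fin b) : UU N i (Lb L i) ≤ m i * (s / c2 D N i) := by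
  have hc := c2_pos hD hN hm i
  refine UU_trace hN i (Lb L i) (div_pos hs hc).le fun θ => ?_
  have h1 := hu_sum hD hN hm hcov (innerSL ℝ θ)
  have h2 : c2 D N i * UU N i ((innerSL ℝ θ).comp (Lb L i)) ≤ s * ‖innerSL ℝ θ‖ ^ 2 :=
    (Finset.single_le_sum (f := fun i => c2 D N i * UU N i ((innerSL ℝ θ).comp (Lb L i)))
      (fun j _ => mul_nonneg (c2_pos hD hN hm j).le (UU_nonneg hN j _))
      (Finset.mem_univ i)).trans h1
  rw [innerSL_apply_norm] at h2
  rw [div_mul_eq_mul_div, le_div_iff₀ hc]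
  linarith

variable {v : Eu (Fin k) → ℝ} (hv : ContDiff ℝ 1 v) {C : ℝ} (hC : ∀ x, ‖fderiv ℝ v x‖ ≤ C)

include hv hC

/-- the sum of the energies of the blocks -/
theorem q_sum (x : E m) : ∑ i, c2 D N i * qi N L v i x ≤ s * C ^ 2 := by
  have hC0 : 0 ≤ C := (norm_nonneg _).trans (hC 0)
  have hnt := nontriv hm
  have hpi : ∀ i, IsProbabilityMeasure (un volume (N i)) := fun i => un_prob volume (hN i)
  have h1 := hu_sum hD hN hm hcov (fderiv ℝ v (L x))
  have h2 : ∀ i, qi N L v i x ≤ UU N i ((fderiv ℝ v (L x)).comp (Lb L i)) := by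
    intro i
    unfold qi UU
    obtain ⟨R, hR⟩ := bd_hat hN i ((fderiv ℝ v (L x)).comp (Lb L i))
    have hm1 := sm_hat hN i ((fderiv ℝ v (L x)).comp (Lb L i))
    have hm2 : StronglyMeasurable fun y => ‖((fderiv ℝ v (L x)).comp (Lb L i))
      (hat (N i) y)‖ ^ 2 := hm1.norm.pow 2
    refine integral_mono_of_nonneg (Eventually.of_forall fun y => sq_nonneg _)
      (Integrable.of_bound hm2.aestronglyMeasurable (R ^ 2) (Eventually.of_forall fun y => ?_)) ?_
    · rw [norm_pow, norm_norm]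
      exact pow_le_pow_left₀ (norm_nonneg _) (hR y) 2
    · have h3 : ∀ᵐ y ∂(un volume (N i)), N i y ≤ 1 := by
        unfold un
        refine Measure.ae_smul_measure ?_ _
        exact (ae_restrict_iff' ((hN i).compact 1).measurableSet).2
          (Eventually.of_forall fun y hy => hy)
      filter_upwards [h3] with y hy
      have h4 : fderiv ℝ v (L x) (L (ContinuousLinearMap.single ℝ (fun j => Eu (Fin (m j))) i y)) =
          N i y * ((fderiv ℝ v (L x)).comp (Lb L i)) (hat (N i) y) := by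
        have h5 : (fderiv ℝ v (L x)).comp (Lb L i) y =
            N i y • ((fderiv ℝ v (L x)).comp (Lb L i)) (hat (N i) y) := by
          rw [← map_smul, smul_hat (hN i)]
        rw [smul_eq_mul] at h5
        rw [← h5]
        rfl
      simp only
      rw [h4, mul_pow, Real.norm_eq_abs, sq_abs]
      have h6 : N i y ^ 2 ≤ 1 := pow_le_one₀ ((hN i).nonneg y) hy
      exact mul_le_of_le_one_left (sq_nonneg _) h6
  have h3 : ∑ i, c2 D N i * qi N L v i x ≤ s * ‖fderiv ℝ v (L x)‖ ^ 2 :=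
    (Finset.sum_le_sum fun i _ => mul_le_mul_of_nonneg_left (h2 i) (c2_pos hD hN hm i).le).trans h1
  have h4 : 0 ≤ ∑ i, c2 D N i * qi N L v i x := Finset.sum_nonneg fun i _ =>
    mul_nonneg (c2_pos hD hN hm i).le (integral_nonneg fun y => sq_nonneg _)
  have h5 : ‖fderiv ℝ v (L x)‖ ^ 2 ≤ C ^ 2 := pow_le_pow_left₀ (norm_nonneg _) (hC _) 2
  exact h3.trans (mul_le_mul_of_nonneg_left h5 hs.le)

/-- the average over the directions is Lipschitz -/
theorem lipF {B : ℝ} (hB : ∀ x, |v x| ≤ B) (z z' : E m) :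
    |∫ y, v (L (Φ N (NZ D N) z y)) ∂(KM N) - ∫ y, v (L (Φ N (NZ D N) z' y)) ∂(KM N)| ≤
      C * Real.sqrt s * Real.sqrt (∑ i, ‖z i - z' i‖ ^ 2) := by
  have hC0 : 0 ≤ C := (norm_nonneg _).trans (hC 0)
  have hnt := nontriv hm
  have hKM : IsProbabilityMeasure (KM N) := KM_prob hD hN
  have hN' := NZ_gg hD hN hm
  have hΦ := Φ_meas hN hN'
  have hvm : Measurable fun x : E m => v (L x) := (hv.continuous.comp L.continuous).measurable
  have hint : ∀ z : E m, Integrable (fun y => v (L (Φ N (NZ D N) z y))) (KM N) := fun z =>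
    Integrable.of_bound ((hvm.comp hΦ).comp measurable_prodMk_left).aestronglyMeasurable B
      (Eventually.of_forall fun y => by rw [Real.norm_eq_abs]; exact hB _)
  have hlip : ∀ p q, |v p - v q| ≤ C * ‖p - q‖ := by
    intro p q
    have h := Convex.norm_image_sub_le_of_norm_fderiv_le (𝕜 := ℝ) (s := univ) (x := q) (y := p)
      (f := v) (C := C) (fun y _ => (hv.differentiable (by norm_num)) y) (fun y _ => hC y)
      convex_univ (mem_univ _) (mem_univ _)
    rwa [Real.norm_eq_abs] at h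
  -- the difference
  obtain ⟨a, ha⟩ : ∃ a : Fin b → ℝ, a = fun i => NZ D N i (z i) - NZ D N i (z' i) := ⟨_, rfl⟩
  have hdiff : ∀ y : E m, L (Φ N (NZ D N) z y) - L (Φ N (NZ D N) z' y) =
      ∑ i, a i • Lb L i (hat (N i) (y i)) := by
    intro y
    have h4 : Φ N (NZ D N) z y - Φ N (NZ D N) z' y = ∑ i, a i • ContinuousLinearMap.single ℝ
        (fun j => Eu (Fin (m j))) i (hat (N i) (y i)) := by
      funext j
      rw [Pi.sub_apply, Φ_hat, Φ_hat, Finset.sum_apply, Finset.sum_eq_single j]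
      · simp [ha, sub_smul]
      · intro i _ hi
        simp [Pi.single_eq_of_ne (Ne.symm hi)]
      · intro h
        exact absurd (Finset.mem_univ j) h
    rw [← map_sub, h4, map_sum]
    refine Finset.sum_congr rfl fun i _ => ?_
    rw [map_smul]
    rfl
  obtain ⟨f, hf⟩ : ∃ f : E m → ℝ, f = fun y => ‖∑ i, a i • Lb L i (hat (N i) (y i))‖ := ⟨_, rfl⟩
  have hfm : StronglyMeasurable f := by
    rw [hf]
    refine StronglyMeasurable.norm (Finset.stronglyMeasurable_fun_sum _ fun i _ => ?_)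
    exact ((sm_hat hN i (Lb L i)).comp_measurable (measurable_pi_apply i)).const_smul (a i)
  have hfb : ∃ R : ℝ, ∀ y, ‖f y‖ ≤ R := by
    choose R hR using fun i => bd_hat hN i (Lb L i)
    refine ⟨∑ i, |a i| * R i, fun y => ?_⟩
    rw [hf, norm_norm]
    refine (norm_sum_le _ _).trans (Finset.sum_le_sum fun i _ => ?_)
    rw [norm_smul, Real.norm_eq_abs]
    exact mul_le_mul_of_nonneg_left (hR i _) (abs_nonneg _)
  obtain ⟨R, hR⟩ := hfb
  have hfi : Integrable f (KM N) := Integrable.of_bound hfm.aestronglyMeasurable R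
    (Eventually.of_forall hR)
  have hfm2 : StronglyMeasurable fun y => f y ^ 2 := hfm.pow 2
  have hfi2 : Integrable (fun y => f y ^ 2) (KM N) :=
    Integrable.of_bound hfm2.aestronglyMeasurable (R ^ 2) (Eventually.of_forall fun y => by
      rw [norm_pow]
      exact pow_le_pow_left₀ (norm_nonneg _) (hR y) 2)
  have h1 : |∫ y, v (L (Φ N (NZ D N) z y)) ∂(KM N) - ∫ y, v (L (Φ N (NZ D N) z' y)) ∂(KM N)| ≤
      C * ∫ y, f y ∂(KM N) := by
    rw [← integral_sub (hint z) (hint z'), ← integral_const_mul, ← Real.norm_eq_abs]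
    refine norm_integral_le_of_norm_le (hfi.const_mul C) (Eventually.of_forall fun y => ?_)
    rw [Real.norm_eq_abs, hf]
    simp only
    rw [← hdiff]
    exact hlip _ _
  have h2 : (∫ y, f y ∂(KM N)) ^ 2 ≤ s * ∑ i, ‖z i - z' i‖ ^ 2 := by
    refine (sq_int_le (KM N) hfi hfi2).trans ?_
    rw [hf]
    simp only
    rw [ortho_hat hD hN (fun i => Lb L i) a, Finset.mul_sum]
    refine Finset.sum_le_sum fun i _ => ?_
    have hal := al_pos hD hN hm i
    have hc := c2_pos hD hN hm i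
    have h3 := lb_trace hD hN hm hs hcov i
    have h4 : (m i : ℝ) * (s / c2 D N i) = s * al D N i ^ 2 := by
      rw [← al_sq hD hN hm i]
      field_simp
    rw [h4] at h3
    have h5 : a i ^ 2 * al D N i ^ 2 ≤ ‖z i - z' i‖ ^ 2 := by
      have h6 : a i * al D N i = ‖z i‖ - ‖z' i‖ := by
        rw [ha]
        unfold NZ
        field_simp
      rw [← mul_pow, h6, ← sq_abs]
      exact pow_le_pow_left₀ (abs_nonneg _) (abs_norm_sub_norm_le _ _) 2
    calc a i ^ 2 * UU N i (Lb L i) ≤ a i ^ 2 * (s * al D N i ^ 2) :=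
          mul_le_mul_of_nonneg_left h3 (sq_nonneg _)
      _ = s * (a i ^ 2 * al D N i ^ 2) := by ring
      _ ≤ s * ‖z i - z' i‖ ^ 2 := mul_le_mul_of_nonneg_left h5 hs.le
  have hf0 : 0 ≤ ∫ y, f y ∂(KM N) := integral_nonneg fun y => by
    rw [hf]
    exact norm_nonneg _
  have h3 : ∫ y, f y ∂(KM N) ≤ Real.sqrt s * Real.sqrt (∑ i, ‖z i - z' i‖ ^ 2) := by
    rw [← Real.sqrt_mul hs.le]
    exact Real.le_sqrt_of_sq_le h2
  refine h1.trans ?_
  rw [mul_assoc]
  exact mul_le_mul_of_nonneg_left h3 hC0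

end

end Pool.Agent.W5h44.DS
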