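import Pool.Agent.W5h44.DS.Bad

/-!
# Concentration of Lipschitz functions on `D`-sums
-/

set_option autoImplicit false
set_option linter.unusedSectionVars false

namespace Pool.Agent.W5h44.DS

open MeasureTheory Set Filter Topology Module
open scoped ENNReal InnerProductSpace
open Pool.Agent.R751.MB (Eu UBody Body)
open Pool.Agent.TH610.RB (CC CC_pos)

theorem sq_split {α : Type} [MeasurableSpace α] (κ : Measure α) [IsProbabilityMeasure κ]
    {f : α → ℝ} (h1 : Integrable f κ) (h2 : Integrable (fun x => f x ^ 2) κ) (a : ℝ) :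
    ∫ x, (f x - a) ^ 2 ∂κ = ∫ x, (f x - ∫ y, f y ∂κ) ^ 2 ∂κ + (∫ y, f y ∂κ - a) ^ 2 := by
  obtain ⟨c, hc⟩ : ∃ c, c = ∫ y, f y ∂κ := ⟨_, rfl⟩
  have hq : ∀ e : ℝ, ∫ x, (f x - e) ^ 2 ∂κ = ∫ x, f x ^ 2 ∂κ - 2 * e * c + e ^ 2 := by
    intro e
    have h4 : (fun x => (f x - e) ^ 2) = fun x => (f x ^ 2 - 2 * e * f x) + e ^ 2 := by
      funext x
      ring
    have h5 : Integrable (fun x => f x ^ 2 - 2 * e * f x) κ := h2.sub (h1.const_mul _)
    rw [h4, integral_add h5 (integrable_const _), integral_sub h2 (h1.const_mul _),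
      integral_const_mul, ← hc]
    simp
  rw [← hc, hq a, hq c]
  ring

variable {b : ℕ} {m : Fin b → ℕ}

theorem Φ_measz {N N' : ∀ i, Eu (Fin (m i)) → ℝ} (hN : ∀ i, Gg (N i)) (hN' : ∀ i, Gg (N' i))
    (hm : ∀ i, 1 ≤ m i) (z : E m) : Measurable (Φ N N' z) := by
  have hnt := nontriv hm
  have h := (Φ_meas hN hN').comp (measurable_prodMk_left (x := z))
  exact h

section

variable {D : Set (Eu (Fin b))} (hD : UBody D) {N : ∀ i, Eu (Fin (m i)) → ℝ}
  (hN : ∀ i, Gg (N i)) (hm : ∀ i, 1 ≤ m i)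

include hD hN hm

/-- the angular part -/
theorem angular {k : ℕ} {L : E m →L[ℝ] Eu (Fin k)} {s : ℝ} (hs : 0 < s)
    (hcov : ∀ φ : Eu (Fin k) →L[ℝ] ℝ, ∫ x, (φ (L x)) ^ 2 ∂(PS D N) ≤ s * ‖φ‖ ^ 2)
    {v : Eu (Fin k) → ℝ} (hv : ContDiff ℝ 1 v) {C : ℝ} (hC : ∀ x, ‖fderiv ℝ v x‖ ≤ C)
    (hB : ∀ x, |v x| ≤ 1) {A : ℝ} (hA : 0 ≤ A)
    (hP : ∀ i, PB (volume : Measure (Eu (Fin (m i)))) A (N i)) {T : ℝ} (hT0 : 0 ≤ T)
    (hT : ∑ i, Real.exp (-(T * m i)) ≤ 1) {r : ℝ} (hr0 : 0 ≤ r) :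
    ∫ z, ∫ y, (v (L (Φ N (NZ D N) z y)) -
      ∫ y', v (L (Φ N (NZ D N) z y')) ∂(KM N)) ^ 2 ∂(KM N) ∂(PS D (NZ D N)) ≤
      2 * Real.exp (-r) + A * (1080 * (1 + (T + r) / 3)) ^ 2 * (s * C ^ 2) := by
  have hnt := nontriv hm
  have hpi : ∀ i, IsProbabilityMeasure (un volume (N i)) := fun i => un_prob volume (hN i)
  have hKM : IsProbabilityMeasure (KM N) := KM_prob hD hN
  have hZ := NZ_gg hD hN hm
  have hPZ := PS_prob hD hZ
  have hPX := PS_prob hD hN
  have hΦ := Φ_meas hN hZ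
  have hC0 : 0 ≤ C := (norm_nonneg _).trans (hC 0)
  have hvm : Measurable fun x : E m => v (L x) := (hv.continuous.comp L.continuous).measurable
  have hGm : Measurable fun q : E m × E m => v (L (Φ N (NZ D N) q.1 q.2)) := hvm.comp hΦ
  obtain ⟨l, hl⟩ : ∃ l : ℝ, l = 1 + (T + r) / 3 := ⟨_, rfl⟩
  have hl1 : 1 ≤ l := by rw [hl]; linarith [div_nonneg (by linarith : (0:ℝ) ≤ T + r) zero_le_three]
  obtain ⟨τ, hτ⟩ : ∃ τ : Fin b → ℝ, τ = fun i => 1080 * l * Real.sqrt (c2 D N i) := ⟨_, rfl⟩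
  have hτ0 : ∀ i, 0 < τ i := fun i => by
    rw [hτ]
    have := Real.sqrt_pos.2 (c2_pos hD hN hm i)
    positivity
  have hτ2 : ∀ i, τ i ^ 2 = (1080 * l) ^ 2 * c2 D N i := fun i => by
    rw [hτ]
    simp only
    rw [mul_pow, Real.sq_sqrt (c2_pos hD hN hm i).le]
  -- the variance in `y`
  obtain ⟨V, hV⟩ : ∃ V : E m → ℝ, V = fun z => ∫ y, (v (L (Φ N (NZ D N) z y)) -
      ∫ y', v (L (Φ N (NZ D N) z y')) ∂(KM N)) ^ 2 ∂(KM N) := ⟨_, rfl⟩
  obtain ⟨I, hI⟩ : ∃ I : Fin b → E m → ℝ≥0∞, I = fun i z => ∫⁻ y, ENNReal.ofReal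
      ((v (L (Φ N (NZ D N) z y)) - ∫ t, v (L (Φ N (NZ D N) z (Function.update y i t)))
        ∂(un volume (N i))) ^ 2) ∂(KM N) := ⟨_, rfl⟩
  have hGz : ∀ z, Measurable fun y : E m => v (L (Φ N (NZ D N) z y)) := fun z =>
    hvm.comp (Φ_measz hN hZ hm z)
  have hV0 : ∀ z, 0 ≤ V z := fun z => by
    rw [hV]
    exact integral_nonneg fun y => sq_nonneg _
  have hV1 : ∀ z, V z ≤ 1 := by
    intro z
    have h1 : Integrable (fun y : E m => v (L (Φ N (NZ D N) z y))) (KM N) :=
      Integrable.of_bound (hGz z).aestronglyMeasurable 1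
        (Eventually.of_forall fun y => by rw [Real.norm_eq_abs]; exact hB _)
    have h2 : Integrable (fun y : E m => v (L (Φ N (NZ D N) z y)) ^ 2) (KM N) :=
      Integrable.of_bound ((hGz z).pow_const 2).aestronglyMeasurable 1
        (Eventually.of_forall fun y => by
          rw [Real.norm_eq_abs, abs_pow]
          exact pow_le_one₀ (abs_nonneg _) (hB _))
    have h3 := sq_split (KM N) h1 h2 0
    have h4 : ∫ y, (v (L (Φ N (NZ D N) z y)) - 0) ^ 2 ∂(KM N) ≤ 1 := by
      simp only [sub_zero]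
      calc _ ≤ ∫ _, (1 : ℝ) ∂(KM N) := integral_mono h2 (integrable_const _) fun y => by
            show v (L (Φ N (NZ D N) z y)) ^ 2 ≤ 1
            rw [← sq_abs]
            exact pow_le_one₀ (abs_nonneg _) (hB _)
        _ = 1 := by simp
    rw [hV]
    simp only
    nlinarith [sq_nonneg (∫ y, v (L (Φ N (NZ D N) z y)) ∂(KM N) - 0)]
  have hVI : ∀ z, ENNReal.ofReal (V z) ≤ ∑ i, I i z := by
    intro z
    have h1 := efron_stein (fun i => un volume (N i)) (fun y : E m => v (L (Φ N (NZ D N) z y)))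
      (hGz z) ⟨1, fun y => by rw [Real.norm_eq_abs]; exact hB _⟩
    have h2 : V z ≤ ∑ i, ∫ y, (v (L (Φ N (NZ D N) z y)) -
        ∫ t, v (L (Φ N (NZ D N) z (Function.update y i t))) ∂(un volume (N i))) ^ 2 ∂(KM N) := by
      rw [hV]
      simp only [Real.norm_eq_abs, sq_abs] at h1
      exact h1
    refine (ENNReal.ofReal_le_ofReal h2).trans ?_
    rw [ENNReal.ofReal_sum_of_nonneg fun i _ => integral_nonneg fun y => sq_nonneg _]
    refine Finset.sum_le_sum fun i _ => ?_
    rw [hI]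
    simp only
    have h3 : StronglyMeasurable fun q : E m × Eu (Fin (m i)) =>
        v (L (Φ N (NZ D N) z (Function.update q.1 i q.2))) :=
      ((hGz z).comp measurable_update').stronglyMeasurable
    have h4 : Measurable fun y : E m => v (L (Φ N (NZ D N) z y)) -
        ∫ t, v (L (Φ N (NZ D N) z (Function.update y i t))) ∂(un volume (N i)) :=
      (hGz z).sub h3.integral_prod_right'.measurable
    refine le_of_eq (ofReal_integral_eq_lintegral_ofReal ?_
      (Eventually.of_forall fun y => sq_nonneg _))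
    refine Integrable.of_bound (h4.pow_const 2).aestronglyMeasurable (2 ^ 2)
      (Eventually.of_forall fun y => ?_)
    rw [Real.norm_eq_abs, abs_pow]
    refine pow_le_pow_left₀ (abs_nonneg _) ?_ 2
    refine (abs_sub _ _).trans ?_
    have h5 : |∫ t, v (L (Φ N (NZ D N) z (Function.update y i t))) ∂(un volume (N i))| ≤ 1 := by
      rw [← Real.norm_eq_abs]
      refine (norm_integral_le_of_norm_le_const (C := 1) (Eventually.of_forall fun t => ?_)).trans
        (by simp)
      rw [Real.norm_eq_abs]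
      exact hB _
    linarith [hB (L (Φ N (NZ D N) z y))]
  have hIm : ∀ i, Measurable (I i) := by
    intro i
    rw [hI]
    have h1 : StronglyMeasurable fun q : (E m × E m) × Eu (Fin (m i)) =>
        v (L (Φ N (NZ D N) q.1.1 (Function.update q.1.2 i q.2))) := by
      refine (hGm.comp (g := fun q : E m × E m => v (L (Φ N (NZ D N) q.1 q.2)))
        (f := fun q : (E m × E m) × Eu (Fin (m i)) => (q.1.1, Function.update q.1.2 i q.2))
        ?_).stronglyMeasurable
      exact (measurable_fst.comp measurable_fst).prodMk (measurable_update'.comp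
        ((measurable_snd.comp measurable_fst).prodMk measurable_snd))
    exact Measurable.lintegral_prod_right'
      ((hGm.sub h1.integral_prod_right'.measurable).pow_const 2).ennreal_ofReal
  have hWm : ∀ i, MeasurableSet (Wi D (NZ D N) i (τ i)) := fun i => Wi_meas hD hZ i (τ i)
  -- pointwise bound
  have hpt : ∀ z, ENNReal.ofReal (V z) ≤ ∑ i, (Wi D (NZ D N) i (τ i))ᶜ.indicator
      (1 : E m → ℝ≥0∞) z + ∑ i, (Wi D (NZ D N) i (τ i)).indicator (I i) z := by
    intro z
    by_cases hz : ∀ i, z ∈ Wi D (NZ D N) i (τ i)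
    · refine (hVI z).trans (le_trans (le_of_eq ?_) le_add_self)
      exact Finset.sum_congr rfl fun i _ => (indicator_of_mem (hz i) _).symm
    · push Not at hz
      obtain ⟨i, hi⟩ := hz
      have h1 : (1 : ℝ≥0∞) ≤ ∑ i, (Wi D (NZ D N) i (τ i))ᶜ.indicator (1 : E m → ℝ≥0∞) z := by
        refine le_trans (le_of_eq ?_) (Finset.single_le_sum (f := fun i =>
          (Wi D (NZ D N) i (τ i))ᶜ.indicator (1 : E m → ℝ≥0∞) z) (fun _ _ => zero_le)
          (Finset.mem_univ i))
        rw [indicator_of_mem (show z ∈ (Wi D (NZ D N) i (τ i))ᶜ from hi)]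
        rfl
      refine le_trans ?_ (h1.trans le_self_add)
      rw [← ENNReal.ofReal_one]
      exact ENNReal.ofReal_le_ofReal (hV1 z)
  -- the exceptional sets
  have hbad : ∑ i, PS D (NZ D N) (Wi D (NZ D N) i (τ i))ᶜ ≤
      ENNReal.ofReal (2 * Real.exp (-r)) := by
    calc _ ≤ ∑ i, ENNReal.ofReal (2 * (Real.exp (-r) * Real.exp (-(T * m i)))) := by
          refine Finset.sum_le_sum fun i _ => ?_
          refine (bad hD hZ hm i (hτ0 i)).trans ?_
          have h1 := tail1 hD hN hm i hl1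
          have h2 : 540 * l * Real.sqrt (c2 D N i) = τ i / 2 := by
            rw [hτ]
            ring
          rw [h2] at h1
          rw [ENNReal.ofReal_mul zero_le_two, ENNReal.ofReal_ofNat]
          refine mul_le_mul_right (h1.trans (ENNReal.ofReal_le_ofReal ?_)) _
          rw [← Real.exp_add, Real.exp_le_exp, hl]
          have hmi : (1 : ℝ) ≤ m i := by exact_mod_cast hm i
          nlinarith
      _ = ENNReal.ofReal (∑ i, 2 * (Real.exp (-r) * Real.exp (-(T * m i)))) := by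
          rw [ENNReal.ofReal_sum_of_nonneg fun i _ => by positivity]
      _ ≤ _ := by
          refine ENNReal.ofReal_le_ofReal ?_
          rw [← Finset.mul_sum, ← Finset.mul_sum]
          have h3 : 0 < Real.exp (-r) := Real.exp_pos _
          nlinarith
  -- the blocks
  have hblk : ∀ i, ∫⁻ z, (Wi D (NZ D N) i (τ i)).indicator (I i) z ∂(PS D (NZ D N)) ≤
      ENNReal.ofReal (A * τ i ^ 2) * ∫⁻ x, ENNReal.ofReal (qi N L v i x) ∂(PS D N) := by
    intro i
    have h1 := ang hD hN hZ L hv hm i hA (hP i) (hτ0 i).le hB hC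
    have h2 : ∀ J : E m → ℝ≥0∞, ∫⁻ z, (Wi D (NZ D N) i (τ i)).indicator J z ∂(PS D (NZ D N)) =
        (volume (SS D (NZ D N)))⁻¹ * ∫⁻ z in SS D (NZ D N) ∩ Wi D (NZ D N) i (τ i), J z := by
      intro J
      rw [PS, lintegral_smul_measure, smul_eq_mul, lintegral_indicator (hWm i),
        Measure.restrict_restrict (hWm i), inter_comm]
    rw [h2, hI]
    refine (mul_le_mul_right h1 _).trans ?_
    have hq0 : Measurable fun x => ENNReal.ofReal (qi N L v i x) :=
      (qi_cont hN L hv hm i).measurable.ennreal_ofReal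
    rw [← law_l hD hN hZ hm hq0, mul_left_comm, ← h2 (fun z => ∫⁻ y, ENNReal.ofReal
      (qi N L v i (Φ N (NZ D N) z y)) ∂(KM N))]
    refine mul_le_mul_right (lintegral_mono fun z => ?_) _
    exact indicator_le_self _ _ _
  -- the sum over the blocks
  have hsum : ∑ i, ENNReal.ofReal (A * τ i ^ 2) * ∫⁻ x, ENNReal.ofReal (qi N L v i x) ∂(PS D N) ≤
      ENNReal.ofReal (A * (1080 * l) ^ 2 * (s * C ^ 2)) := by
    have hqc := fun i => qi_cont (L := L) hN hv hm i
    have hq0 : ∀ i x, 0 ≤ qi N L v i x := fun i x => integral_nonneg fun y => sq_nonneg _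
    have h1 : ∀ i, ENNReal.ofReal (A * τ i ^ 2) * ∫⁻ x, ENNReal.ofReal (qi N L v i x)
        ∂(PS D N) = ∫⁻ x, ENNReal.ofReal (A * (1080 * l) ^ 2 * (c2 D N i * qi N L v i x))
          ∂(PS D N) := by
      intro i
      rw [← lintegral_const_mul _ (hqc i).measurable.ennreal_ofReal]
      refine lintegral_congr fun x => ?_
      rw [← ENNReal.ofReal_mul (by positivity), hτ2]
      congr 1
      ring
    simp_rw [h1]
    rw [← lintegral_finsetSum _ fun i _ => (((hqc i).measurable.const_mul _).const_mul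
      _).ennreal_ofReal]
    calc _ ≤ ∫⁻ _, ENNReal.ofReal (A * (1080 * l) ^ 2 * (s * C ^ 2)) ∂(PS D N) := by
          refine lintegral_mono fun x => ?_
          rw [← ENNReal.ofReal_sum_of_nonneg fun i _ => by
            have := c2_pos hD hN hm i
            have := hq0 i x
            positivity]
          refine ENNReal.ofReal_le_ofReal ?_
          rw [← Finset.mul_sum]
          exact mul_le_mul_of_nonneg_left (q_sum hD hN hm hs hcov hv hC x) (by positivity)
      _ = _ := by simp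
  -- conclusion
  have hVm : Measurable V := by
    rw [hV]
    have h1 : StronglyMeasurable fun q : E m × E m => v (L (Φ N (NZ D N) q.1 q.2)) :=
      hGm.stronglyMeasurable
    have h2 : Measurable fun z : E m => ∫ y', v (L (Φ N (NZ D N) z y')) ∂(KM N) :=
      h1.integral_prod_right'.measurable
    exact ((hGm.sub (h2.comp measurable_fst)).pow_const
      2).stronglyMeasurable.integral_prod_right'.measurable
  have hfin : ENNReal.ofReal (∫ z, V z ∂(PS D (NZ D N))) ≤
      ENNReal.ofReal (2 * Real.exp (-r) + A * (1080 * l) ^ 2 * (s * C ^ 2)) := by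
    rw [ofReal_integral_eq_lintegral_ofReal (Integrable.of_bound hVm.aestronglyMeasurable 1
      (Eventually.of_forall fun z => by
        rw [Real.norm_eq_abs, abs_of_nonneg (hV0 z)]
        exact hV1 z)) (Eventually.of_forall hV0)]
    refine (lintegral_mono hpt).trans ?_
    have hm1 : ∀ i, Measurable ((Wi D (NZ D N) i (τ i))ᶜ.indicator (1 : E m → ℝ≥0∞)) := fun i =>
      measurable_one.indicator (hWm i).compl
    have hm2 : ∀ i, Measurable ((Wi D (NZ D N) i (τ i)).indicator (I i)) := fun i =>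
      (hIm i).indicator (hWm i)
    rw [lintegral_add_left (Finset.measurable_fun_sum _ fun i _ => hm1 i),
      lintegral_finsetSum _ fun i _ => hm1 i, lintegral_finsetSum _ fun i _ => hm2 i,
      ENNReal.ofReal_add (by positivity) (by positivity)]
    refine add_le_add ?_ ?_
    · refine le_trans (le_of_eq ?_) hbad
      refine Finset.sum_congr rfl fun i _ => ?_
      rw [lintegral_indicator_one (hWm i).compl]
    · exact (Finset.sum_le_sum fun i _ => hblk i).trans hsum
  rw [hV] at hfin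
  rw [hl] at hfin
  exact (ENNReal.ofReal_le_ofReal_iff (by positivity)).1 hfin

/-- **concentration** -/
theorem conc {k : ℕ} {L : E m →L[ℝ] Eu (Fin k)} {s : ℝ} (hs : 0 < s)
    (hcov : ∀ φ : Eu (Fin k) →L[ℝ] ℝ, ∫ x, (φ (L x)) ^ 2 ∂(PS D N) ≤ s * ‖φ‖ ^ 2)
    {v : Eu (Fin k) → ℝ} (hv : ContDiff ℝ 1 v) {C : ℝ} (hC1 : 0 < C)
    (hC : ∀ x, ‖fderiv ℝ v x‖ ≤ C)
    (hB : ∀ x, |v x| ≤ 1) {A : ℝ} (hA : 0 ≤ A)
    (hP : ∀ i, PB (volume : Measure (Eu (Fin (m i)))) A (N i)) {T : ℝ} (hT0 : 0 ≤ T)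
    (hT : ∑ i, Real.exp (-(T * m i)) ≤ 1) {r : ℝ} (hr0 : 0 ≤ r) :
    ∫ x, (v (L x) - ∫ x', v (L x') ∂(PS D N)) ^ 2 ∂(PS D N) ≤
      2 * Real.exp (-r) + (A * (1080 * (1 + (T + r) / 3)) ^ 2 +
        (2 * (CC * (1 + T) ^ 2) + 2)) * (s * C ^ 2) := by
  have hKM : IsProbabilityMeasure (KM N) := KM_prob hD hN
  have hnt := nontriv hm
  have hZ := NZ_gg hD hN hm
  have hPZ := PS_prob hD hZ
  have hPX := PS_prob hD hN
  have hΦ := Φ_meas hN hZ
  have hvc : Continuous fun x : E m => v (L x) := hv.continuous.comp L.continuous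
  have hGm : Measurable fun q : E m × E m => v (L (Φ N (NZ D N) q.1 q.2)) :=
    hvc.measurable.comp hΦ
  obtain ⟨a, ha⟩ : ∃ a, a = ∫ x', v (L x') ∂(PS D N) := ⟨_, rfl⟩
  obtain ⟨Fb, hFb⟩ : ∃ Fb : E m → ℝ, Fb = fun z => ∫ y, v (L (Φ N (NZ D N) z y)) ∂(KM N) :=
    ⟨_, rfl⟩
  have haF : a = ∫ z, Fb z ∂(PS D (NZ D N)) := by
    rw [ha, law_i hD hN hZ hm hvc, hFb]
  rw [← ha, law_i hD hN hZ hm (f := fun x => (v (L x) - a) ^ 2)
    ((hvc.sub continuous_const).pow 2)]
  have hsp : ∀ z, ∫ y, (v (L (Φ N (NZ D N) z y)) - a) ^ 2 ∂(KM N) =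
      ∫ y, (v (L (Φ N (NZ D N) z y)) - ∫ y', v (L (Φ N (NZ D N) z y')) ∂(KM N)) ^ 2 ∂(KM N) +
        (Fb z - a) ^ 2 := by
    intro z
    have hGz : Measurable fun y : E m => v (L (Φ N (NZ D N) z y)) :=
      hvc.measurable.comp (Φ_measz hN hZ hm z)
    have h1 : Integrable (fun y : E m => v (L (Φ N (NZ D N) z y))) (KM N) :=
      Integrable.of_bound hGz.aestronglyMeasurable 1
        (Eventually.of_forall fun y => by rw [Real.norm_eq_abs]; exact hB _)
    have h2 : Integrable (fun y : E m => v (L (Φ N (NZ D N) z y)) ^ 2) (KM N) :=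
      Integrable.of_bound (hGz.pow_const 2).aestronglyMeasurable 1
        (Eventually.of_forall fun y => by
          rw [Real.norm_eq_abs, abs_pow]
          exact pow_le_one₀ (abs_nonneg _) (hB _))
    rw [hFb]
    exact sq_split (KM N) h1 h2 a
  simp_rw [hsp]
  have hFl : ∀ z z', |Fb z - Fb z'| ≤ (C * Real.sqrt s) *
      Real.sqrt (∑ i, ‖z i - z' i‖ ^ 2) := by
    intro z z'
    rw [hFb]
    exact lipF hD hN hm hs hcov hv hC hB z z'
  have hrd := rad hD hN hm hT0 hT (F := Fb) (κ := C * Real.sqrt s)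
    (mul_pos hC1 (Real.sqrt_pos.2 hs)) hFl
  rw [← haF] at hrd
  have hFm : Measurable Fb := by
    rw [hFb]
    exact hGm.stronglyMeasurable.integral_prod_right'.measurable
  have hFb1 : ∀ z, |Fb z| ≤ 1 := by
    intro z
    rw [hFb, ← Real.norm_eq_abs]
    refine (norm_integral_le_of_norm_le_const (C := 1) (Eventually.of_forall fun t => ?_)).trans
      (by simp)
    rw [Real.norm_eq_abs]
    exact hB _
  have ha1 : |a| ≤ 1 := by
    rw [ha, ← Real.norm_eq_abs]
    refine (norm_integral_le_of_norm_le_const (C := 1) (Eventually.of_forall fun t => ?_)).trans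
      (by simp)
    rw [Real.norm_eq_abs]
    exact hB _
  have hi1 : Integrable (fun z => (Fb z - a) ^ 2) (PS D (NZ D N)) := by
    refine Integrable.of_bound ((hFm.sub_const a).pow_const 2).aestronglyMeasurable (2 ^ 2)
      (Eventually.of_forall fun z => ?_)
    rw [Real.norm_eq_abs, abs_pow]
    refine pow_le_pow_left₀ (abs_nonneg _) ?_ 2
    refine (abs_sub _ _).trans ?_
    linarith [hFb1 z]
  have hi2 : Integrable (fun z => ∫ y, (v (L (Φ N (NZ D N) z y)) -
      ∫ y', v (L (Φ N (NZ D N) z y')) ∂(KM N)) ^ 2 ∂(KM N)) (PS D (NZ D N)) := by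
    have h1 : StronglyMeasurable fun q : E m × E m => (v (L (Φ N (NZ D N) q.1 q.2)) -
        ∫ y', v (L (Φ N (NZ D N) q.1 y')) ∂(KM N)) ^ 2 := by
      have h2 : Measurable fun z : E m => ∫ y', v (L (Φ N (NZ D N) z y')) ∂(KM N) :=
        hGm.stronglyMeasurable.integral_prod_right'.measurable
      exact ((hGm.sub (h2.comp measurable_fst)).pow_const 2).stronglyMeasurable
    refine Integrable.of_bound h1.integral_prod_right'.aestronglyMeasurable (2 ^ 2)
      (Eventually.of_forall fun z => ?_)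
    refine (norm_integral_le_of_norm_le_const (C := 2 ^ 2)
      (Eventually.of_forall fun y => ?_)).trans (by simp)
    rw [Real.norm_eq_abs, abs_pow]
    refine pow_le_pow_left₀ (abs_nonneg _) ?_ 2
    refine (abs_sub _ _).trans ?_
    have h3 := hFb1 z
    rw [hFb] at h3
    linarith [hB (L (Φ N (NZ D N) z y))]
  rw [integral_add hi2 hi1]
  have hang := angular hD hN hm hs hcov hv hC hB hA hP hT0 hT hr0
  have e1 : (C * Real.sqrt s) ^ 2 = s * C ^ 2 := by
    rw [mul_pow, Real.sq_sqrt hs.le]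
    ring
  rw [e1] at hrd
  calc _ ≤ (2 * Real.exp (-r) + A * (1080 * (1 + (T + r) / 3)) ^ 2 * (s * C ^ 2)) +
        (2 * (CC * (1 + T) ^ 2) + 2) * (s * C ^ 2) := add_le_add hang hrd
    _ = _ := by ring

end

end Pool.Agent.W5h44.DS
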