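import Pool.Agent.W5h44.DS.Law
import Pool.Agent.W5h44.DS.Blk

/-!
# Second moments of `D`-sums
-/

set_option autoImplicit false
set_option linter.unusedSectionVars false

namespace Pool.Agent.W5h44.DS

open MeasureTheory Set Filter Topology Module
open scoped ENNReal InnerProductSpace
open Pool.Agent.R751.MB (Eu UBody Body)

section odd

variable {F : Type} [NormedAddCommGroup F] [NormedSpace ℝ F] [FiniteDimensional ℝ F]
  [MeasurableSpace F] [BorelSpace F] (μ : Measure F) [μ.IsAddHaarMeasure]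
  {W : Type} [NormedAddCommGroup W] [NormedSpace ℝ W]

theorem odd_zero {K : Set F} (hK : MeasurableSet K) (hs : ∀ x ∈ K, -x ∈ K) {ψ : F → W}
    (hodd : ∀ x, ψ (-x) = -ψ x) : ∫ x in K, ψ x ∂μ = 0 := by
  rw [← integral_indicator hK]
  have h1 := Measure.integral_comp_smul μ (K.indicator ψ) (-1)
  have h2 : |(((-1 : ℝ) ^ finrank ℝ F)⁻¹)| = 1 := by
    rw [abs_inv, abs_pow, abs_neg, abs_one, one_pow, inv_one]
  rw [h2, one_smul] at h1
  have h3 : ∀ x, K.indicator ψ ((-1 : ℝ) • x) = -K.indicator ψ x := by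
    intro x
    rw [neg_one_smul]
    by_cases hx : x ∈ K
    · rw [indicator_of_mem hx, indicator_of_mem (hs x hx), hodd]
    · have hx' : -x ∉ K := fun h => hx (by simpa using hs _ h)
      rw [indicator_of_notMem hx, indicator_of_notMem hx', neg_zero]
  simp_rw [h3] at h1
  rw [integral_neg] at h1
  have h4 : (2 : ℝ) • ∫ x, K.indicator ψ x ∂μ = 0 := by
    rw [two_smul]
    nth_rewrite 1 [← h1]
    rw [neg_add_cancel]
  exact (smul_eq_zero.1 h4).resolve_left two_ne_zero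

variable {N : F → ℝ}

theorem Gg.neg (h : Gg N) (x : F) : N (-x) = N x := by
  have := h.smul (-1) x
  simpa using this

theorem un_odd (hN : Gg N) {ψ : F → W} (hodd : ∀ x, ψ (-x) = -ψ x) :
    ∫ x, ψ x ∂(un μ N) = 0 := by
  rw [un, integral_smul_measure, odd_zero μ (measurableSet_le hN.cont.measurable measurable_const)
    (fun x (hx : N x ≤ 1) => show N (-x) ≤ 1 by rw [hN.neg]; exact hx) hodd, smul_zero]

end odd

/-- the direction with respect to `N` -/
noncomputable def hat {F : Type} [NormedAddCommGroup F] [NormedSpace ℝ F] (N : F → ℝ) (y : F) : F :=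
  (N y)⁻¹ • y

section hat

variable {F : Type} [NormedAddCommGroup F] [NormedSpace ℝ F] [FiniteDimensional ℝ F]
  [MeasurableSpace F] [BorelSpace F] {N : F → ℝ}

theorem hat_bdd (hN : Gg N) : ∃ R : ℝ, 0 ≤ R ∧ ∀ y, ‖hat N y‖ ≤ R := by
  obtain ⟨c, hc, H⟩ := hN.lower
  refine ⟨c⁻¹, by positivity, fun y => ?_⟩
  unfold hat
  rw [norm_smul, Real.norm_eq_abs, abs_inv, abs_of_nonneg (hN.nonneg y)]
  by_cases hy : y = 0
  · rw [hy, norm_zero, mul_zero]
    positivity
  · have hp := hN.pos y hy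
    rw [inv_mul_le_iff₀ hp, ← div_eq_mul_inv, le_div_iff₀ hc, mul_comm]
    exact H y

theorem hat_neg (hN : Gg N) (y : F) : hat N (-y) = -hat N y := by
  unfold hat
  rw [hN.neg, smul_neg]

theorem hat_meas (hN : Gg N) : Measurable (hat N) := hN.cont.measurable.inv.smul measurable_id

theorem smul_hat (hN : Gg N) (y : F) : N y • hat N y = y := by
  unfold hat
  by_cases hy : y = 0
  · rw [hy]
    simp
  · rw [smul_smul, mul_inv_cancel₀ (hN.pos y hy).ne', one_smul]

end hat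

variable {b : ℕ} {m : Fin b → ℕ}

section

variable {D : Set (Eu (Fin b))} (hD : UBody D) {N N' : ∀ i, Eu (Fin (m i)) → ℝ}
  (hN : ∀ i, Gg (N i)) (hN' : ∀ i, Gg (N' i))

theorem Φ_hat (z y : E m) (i : Fin b) : Φ N N' z y i = N' i (z i) • hat (N i) (y i) := by
  unfold Φ hat
  rw [smul_smul, div_eq_mul_inv]

include hD hN

/-- orthogonality of odd functions of different blocks -/
theorem ortho {W : Type} [NormedAddCommGroup W] [InnerProductSpace ℝ W]
    (ψ : ∀ i, Eu (Fin (m i)) → W) (hψ : ∀ i, StronglyMeasurable (ψ i))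
    (hodd : ∀ i x, ψ i (-x) = -ψ i x) (hR : ∀ i, ∃ R : ℝ, ∀ y, ‖ψ i y‖ ≤ R) (a : Fin b → ℝ) :
    ∫ y, ‖∑ i, a i • ψ i (y i)‖ ^ 2 ∂(KM N) =
      ∑ i, a i ^ 2 * ∫ t, ‖ψ i t‖ ^ 2 ∂(un volume (N i)) := by
  have hpi : ∀ i, IsProbabilityMeasure (un volume (N i)) := fun i => un_prob volume (hN i)
  have hKM : IsProbabilityMeasure (KM N) := KM_prob hD hN
  choose R hR using hR
  have hm1 : ∀ i, StronglyMeasurable fun y : E m => ψ i (y i) := fun i =>
    (hψ i).comp_measurable (measurable_pi_apply i)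
  have hb : ∀ i j (x : Eu (Fin (m i))) (y : Eu (Fin (m j))),
      ‖⟪ψ i x, ψ j y⟫_ℝ‖ ≤ R i * R j := fun i j x y =>
    (norm_inner_le_norm _ _).trans (mul_le_mul (hR _ _) (hR _ _) (norm_nonneg _)
      ((norm_nonneg _).trans (hR i x)))
  have hint : ∀ i j, Integrable (fun y : E m => ⟪ψ i (y i), ψ j (y j)⟫_ℝ) (KM N) := fun i j =>
    Integrable.of_bound ((hm1 i).inner (hm1 j)).aestronglyMeasurable (R i * R j)
      (Eventually.of_forall fun y => hb i j _ _)
  have hij : ∀ i j, i ≠ j → ∫ y, ⟪ψ i (y i), ψ j (y j)⟫_ℝ ∂(KM N) = 0 := by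
    intro i j hne
    have h1 := rs_resample (fun i => un volume (N i)) i (fun y : E m => ⟪ψ i (y i), ψ j (y j)⟫_ℝ)
      ((hm1 i).inner (hm1 j)) (R i * R j) (fun y => hb i j _ _)
    have h2 : ∀ y : E m, ∫ t, ⟪ψ i (Function.update y i t i), ψ j (Function.update y i t j)⟫_ℝ
        ∂(un volume (N i)) = 0 := by
      intro y
      simp only [Function.update_self, Function.update_of_ne (Ne.symm hne)]
      have h3 : ∀ t, ⟪ψ i t, ψ j (y j)⟫_ℝ = ⟪ψ j (y j), ψ i t⟫_ℝ := fun t =>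
        real_inner_comm _ _
      simp_rw [h3]
      by_cases hc : CompleteSpace W
      · rw [integral_inner]
        · rw [un_odd volume (hN i) (hodd i), inner_zero_right]
        · exact Integrable.of_bound (hψ i).aestronglyMeasurable (R i)
            (Eventually.of_forall fun y => hR i _)
      · exact un_odd volume (hN i) (ψ := fun t => ⟪ψ j (y j), ψ i t⟫_ℝ) fun x => by
          rw [hodd, inner_neg_right]
    simp_rw [h2] at h1
    rw [integral_zero] at h1
    exact h1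
  have hex : ∀ y : E m, ‖∑ i, a i • ψ i (y i)‖ ^ 2 =
      ∑ i, ∑ j, a i * a j * ⟪ψ i (y i), ψ j (y j)⟫_ℝ := by
    intro y
    rw [← real_inner_self_eq_norm_sq, sum_inner]
    refine Finset.sum_congr rfl fun i _ => ?_
    rw [inner_sum]
    refine Finset.sum_congr rfl fun j _ => ?_
    rw [real_inner_smul_left, real_inner_smul_right]
    ring
  simp_rw [hex]
  rw [integral_finsetSum _ fun i _ => integrable_finsetSum _ fun j _ => (hint i j).const_mul _]
  refine Finset.sum_congr rfl fun i _ => ?_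
  rw [integral_finsetSum _ fun j _ => (hint i j).const_mul _, Finset.sum_eq_single i]
  · rw [integral_const_mul, ← pow_two]
    congr 1
    have h1 : (fun y : E m => ⟪ψ i (y i), ψ i (y i)⟫_ℝ) = fun y : E m => ‖ψ i (y i)‖ ^ 2 := by
      funext y
      rw [real_inner_self_eq_norm_sq]
    rw [h1]
    have hmp := measurePreserving_eval (fun i => un volume (N i)) i
    have h5 : StronglyMeasurable fun t => ‖ψ i t‖ ^ 2 := (hψ i).norm.pow 2
    rw [← hmp.map_eq, integral_map hmp.measurable.aemeasurable h5.aestronglyMeasurable]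
    rfl
  · intro j _ hj
    rw [integral_const_mul, hij i j (Ne.symm hj), mul_zero]
  · intro h
    exact absurd (Finset.mem_univ i) h

/-- the quadratic form of one block -/
noncomputable def UU {W : Type} [NormedAddCommGroup W] [NormedSpace ℝ W]
    (N : ∀ i, Eu (Fin (m i)) → ℝ) (i : Fin b) (ℓ : Eu (Fin (m i)) →L[ℝ] W) : ℝ :=
  ∫ y, ‖ℓ (hat (N i) y)‖ ^ 2 ∂(un volume (N i))

omit hD in
theorem UU_nonneg {W : Type} [NormedAddCommGroup W] [NormedSpace ℝ W] (i : Fin b)
    (ℓ : Eu (Fin (m i)) →L[ℝ] W) : 0 ≤ UU N i ℓ := integral_nonneg fun y => by positivity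

omit hD in
theorem sm_hat {W : Type} [NormedAddCommGroup W] [NormedSpace ℝ W] (i : Fin b)
    (ℓ : Eu (Fin (m i)) →L[ℝ] W) :
    StronglyMeasurable fun y => ℓ (hat (N i) y) :=
  ℓ.continuous.comp_stronglyMeasurable (hat_meas (hN i)).stronglyMeasurable

omit hD in
theorem bd_hat {W : Type} [NormedAddCommGroup W] [NormedSpace ℝ W] (i : Fin b)
    (ℓ : Eu (Fin (m i)) →L[ℝ] W) : ∃ R : ℝ, ∀ y, ‖ℓ (hat (N i) y)‖ ≤ R := by
  obtain ⟨R, hR0, hR⟩ := hat_bdd (hN i)
  exact ⟨‖ℓ‖ * R, fun y => (ℓ.le_opNorm _).trans (mul_le_mul_of_nonneg_left (hR y) (norm_nonneg _))⟩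

theorem ortho_hat {W : Type} [NormedAddCommGroup W] [InnerProductSpace ℝ W]
    (ℓ : ∀ i, Eu (Fin (m i)) →L[ℝ] W) (a : Fin b → ℝ) :
    ∫ y, ‖∑ i, a i • ℓ i (hat (N i) (y i))‖ ^ 2 ∂(KM N) = ∑ i, a i ^ 2 * UU N i (ℓ i) :=
  ortho hD hN (fun i y => ℓ i (hat (N i) y)) (fun i => sm_hat hN i _)
    (fun i x => by rw [hat_neg (hN i), map_neg]) (fun i => bd_hat hN i _) a

/-- second moments of the gauges -/
noncomputable def c2 (D : Set (Eu (Fin b))) (N : ∀ i, Eu (Fin (m i)) → ℝ) (i : Fin b) : ℝ :=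
  ∫ x, N i (x i) ^ 2 ∂(PS D N)

theorem PS_bdd {W : Type} [NormedAddCommGroup W] {f : E m → W} (hf : Continuous f) :
    ∃ R : ℝ, 0 ≤ R ∧ ∀ᵐ x ∂(PS D N), ‖f x‖ ≤ R := by
  obtain ⟨R, hR⟩ := (SS_compact hD hN).exists_bound_of_continuousOn hf.continuousOn
  refine ⟨max R 0, le_max_right _ _, ?_⟩
  unfold PS
  refine Measure.ae_smul_measure ?_ _
  rw [ae_restrict_iff' (SS_compact hD hN).measurableSet]
  exact Eventually.of_forall fun y hy => (hR y hy).trans (le_max_left _ _)

theorem PS_int {f : E m → ℝ} (hf : Continuous f) : Integrable f (PS D N) := by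
  have := PS_prob hD hN
  obtain ⟨R, _, hR⟩ := PS_bdd hD hN hf
  exact Integrable.of_bound hf.aestronglyMeasurable R hR

theorem cont_N (i : Fin b) : Continuous fun x : E m => N i (x i) :=
  (hN i).cont.comp (continuous_apply i)

theorem c2_pos (hm : ∀ i, 1 ≤ m i) (i : Fin b) : 0 < c2 D N i := by
  have hnt := nontriv hm
  have hprob := PS_prob hD hN
  have hc : Continuous fun x : E m => N i (x i) ^ 2 := (cont_N hD hN i).pow 2
  unfold c2
  rw [integral_pos_iff_support_of_nonneg (fun x => sq_nonneg _) (PS_int hD hN hc)]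
  obtain ⟨τ, hτ, hpos⟩ := exists_pos hD
  -- a nonempty open subset
  obtain ⟨x0, hx0⟩ := exists_ne (0 : Eu (Fin (m i)))
  obtain ⟨U, hU⟩ : ∃ U : Set (E m), U = (univ.pi fun j => {x : Eu (Fin (m j)) | N j x < τ j}) ∩
    {x | 0 < N i (x i)} := ⟨_, rfl⟩
  have hUo : IsOpen U := by
    rw [hU]
    exact (isOpen_set_pi finite_univ fun j _ => isOpen_lt (hN j).cont continuous_const).inter
      (isOpen_lt continuous_const (cont_N hD hN i))
  have hUne : U.Nonempty := by
    obtain ⟨t, ht⟩ : ∃ t : ℝ, t = τ i / (2 * N i x0) := ⟨_, rfl⟩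
    have hp := (hN i).pos x0 hx0
    have ht0 : 0 < t := by rw [ht]; exact div_pos (hpos i) (by positivity)
    have hN1 : N i (t • x0) = τ i / 2 := by
      rw [(hN i).smul, abs_of_pos ht0, ht]
      field_simp
    refine ⟨Function.update 0 i (t • x0), ?_⟩
    rw [hU]
    refine ⟨fun j _ => ?_, ?_⟩
    · show N j (Function.update (0 : E m) i (t • x0) j) < τ j
      by_cases hj : j = i
      · subst hj
        rw [Function.update_self, hN1]
        linarith [hpos j]
      · rw [Function.update_of_ne hj, Pi.zero_apply, (hN j).zero]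
        exact hpos j
    · show 0 < N i (Function.update (0 : E m) i (t • x0) i)
      rw [Function.update_self, hN1]
      linarith [hpos i]
  have hsub : U ⊆ SS D N := by
    intro x hx
    rw [hU] at hx
    refine hD.unc τ hτ _ fun j => ?_
    have h1 : N j (x j) < τ j := hx.1 j (mem_univ j)
    simp only
    rw [abs_of_nonneg ((hN j).nonneg _), abs_of_pos (hpos j)]
    exact h1.le
  have hsup : U ⊆ Function.support fun x : E m => N i (x i) ^ 2 := by
    intro x hx
    rw [hU] at hx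
    have h1 : 0 < N i (x i) := hx.2
    exact (pow_pos h1 2).ne'
  refine lt_of_lt_of_le ?_ (measure_mono hsup)
  rw [PS, Measure.smul_apply, Measure.restrict_apply hUo.measurableSet,
    inter_eq_self_of_subset_left hsub, smul_eq_mul]
  exact ENNReal.mul_pos (ENNReal.inv_ne_zero.2 (SS_lt hD hN).ne)
    (hUo.measure_pos volume hUne).ne'

include hN'

/-- change of variables for integrals -/
theorem law_i (hm : ∀ i, 1 ≤ m i) {f : E m → ℝ} (hf : Continuous f) :
    ∫ x, f x ∂(PS D N) = ∫ z, ∫ y, f (Φ N N' z y) ∂(KM N) ∂(PS D N') := by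
  have h1 := KM_prob hD hN
  have h2 := PS_prob hD hN'
  have h3 := PS_prob hD hN
  have hnt := nontriv hm
  have hΦ := Φ_meas hN hN'
  have hl := law hD hN hN' hm
  have hi : Integrable f (((PS D N').prod (KM N)).map (fun q => Φ N N' q.1 q.2)) := by
    rw [hl]
    exact PS_int hD hN hf
  rw [← hl, integral_map hΦ.aemeasurable hf.aestronglyMeasurable, integral_prod]
  exact (integrable_map_measure hf.aestronglyMeasurable hΦ.aemeasurable).1 hi

theorem c2_eq (hm : ∀ i, 1 ≤ m i) (i : Fin b) : c2 D N i = ∫ z, N' i (z i) ^ 2 ∂(PS D N') := by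
  have h1 := KM_prob hD hN
  unfold c2
  rw [law_i hD hN hN' hm (f := fun x => N i (x i) ^ 2) ((cont_N hD hN i).pow 2)]
  refine integral_congr_ae (Eventually.of_forall fun z => ?_)
  have h2 : ∀ᵐ y ∂(KM N), N i (Φ N N' z y i) ^ 2 = N' i (z i) ^ 2 := by
    filter_upwards [KM_ne hD hN hm] with y hy
    have hyi := (hN i).pos _ (hy i)
    unfold Φ
    rw [(hN i).smul, abs_of_nonneg (div_nonneg ((hN' i).nonneg _) hyi.le),
      div_mul_cancel₀ _ hyi.ne']
  show ∫ y, N i (Φ N N' z y i) ^ 2 ∂(KM N) = N' i (z i) ^ 2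
  rw [integral_congr_ae h2]
  simp

/-- second moments of linear maps -/
theorem mom {W : Type} [NormedAddCommGroup W] [InnerProductSpace ℝ W] (hm : ∀ i, 1 ≤ m i)
    (ℓ : E m →L[ℝ] W) : ∫ x, ‖ℓ x‖ ^ 2 ∂(PS D N) = ∑ i, c2 D N i *
      UU N i (ℓ.comp (ContinuousLinearMap.single ℝ (fun j => Eu (Fin (m j))) i)) := by
  have h2 := PS_prob hD hN'
  rw [law_i hD hN hN' hm (f := fun x => ‖ℓ x‖ ^ 2) (ℓ.continuous.norm.pow 2)]
  have h3 : ∀ z y : E m, ℓ (Φ N N' z y) = ∑ i, N' i (z i) •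
      (ℓ.comp (ContinuousLinearMap.single ℝ (fun j => Eu (Fin (m j))) i)) (hat (N i) (y i)) := by
    intro z y
    have h4 : Φ N N' z y = ∑ i, N' i (z i) • ContinuousLinearMap.single ℝ
        (fun j => Eu (Fin (m j))) i (hat (N i) (y i)) := by
      funext j
      rw [Φ_hat, Finset.sum_apply, Finset.sum_eq_single j]
      · simp
      · intro i _ hi
        simp [Pi.single_eq_of_ne (Ne.symm hi)]
      · intro h
        exact absurd (Finset.mem_univ j) h
    rw [h4, map_sum]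
    refine Finset.sum_congr rfl fun i _ => ?_
    rw [map_smul]
    rfl
  simp_rw [h3, ortho_hat hD hN]
  rw [integral_finsetSum]
  · refine Finset.sum_congr rfl fun i _ => ?_
    rw [integral_mul_const, ← c2_eq hD hN hN' hm i]
  · intro i _
    exact (PS_int hD hN' (f := fun z => N' i (z i) ^ 2) ((cont_N hD hN' i).pow 2)).mul_const _

omit hN' in
theorem mean0 {W : Type} [NormedAddCommGroup W] [NormedSpace ℝ W] (ℓ : E m →L[ℝ] W) :
    ∫ x, ℓ x ∂(PS D N) = 0 := by
  rw [PS, integral_smul_measure, odd_zero volume (SS_closed hD hN).measurableSet ?_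
    (fun x => map_neg ℓ x), smul_zero]
  intro x hx
  have h1 : (fun i => N i ((-x) i)) = fun i => N i (x i) := by
    funext i
    rw [Pi.neg_apply, (hN i).neg]
  show WithLp.toLp 2 (fun i => N i ((-x) i)) ∈ D
  rw [h1]
  exact hx

omit hD hN' in
/-- the trace bound -/
theorem UU_trace {k : ℕ} (i : Fin b) (ℓ : Eu (Fin (m i)) →L[ℝ] Eu (Fin k)) {c : ℝ} (hc : 0 ≤ c)
    (H : ∀ θ : Eu (Fin k), UU N i ((innerSL ℝ θ).comp ℓ) ≤ c * ‖θ‖ ^ 2) :
    UU N i ℓ ≤ m i * c := by
  have hpr := un_prob (volume : Measure (Eu (Fin (m i)))) (hN i)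
  obtain ⟨R, hRdef⟩ : ∃ R : Submodule ℝ (Eu (Fin k)), R = LinearMap.range ℓ.toLinearMap := ⟨_, rfl⟩
  obtain ⟨w, hw⟩ : ∃ w : OrthonormalBasis (Fin (finrank ℝ R)) ℝ R, w = stdOrthonormalBasis ℝ R :=
    ⟨_, rfl⟩
  have h1 : ∀ y, ‖ℓ y‖ ^ 2 = ∑ j, ‖(innerSL ℝ (w j : Eu (Fin k))).comp ℓ y‖ ^ 2 := by
    intro y
    have hy : ℓ y ∈ R := by
      rw [hRdef]
      exact ⟨y, rfl⟩
    have h2 := w.sum_sq_norm_inner_right (⟨ℓ y, hy⟩ : R)
    have h3 : ‖(⟨ℓ y, hy⟩ : R)‖ = ‖ℓ y‖ := rfl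
    rw [h3] at h2
    rw [← h2]
    rfl
  have hsum : UU N i ℓ = ∑ j, UU N i ((innerSL ℝ (w j : Eu (Fin k))).comp ℓ) := by
    unfold UU
    simp_rw [h1]
    rw [integral_finsetSum]
    intro j _
    obtain ⟨Rj, hRj⟩ := bd_hat hN i ((innerSL ℝ (w j : Eu (Fin k))).comp ℓ)
    have hm := sm_hat hN i ((innerSL ℝ (w j : Eu (Fin k))).comp ℓ)
    have hm2 : StronglyMeasurable fun y => ‖((innerSL ℝ (w j : Eu (Fin k))).comp ℓ)
      (hat (N i) y)‖ ^ 2 := hm.norm.pow 2
    refine Integrable.of_bound hm2.aestronglyMeasurable (Rj ^ 2) (Eventually.of_forall fun y => ?_)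
    rw [norm_pow, norm_norm]
    exact pow_le_pow_left₀ (norm_nonneg _) (hRj y) 2
  have hfr : finrank ℝ R ≤ m i := by
    rw [hRdef]
    refine (LinearMap.finrank_range_le _).trans ?_
    simp
  rw [hsum]
  calc _ ≤ ∑ _j : Fin (finrank ℝ R), c := by
        refine Finset.sum_le_sum fun j _ => ?_
        have h4 := H (w j)
        have h5 : ‖((w j : R) : Eu (Fin k))‖ = 1 := w.norm_eq_one _
        rw [h5] at h4
        linarith
    _ = finrank ℝ R * c := by simp
    _ ≤ m i * c := mul_le_mul_of_nonneg_right (by exact_mod_cast hfr) hc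

end

end Pool.Agent.W5h44.DS
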