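import Pool.Agent.W5h44.DS.Cct
import Pool.Agent.R751.MB.AllD

/-!
# `D`-sums of symmetric bodies: unit balls of invariant norms as blocks
-/

set_option autoImplicit false

namespace Pool.Agent.W5h44.DS

open MeasureTheory Set Filter Topology Module
open scoped ENNReal InnerProductSpace Pointwise
open Pool.Agent.R751.MB (Eu UBody Body dsum ind EW VW AP CcW Adm LCn AN Nrm)

section

variable {κ : Type} [Fintype κ]

theorem ind_lcn {K : Set (Eu κ)} (hK : Convex ℝ K) : LCn (K.indicator fun _ => (1 : ℝ)) := by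
  intro x y t ht ht1
  have h0 : ∀ z, 0 ≤ K.indicator (fun _ => (1 : ℝ)) z := fun z =>
    indicator_nonneg (fun _ _ => zero_le_one) z
  by_cases hx : x ∈ K
  · by_cases hy : y ∈ K
    · have hz : (1 - t) • x + t • y ∈ K := hK hx hy (by linarith) ht.le (by ring)
      rw [indicator_of_mem hx, indicator_of_mem hy, indicator_of_mem hz, Real.one_rpow,
        Real.one_rpow, one_mul]
    · rw [indicator_of_notMem hy, Real.zero_rpow ht.ne', mul_zero]
      exact h0 _
  · rw [indicator_of_notMem hx, Real.zero_rpow (by linarith : 1 - t ≠ 0) , zero_mul]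
    exact h0 _

theorem ind_adm {K : Set (Eu κ)} (hK : Body K) : Adm (K.indicator fun _ => (1 : ℝ)) := by
  refine ⟨fun x => indicator_nonneg (fun _ _ => zero_le_one) x, ?_, ?_,
    measurable_const.indicator hK.comp.measurableSet⟩
  · have e : (fun x => (1 + ‖x‖ ^ 2) * K.indicator (fun _ => (1 : ℝ)) x) =
        K.indicator fun x => 1 + ‖x‖ ^ 2 := by
      funext x
      by_cases hx : x ∈ K
      · simp [hx]
      · simp [hx]
    rw [e, integrable_indicator_iff hK.comp.measurableSet]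
    exact (by fun_prop : Continuous fun x : Eu κ => 1 + ‖x‖ ^ 2).continuousOn.integrableOn_compact
      hK.comp
  · rw [integral_indicator hK.comp.measurableSet]
    simp only [integral_const, smul_eq_mul, mul_one, measureReal_restrict_apply_univ]
    rw [Measure.real, ENNReal.toReal_pos_iff]
    exact ⟨lt_of_lt_of_le (isOpen_interior.measure_pos volume hK.int)
      (measure_mono interior_subset), hK.comp.measure_lt_top⟩

end

/-- unit balls of admissible norms are symmetric bodies with the Poincare inequality -/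
theorem an_ap : ∃ A : ℝ, 0 < A ∧ ∀ (k : ℕ) (N : Eu (Fin k) → ℝ), AN k N →
    Body {x | N x ≤ 1} ∧ (∀ x ∈ {x | N x ≤ 1}, -x ∈ {x | N x ≤ 1}) ∧
    AP A (ind {x | N x ≤ 1}) := by
  obtain ⟨A1, hA1, H1⟩ := Pool.Agent.R751.MB.pSYM
  obtain ⟨A2, hA2, H2⟩ := Pool.Agent.R751.MB.pMAT
  obtain ⟨A3, hA3, H3⟩ := Pool.Agent.R751.MB.pHER
  refine ⟨max A1 (max A2 A3), lt_max_of_lt_left hA1, fun k N h => ?_⟩
  have hb := Pool.Agent.R751.MB.AN.basic h
  refine ⟨hb.1.pow.body le_rfl, fun x hx => ?_, ?_⟩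
  · have h1 := hb.1.smul (-1) x
    rw [neg_one_smul, abs_neg, abs_one, one_mul] at h1
    show N (-x) ≤ 1
    rw [h1]
    exact hx
  cases h with
  | sym _ _ hk hN hinv =>
    refine (H1 k _ hk (ind_adm (hN.pow.body le_rfl)) (ind_lcn (hN.pow.body le_rfl).conv)
      fun σ x y hxy => ?_).mono (le_max_left _ _)
    have h1 := hinv σ x y hxy
    by_cases hx : x ∈ {x | N x ≤ 1}
    · have hy : y ∈ {x | N x ≤ 1} := by
        show N y ≤ 1
        rw [h1]
        exact hx
      rw [indicator_of_mem hx, indicator_of_mem hy]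
    · have hy : y ∉ {x | N x ≤ 1} := fun hy => hx (by
        show N x ≤ 1
        rw [← h1]
        exact hy)
      rw [indicator_of_notMem hx, indicator_of_notMem hy]
  | mat m l _ e N hm hl hlm hN hinv =>
    have hB : Body {x | N x ≤ 1} := hN.pow.body le_rfl
    have h1 := H2 m l ({x | N x ≤ 1}.indicator fun _ => (1 : ℝ)) hm hl hlm (ind_adm hB)
      (ind_lcn hB.conv) fun g hg X => by
        have h1 := hinv g hg X
        by_cases hx : X ∈ {x | N x ≤ 1}
        · have hy : (WithLp.toLp 2 fun p => ∑ k, g p.1 k * X (k, p.2) :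
              Pool.Agent.R751.MB.Mat m l) ∈ {x | N x ≤ 1} := by
            show N _ ≤ 1
            rw [h1]
            exact hx
          rw [indicator_of_mem hx, indicator_of_mem hy]
        · have hy : (WithLp.toLp 2 fun p => ∑ k, g p.1 k * X (k, p.2) :
              Pool.Agent.R751.MB.Mat m l) ∉ {x | N x ≤ 1} := fun hy => hx (by
            show N X ≤ 1
            rw [← h1]
            exact hy)
          rw [indicator_of_notMem hx, indicator_of_notMem hy]
    exact (Pool.Agent.R751.MB.lin _ _ _ e _ h1).mono ((le_max_left _ _).trans (le_max_right _ _))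
  | her 𝕜 D ι F _ e N hD hF hN hinv =>
    have hB : Body {x | N x ≤ 1} := hN.pow.body le_rfl
    have h1 := H3 𝕜 D hD ι F hF ({x | N x ≤ 1}.indicator fun _ => (1 : ℝ)) (ind_adm hB)
      (ind_lcn hB.conv) fun U hU x y hxy => by
        have h1 := hinv U hU x y hxy
        by_cases hx : x ∈ {x | N x ≤ 1}
        · have hy : y ∈ {x | N x ≤ 1} := by
            show N y ≤ 1
            rw [h1]
            exact hx
          rw [indicator_of_mem hx, indicator_of_mem hy]
        · have hy : y ∉ {x | N x ≤ 1} := fun hy => hx (by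
            show N x ≤ 1
            rw [← h1]
            exact hy)
          rw [indicator_of_notMem hx, indicator_of_notMem hy]
    exact (Pool.Agent.R751.MB.lin _ _ _ e _ h1).mono ((le_max_right _ _).trans (le_max_right _ _))

/-- the blocks: bodies with the Poincare inequality, unit balls of admissible norms -/
def Bk (c0 : ℝ) {k : ℕ} (K : Set (Eu (Fin k))) : Prop :=
  Pool.Agent.R755.KF.PI c0 K ∨ ∃ N : Eu (Fin k) → ℝ, AN k N ∧ K = {x | N x ≤ 1}

theorem bk_pb {c0 : ℝ} (hc0 : 0 ≤ c0) : ∃ A : ℝ, 0 < A ∧ ∀ (k : ℕ) (K : Set (Eu (Fin k))),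
    Bk c0 K → (∀ x ∈ K, -x ∈ K) → Body K ∧ PB volume A (gauge K) := by
  obtain ⟨A, hA, H⟩ := an_ap
  refine ⟨max A c0, lt_max_of_lt_left hA, fun k K hK hs => ?_⟩
  rcases hK with hK | ⟨N, hN, rfl⟩
  · exact ⟨⟨hK.comp, hK.conv, hK.int⟩, PB.mono (le_max_right _ _) (pb_of_pi hc0 hs hK)⟩
  · obtain ⟨h1, h2, h3⟩ := H k N hN
    exact ⟨h1, PB.mono (le_max_left _ _) (pb_of_ap hA.le h1 h2 h3)⟩

/-- **concentration** -/
theorem cc_many {c0 T δ : ℝ} (hc0 : 0 ≤ c0) (hT0 : 0 ≤ T) (hδ : 0 < δ) : ∃ κ : ℝ, 0 < κ ∧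
    ∀ (b n : ℕ) (m : Fin b → ℕ) (e : (∀ i, Eu (Fin (m i))) ≃ₗ[ℝ] Eu (Fin n))
      (D : Set (Eu (Fin b))) (K : ∀ i, Set (Eu (Fin (m i)))), (∀ i, 1 ≤ m i) → UBody D →
      (∀ i, ∀ x ∈ K i, -x ∈ K i) → (∀ i, Bk c0 (K i)) →
      ∑ i, Real.exp (-(T * m i)) ≤ 1 → Body (e '' dsum D K) ∧ CcW κ δ (ind (e '' dsum D K)) := by
  obtain ⟨A, hA, H⟩ := bk_pb hc0
  obtain ⟨κ, hκ, H'⟩ := cc_sum hA.le hT0 hδ
  refine ⟨κ, hκ, fun b n m e D K hm hD hs hK hT => ?_⟩
  have h1 := fun i => H _ (K i) (hK i) (hs i)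
  exact ⟨Pool.Agent.R751.MB.dsb b n m e D K hD (fun i => (h1 i).1) hs,
    H' b n m e D K hm hD (fun i => (h1 i).1) hs (fun i => (h1 i).2) hT⟩

end Pool.Agent.W5h44.DS
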