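import Mathlib

/-!
# Polar coordinates with respect to two gauges
-/

set_option autoImplicit false
set_option linter.unusedSectionVars false

namespace Pool.Agent.W5h44.DS

open MeasureTheory Set Filter Topology Module
open scoped ENNReal

/-- continuous, positive outside `0`, absolutely homogeneous -/
structure Gg {F : Type} [NormedAddCommGroup F] [NormedSpace ℝ F] (N : F → ℝ) : Prop where
  cont : Continuous N
  pos : ∀ x, x ≠ 0 → 0 < N x
  smul : ∀ (t : ℝ) (x : F), N (t • x) = |t| * N x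

section one

variable {F : Type} [NormedAddCommGroup F] [NormedSpace ℝ F] [FiniteDimensional ℝ F]
  [MeasurableSpace F] [BorelSpace F] {N N' : F → ℝ}

omit [FiniteDimensional ℝ F] [MeasurableSpace F] [BorelSpace F] in
theorem Gg.zero (h : Gg N) : N 0 = 0 := by
  have := h.smul 0 0
  simpa using this

omit [FiniteDimensional ℝ F] [MeasurableSpace F] [BorelSpace F] in
theorem Gg.nonneg (h : Gg N) (x : F) : 0 ≤ N x := by
  by_cases hx : x = 0
  · rw [hx, h.zero]
  · exact (h.pos x hx).le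

omit [MeasurableSpace F] [BorelSpace F] in
theorem Gg.lower (h : Gg N) : ∃ c : ℝ, 0 < c ∧ ∀ x, c * ‖x‖ ≤ N x := by
  by_cases hs : (Metric.sphere (0 : F) 1).Nonempty
  · obtain ⟨u, hu, hmin⟩ := (isCompact_sphere (0 : F) 1).exists_isMinOn hs h.cont.continuousOn
    have hu0 : u ≠ 0 := by
      intro h0
      rw [h0] at hu
      simp at hu
    refine ⟨N u, h.pos u hu0, fun x => ?_⟩
    by_cases hx : x = 0
    · rw [hx, h.zero]
      simp
    · have hn : 0 < ‖x‖ := norm_pos_iff.2 hx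
      have h1 : N u ≤ N (‖x‖⁻¹ • x) := hmin (by simp [norm_smul, hn.ne'])
      rw [h.smul, abs_of_pos (inv_pos.2 hn)] at h1
      calc N u * ‖x‖ ≤ (‖x‖⁻¹ * N x) * ‖x‖ := mul_le_mul_of_nonneg_right h1 hn.le
        _ = N x := by field_simp
  · refine ⟨1, one_pos, fun x => ?_⟩
    have hx : x = 0 := by
      by_contra hx
      refine hs ⟨‖x‖⁻¹ • x, ?_⟩
      have hn : 0 < ‖x‖ := norm_pos_iff.2 hx
      simp [norm_smul, hn.ne']
    rw [hx, h.zero]
    simp

omit [MeasurableSpace F] [BorelSpace F] in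
theorem Gg.compact (h : Gg N) (r : ℝ) : IsCompact {x | N x ≤ r} := by
  obtain ⟨c, hc, H⟩ := h.lower
  refine Metric.isCompact_of_isClosed_isBounded (isClosed_le h.cont continuous_const) ?_
  refine (Metric.isBounded_closedBall (x := (0 : F)) (r := r / c)).subset fun x hx => ?_
  rw [mem_closedBall_zero_iff, le_div_iff₀ hc, mul_comm]
  exact (H x).trans hx

variable (μ : Measure F) [μ.IsAddHaarMeasure]

theorem lint_smul {t : ℝ} (ht : 0 < t) {f : F → ℝ≥0∞} (hf : Measurable f) :
    ENNReal.ofReal (t ^ finrank ℝ F) * ∫⁻ x, f (t • x) ∂μ = ∫⁻ x, f x ∂μ := by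
  have h1 : ∫⁻ x, f (t • x) ∂μ = ENNReal.ofReal |(t ^ finrank ℝ F)⁻¹| * ∫⁻ x, f x ∂μ := by
    rw [← lintegral_map hf (measurable_const_smul t), Measure.map_addHaar_smul μ ht.ne',
      lintegral_smul_measure, smul_eq_mul]
  rw [h1, ← mul_assoc, ← ENNReal.ofReal_mul (by positivity), abs_of_pos (by positivity),
    mul_inv_cancel₀ (by positivity), ENNReal.ofReal_one, one_mul]

theorem Gg.vol_pos (h : Gg N) {r : ℝ} (hr : 0 < r) : 0 < μ {x | N x ≤ r} := by
  refine lt_of_lt_of_le ((isOpen_lt h.cont continuous_const).measure_pos μ ⟨0, ?_⟩)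
    (measure_mono (fun x (hx : N x < r) => hx.le))
  show N 0 < r
  rw [h.zero]
  exact hr

theorem Gg.vol_lt (h : Gg N) (r : ℝ) : μ {x | N x ≤ r} < ⊤ := (h.compact r).measure_lt_top

variable [Nontrivial F]

theorem polar0 (hN : Gg N) (hN' : Gg N') {f : F → ℝ≥0∞} (hf : Measurable f) :
    ∫⁻ z, ∫⁻ y in {y | N y ≤ 1}, f ((N' z / N y) • y) ∂μ ∂μ =
      (∫⁻ z, {z | 1 ≤ N' z}.indicator (fun z => ENNReal.ofReal
        ((N' z ^ finrank ℝ F * N' z ^ finrank ℝ F)⁻¹)) z ∂μ) * ∫⁻ x, f x ∂μ := by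
  obtain ⟨d, hd⟩ : ∃ d, d = finrank ℝ F := ⟨_, rfl⟩
  rw [← hd]
  have hNm := hN.cont.measurable
  have hNm' := hN'.cont.measurable
  have hKm : MeasurableSet {y : F | N y ≤ 1} := measurableSet_le hNm measurable_const
  have hae : ∀ᵐ x ∂μ, x ≠ 0 := by
    rw [ae_iff]
    simp
  have hfm : Measurable fun q : F × F => f ((N' q.1 / N q.2) • q.2) :=
    hf.comp (((hNm'.comp measurable_fst).div (hNm.comp measurable_snd)).smul measurable_snd)
  -- first substitution
  have s1 : ∫⁻ z, ∫⁻ y in {y | N y ≤ 1}, f ((N' z / N y) • y) ∂μ ∂μ =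
      ∫⁻ y in {y | N y ≤ 1}, ∫⁻ z, ENNReal.ofReal (N y ^ d) * f (N' z • y) ∂μ ∂μ := by
    rw [lintegral_lintegral_swap hfm.aemeasurable]
    refine lintegral_congr_ae ?_
    filter_upwards [ae_restrict_of_ae hae] with y hy
    have hy' := hN.pos y hy
    have hfy : Measurable fun z : F => f ((N' z / N y) • y) :=
      hf.comp ((hNm'.div_const _).smul_const y)
    have hfy2 : Measurable fun z : F => f (N' z • y) := hf.comp (hNm'.smul_const y)
    rw [← lint_smul μ hy' hfy, ← hd, lintegral_const_mul _ hfy2]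
    congr 1
    refine lintegral_congr fun z => ?_
    rw [hN'.smul, abs_of_pos hy', mul_div_cancel_left₀ _ hy'.ne']
  have hgm : Measurable fun q : F × F => ENNReal.ofReal (N q.1 ^ d) * f (N' q.2 • q.1) :=
    ((hNm.comp measurable_fst).pow_const d).ennreal_ofReal.mul
      (hf.comp ((hNm'.comp measurable_snd).smul measurable_fst))
  have s2 : ∫⁻ y in {y | N y ≤ 1}, ∫⁻ z, ENNReal.ofReal (N y ^ d) * f (N' z • y) ∂μ ∂μ =
      ∫⁻ z, ∫⁻ y in {y | N y ≤ 1}, ENNReal.ofReal (N y ^ d) * f (N' z • y) ∂μ ∂μ := by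
    rw [lintegral_lintegral_swap hgm.aemeasurable]
  -- second substitution
  have s3 : ∫⁻ z, ∫⁻ y in {y | N y ≤ 1}, ENNReal.ofReal (N y ^ d) * f (N' z • y) ∂μ ∂μ =
      ∫⁻ z, ∫⁻ x, (ENNReal.ofReal (N x ^ d) * f x) * {z | N x ≤ N' z}.indicator
        (fun z => ENNReal.ofReal ((N' z ^ d * N' z ^ d)⁻¹)) z ∂μ ∂μ := by
    refine lintegral_congr_ae ?_
    filter_upwards [hae] with z hz
    have hz' := hN'.pos z hz
    rw [← lintegral_indicator hKm]
    obtain ⟨h, hh⟩ : ∃ h : F → ℝ≥0∞, h = {x | N x ≤ N' z}.indicator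
      (fun x => ENNReal.ofReal ((N x / N' z) ^ d) * f x) := ⟨_, rfl⟩
    have hhm : Measurable h := by
      rw [hh]
      exact Measurable.indicator ((hNm.div_const _).pow_const d |>.ennreal_ofReal.mul hf)
        (measurableSet_le hNm measurable_const)
    have e1 : ∀ y, {y | N y ≤ 1}.indicator (fun y => ENNReal.ofReal (N y ^ d) * f (N' z • y)) y =
        h (N' z • y) := by
      intro y
      rw [hh]
      by_cases hy : N y ≤ 1
      · rw [indicator_of_mem (show y ∈ {y | N y ≤ 1} from hy), indicator_of_mem]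
        · rw [hN.smul, abs_of_pos hz', mul_div_cancel_left₀ _ hz'.ne']
        · show N (N' z • y) ≤ N' z
          rw [hN.smul, abs_of_pos hz']
          exact mul_le_of_le_one_right hz'.le hy
      · rw [indicator_of_notMem (show y ∉ {y | N y ≤ 1} from hy), indicator_of_notMem]
        intro h2
        have h3 : N (N' z • y) ≤ N' z := h2
        rw [hN.smul, abs_of_pos hz'] at h3
        exact hy (le_of_mul_le_mul_left (by simpa using h3) hz')
    simp_rw [e1]
    have e2 := lint_smul μ hz' hhm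
    rw [← hd] at e2
    have e3 : ENNReal.ofReal ((N' z ^ d)⁻¹) * (ENNReal.ofReal (N' z ^ d) *
        ∫⁻ x, h (N' z • x) ∂μ) = ENNReal.ofReal ((N' z ^ d)⁻¹) * ∫⁻ x, h x ∂μ := by rw [e2]
    rw [← mul_assoc, ← ENNReal.ofReal_mul (by positivity), inv_mul_cancel₀ (by positivity),
      ENNReal.ofReal_one, one_mul] at e3
    rw [e3, ← lintegral_const_mul _ hhm]
    refine lintegral_congr fun x => ?_
    rw [hh]
    by_cases hx : N x ≤ N' z
    · rw [indicator_of_mem (show z ∈ {z | N x ≤ N' z} from hx),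
        indicator_of_mem (show x ∈ {x | N x ≤ N' z} from hx), div_pow, mul_inv,
        ENNReal.ofReal_mul (by positivity), div_eq_mul_inv,
        ENNReal.ofReal_mul (pow_nonneg (hN.nonneg x) d)]
      ring
    · rw [indicator_of_notMem (show z ∉ {z | N x ≤ N' z} from hx),
        indicator_of_notMem (show x ∉ {x | N x ≤ N' z} from hx), mul_zero, mul_zero]
  have hkm : Measurable fun q : F × F => (ENNReal.ofReal (N q.2 ^ d) * f q.2) *
      {z | N q.2 ≤ N' z}.indicator (fun z => ENNReal.ofReal ((N' z ^ d * N' z ^ d)⁻¹)) q.1 := by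
    refine ((((hNm.comp measurable_snd).pow_const d).ennreal_ofReal).mul
      (hf.comp measurable_snd)).mul ?_
    have : (fun q : F × F => {z | N q.2 ≤ N' z}.indicator
        (fun z => ENNReal.ofReal ((N' z ^ d * N' z ^ d)⁻¹)) q.1) =
        {q : F × F | N q.2 ≤ N' q.1}.indicator
          fun q => ENNReal.ofReal ((N' q.1 ^ d * N' q.1 ^ d)⁻¹) := by
      funext q
      by_cases hq : N q.2 ≤ N' q.1
      · rw [indicator_of_mem (show q.1 ∈ {z | N q.2 ≤ N' z} from hq),
          indicator_of_mem (show q ∈ {q : F × F | N q.2 ≤ N' q.1} from hq)]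
      · rw [indicator_of_notMem (show q.1 ∉ {z | N q.2 ≤ N' z} from hq),
          indicator_of_notMem (show q ∉ {q : F × F | N q.2 ≤ N' q.1} from hq)]
    rw [this]
    exact Measurable.indicator ((((hNm'.comp measurable_fst).pow_const d).mul
      ((hNm'.comp measurable_fst).pow_const d)).inv.ennreal_ofReal)
      (measurableSet_le (hNm.comp measurable_snd) (hNm'.comp measurable_fst))
  rw [s1, s2, s3, lintegral_lintegral_swap hkm.aemeasurable]
  have hcm : Measurable fun z : F => ENNReal.ofReal ((N' z ^ d * N' z ^ d)⁻¹) :=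
    ((hNm'.pow_const d).mul (hNm'.pow_const d)).inv.ennreal_ofReal
  have s4 : ∀ᵐ x ∂μ, ∫⁻ z, (ENNReal.ofReal (N x ^ d) * f x) * {z | N x ≤ N' z}.indicator
        (fun z => ENNReal.ofReal ((N' z ^ d * N' z ^ d)⁻¹)) z ∂μ =
      (∫⁻ z, {z | 1 ≤ N' z}.indicator
        (fun z => ENNReal.ofReal ((N' z ^ d * N' z ^ d)⁻¹)) z ∂μ) * f x := by
    filter_upwards [hae] with x hx
    have hx' := hN.pos x hx
    have hm1 : Measurable ({z | N x ≤ N' z}.indicator
        (fun z => ENNReal.ofReal ((N' z ^ d * N' z ^ d)⁻¹))) :=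
      hcm.indicator (measurableSet_le measurable_const hNm')
    have hm2 : Measurable ({z | 1 ≤ N' z}.indicator
        (fun z => ENNReal.ofReal ((N' z ^ d * N' z ^ d)⁻¹))) :=
      hcm.indicator (measurableSet_le measurable_const hNm')
    rw [lintegral_const_mul _ hm1, ← lint_smul μ hx' hm1, ← hd]
    have e1 : ∀ z, {z | N x ≤ N' z}.indicator
        (fun z => ENNReal.ofReal ((N' z ^ d * N' z ^ d)⁻¹)) (N x • z) =
        ENNReal.ofReal ((N x ^ d)⁻¹ * (N x ^ d)⁻¹) * {z | 1 ≤ N' z}.indicator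
        (fun z => ENNReal.ofReal ((N' z ^ d * N' z ^ d)⁻¹)) z := by
      intro z
      by_cases hz : 1 ≤ N' z
      · rw [indicator_of_mem (show z ∈ {z | 1 ≤ N' z} from hz), indicator_of_mem,
          hN'.smul, abs_of_pos hx', ← ENNReal.ofReal_mul (by positivity)]
        · congr 1
          rw [mul_pow, mul_inv, mul_inv, mul_inv]
          ring
        · show N x ≤ N' (N x • z)
          rw [hN'.smul, abs_of_pos hx']
          exact le_mul_of_one_le_right hx'.le hz
      · rw [indicator_of_notMem (show z ∉ {z | 1 ≤ N' z} from hz), indicator_of_notMem, mul_zero]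
        intro h2
        have h3 : N x ≤ N' (N x • z) := h2
        rw [hN'.smul, abs_of_pos hx'] at h3
        exact hz (le_of_mul_le_mul_left (by simpa using h3) hx')
    simp_rw [e1]
    rw [lintegral_const_mul _ hm2]
    have e2 : ENNReal.ofReal (N x ^ d) * (ENNReal.ofReal (N x ^ d) *
        ENNReal.ofReal ((N x ^ d)⁻¹ * (N x ^ d)⁻¹)) = 1 := by
      rw [← ENNReal.ofReal_mul (by positivity), ← ENNReal.ofReal_mul (by positivity),
        ← ENNReal.ofReal_one]
      congr 1
      field_simp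
    calc _ = (ENNReal.ofReal (N x ^ d) * (ENNReal.ofReal (N x ^ d) *
        ENNReal.ofReal ((N x ^ d)⁻¹ * (N x ^ d)⁻¹))) * ((∫⁻ z, {z | 1 ≤ N' z}.indicator
        (fun z => ENNReal.ofReal ((N' z ^ d * N' z ^ d)⁻¹)) z ∂μ) * f x) := by ring
      _ = _ := by rw [e2, one_mul]
  rw [lintegral_congr_ae s4, lintegral_const_mul _ hf]

/-- **polar coordinates**: `x = N'(z) y / N(y)` -/
theorem polar1 (hN : Gg N) (hN' : Gg N') {f : F → ℝ≥0∞} (hf : Measurable f) :
    ∫⁻ z, ∫⁻ y in {y | N y ≤ 1}, f ((N' z / N y) • y) ∂μ ∂μ =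
      μ {z | N' z ≤ 1} * ∫⁻ x, f x ∂μ := by
  have hNm := hN.cont.measurable
  have hNm' := hN'.cont.measurable
  have hKm : MeasurableSet {y : F | N y ≤ 1} := measurableSet_le hNm measurable_const
  have hKm' : MeasurableSet {y : F | N' y ≤ 1} := measurableSet_le hNm' measurable_const
  rw [polar0 μ hN hN' hf]
  congr 1
  have hae : ∀ᵐ x ∂μ, x ≠ 0 := by
    rw [ae_iff]
    simp
  have hi : Measurable ({y : F | N y ≤ 1}.indicator fun _ => (1 : ℝ≥0∞)) :=
    measurable_const.indicator hKm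
  have h1 := polar0 μ hN hN' hi
  have h2 : ∫⁻ z, ∫⁻ y in {y | N y ≤ 1}, {y : F | N y ≤ 1}.indicator (fun _ => (1 : ℝ≥0∞))
      ((N' z / N y) • y) ∂μ ∂μ = μ {z | N' z ≤ 1} * μ {y | N y ≤ 1} := by
    have e1 : ∀ z, ∫⁻ y in {y | N y ≤ 1}, {y : F | N y ≤ 1}.indicator (fun _ => (1 : ℝ≥0∞))
        ((N' z / N y) • y) ∂μ = {z | N' z ≤ 1}.indicator (fun _ => μ {y | N y ≤ 1}) z := by
      intro z
      have e2 : ∀ᵐ y ∂(μ.restrict {y | N y ≤ 1}), {y : F | N y ≤ 1}.indicator
          (fun _ => (1 : ℝ≥0∞)) ((N' z / N y) • y) = {z | N' z ≤ 1}.indicator (fun _ => 1) z := by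
        filter_upwards [ae_restrict_of_ae hae] with y hy
        have hy' := hN.pos y hy
        have e3 : N ((N' z / N y) • y) = N' z := by
          rw [hN.smul, abs_of_nonneg (div_nonneg (hN'.nonneg z) hy'.le),
            div_mul_cancel₀ _ hy'.ne']
        by_cases hz : N' z ≤ 1
        · rw [indicator_of_mem (show z ∈ {z | N' z ≤ 1} from hz), indicator_of_mem]
          show N _ ≤ 1
          rw [e3]
          exact hz
        · rw [indicator_of_notMem (show z ∉ {z | N' z ≤ 1} from hz), indicator_of_notMem]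
          intro h
          have h' : N _ ≤ 1 := h
          rw [e3] at h'
          exact hz h'
      rw [lintegral_congr_ae e2]
      by_cases hz : z ∈ {z | N' z ≤ 1}
      · simp [indicator_of_mem hz]
      · simp [indicator_of_notMem hz]
    simp_rw [e1]
    rw [lintegral_indicator hKm', setLIntegral_const, mul_comm]
  rw [h2, lintegral_indicator hKm, setLIntegral_const, one_mul] at h1
  have h3 : μ {y | N y ≤ 1} ≠ 0 := (hN.vol_pos μ one_pos).ne'
  have h4 : μ {y | N y ≤ 1} ≠ ⊤ := (hN.vol_lt μ 1).ne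
  exact ((ENNReal.mul_left_inj h3 h4).1 h1).symm

/-- the uniform distribution on the unit ball of `N` -/
noncomputable def un (N : F → ℝ) : Measure F := (μ {y | N y ≤ 1})⁻¹ • μ.restrict {y | N y ≤ 1}

omit [Nontrivial F] in
theorem un_prob (hN : Gg N) : IsProbabilityMeasure (un μ N) := by
  refine ⟨?_⟩
  rw [un, Measure.smul_apply, Measure.restrict_apply_univ, smul_eq_mul]
  exact ENNReal.inv_mul_cancel (hN.vol_pos μ one_pos).ne' (hN.vol_lt μ 1).ne

/-- the constant in polar coordinates -/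
noncomputable def cc (N N' : F → ℝ) : ℝ≥0∞ := (μ {y | N y ≤ 1})⁻¹ * μ {z | N' z ≤ 1}

omit [Nontrivial F] in
theorem cc_ne (hN : Gg N) (hN' : Gg N') : cc μ N N' ≠ 0 ∧ cc μ N N' ≠ ⊤ := by
  unfold cc
  refine ⟨mul_ne_zero (ENNReal.inv_ne_zero.2 (hN.vol_lt μ 1).ne) (hN'.vol_pos μ one_pos).ne',
    ENNReal.mul_ne_top (ENNReal.inv_ne_top.2 (hN.vol_pos μ one_pos).ne') (hN'.vol_lt μ 1).ne⟩

theorem polar (hN : Gg N) (hN' : Gg N') {f : F → ℝ≥0∞} (hf : Measurable f) :
    ∫⁻ z, ∫⁻ y, f ((N' z / N y) • y) ∂(un μ N) ∂μ = cc μ N N' * ∫⁻ x, f x ∂μ := by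
  have hNm := hN.cont.measurable
  have hNm' := hN'.cont.measurable
  have hfm : Measurable fun q : F × F => f ((N' q.1 / N q.2) • q.2) :=
    hf.comp (((hNm'.comp measurable_fst).div (hNm.comp measurable_snd)).smul measurable_snd)
  unfold un
  simp_rw [lintegral_smul_measure, smul_eq_mul]
  rw [lintegral_const_mul _ hfm.lintegral_prod_right', polar1 μ hN hN' hf, ← mul_assoc, cc]

end one

end Pool.Agent.W5h44.DS
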