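import Pool.Agent.W5h44.DS.Pol
import Pool.Agent.W5h44.DS.ES

/-!
# Polar coordinates in products
-/

set_option autoImplicit false
set_option linter.unusedSectionVars false

namespace Pool.Agent.W5h44.DS

open MeasureTheory Set Filter Topology Module
open scoped ENNReal

theorem lint_prod : ∀ {n : ℕ} {X : Fin n → Type} [∀ i, MeasurableSpace (X i)]
    (μ : ∀ i, Measure (X i)) [∀ i, SigmaFinite (μ i)] (f : ∀ i, X i → ℝ≥0∞)
    (_ : ∀ i, Measurable (f i)),
    ∫⁻ x, ∏ i, f i (x i) ∂(Measure.pi μ) = ∏ i, ∫⁻ t, f i t ∂(μ i) := by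
  intro n
  induction n with
  | zero =>
    intro X _ μ _ f _
    simp
  | succ n ih =>
    intro X _ μ _ f hf
    have hm := (measurePreserving_piFinSuccAbove μ 0).symm
    have hme : Measurable fun y : ∀ i, X i => ∏ a, f a (y a) :=
      Finset.measurable_prod _ fun a _ => (hf a).comp (measurable_pi_apply a)
    rw [← hm.lintegral_comp hme]
    have h1 : ∀ q : X 0 × (∀ i : Fin n, X ((0 : Fin (n + 1)).succAbove i)),
        (∏ a, f a (((MeasurableEquiv.piFinSuccAbove X 0).symm q) a)) =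
          f 0 q.1 * ∏ a : Fin n, f ((0 : Fin (n + 1)).succAbove a) (q.2 a) := by
      intro q
      rw [Fin.prod_univ_succAbove _ 0]
      have e0 : (MeasurableEquiv.piFinSuccAbove X 0).symm q = Fin.insertNth 0 q.1 q.2 := rfl
      rw [e0]
      congr 1
    have hme2 : Measurable fun y : ∀ i : Fin n, X ((0 : Fin (n + 1)).succAbove i) =>
        ∏ a : Fin n, f ((0 : Fin (n + 1)).succAbove a) (y a) :=
      Finset.measurable_prod _ fun a _ => (hf _).comp (measurable_pi_apply a)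
    refine (lintegral_congr h1).trans ?_
    refine (lintegral_prod_mul (hf 0).aemeasurable hme2.aemeasurable).trans ?_
    rw [Fin.prod_univ_succAbove _ 0]
    congr 1
    exact ih (fun a => μ ((0 : Fin (n + 1)).succAbove a))
      (fun a => f ((0 : Fin (n + 1)).succAbove a)) (fun a => hf _)

section

variable {b : ℕ} {F : Fin b → Type} [∀ i, NormedAddCommGroup (F i)]
  [∀ i, NormedSpace ℝ (F i)] [∀ i, FiniteDimensional ℝ (F i)] [∀ i, MeasurableSpace (F i)]
  [∀ i, BorelSpace (F i)] [∀ i, Nontrivial (F i)]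
  (μ : ∀ i, Measure (F i)) [∀ i, (μ i).IsAddHaarMeasure] {N N' : ∀ i, F i → ℝ}

/-- the polar map -/
noncomputable def Φ (N N' : ∀ i, F i → ℝ) (z y : ∀ i, F i) : ∀ i, F i :=
  fun i => (N' i (z i) / N i (y i)) • y i

theorem Φ_meas (hN : ∀ i, Gg (N i)) (hN' : ∀ i, Gg (N' i)) :
    Measurable fun q : (∀ i, F i) × (∀ i, F i) => Φ N N' q.1 q.2 := by
  unfold Φ
  refine measurable_pi_lambda _ fun i => ?_
  have h1 : Measurable fun q : (∀ i, F i) × (∀ i, F i) => N' i (q.1 i) :=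
    (hN' i).cont.measurable.comp ((measurable_pi_apply i).comp measurable_fst)
  have h2 : Measurable fun q : (∀ i, F i) × (∀ i, F i) => q.2 i :=
    (measurable_pi_apply i).comp measurable_snd
  exact (h1.div ((hN i).cont.measurable.comp h2)).smul h2

theorem polar_pi (hN : ∀ i, Gg (N i)) (hN' : ∀ i, Gg (N' i)) {f : (∀ i, F i) → ℝ≥0∞}
    (hf : Measurable f) :
    ∫⁻ z, ∫⁻ y, f (Φ N N' z y) ∂(Measure.pi fun i => un (μ i) (N i)) ∂(Measure.pi μ) =
      (∏ i, cc (μ i) (N i) (N' i)) * ∫⁻ x, f x ∂(Measure.pi μ) := by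
  have : ∀ i, IsProbabilityMeasure (un (μ i) (N i)) := fun i => un_prob (μ i) (hN i)
  obtain ⟨κ, hκ⟩ : ∃ κ : Measure (∀ i, F i), κ = Measure.pi fun i => un (μ i) (N i) := ⟨_, rfl⟩
  obtain ⟨c, hc⟩ : ∃ c : ℝ≥0∞, c = ∏ i, cc (μ i) (N i) (N' i) := ⟨_, rfl⟩
  have hc0 : c ≠ 0 := by
    rw [hc]
    exact Finset.prod_ne_zero_iff.2 fun i _ => (cc_ne (μ i) (hN i) (hN' i)).1
  have hct : c ≠ ⊤ := by
    rw [hc]
    exact ENNReal.prod_ne_top fun i _ => (cc_ne (μ i) (hN i) (hN' i)).2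
  rw [← hκ, ← hc]
  have : IsProbabilityMeasure κ := by rw [hκ]; infer_instance
  have hΦ := Φ_meas hN hN'
  have key : c⁻¹ • ((Measure.pi μ).prod κ).map (fun q => Φ N N' q.1 q.2) = Measure.pi μ := by
    symm
    refine Measure.pi_eq fun s hs => ?_
    rw [Measure.smul_apply, Measure.map_apply hΦ (MeasurableSet.univ_pi hs),
      Measure.prod_apply (hΦ (MeasurableSet.univ_pi hs)), smul_eq_mul]
    have hφm : ∀ i, Measurable fun q : F i × F i => (N' i q.1 / N i q.2) • q.2 := fun i =>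
      (((hN' i).cont.measurable.comp measurable_fst).div
        ((hN i).cont.measurable.comp measurable_snd)).smul measurable_snd
    have h1 : ∀ z : ∀ i, F i, κ (Prod.mk z ⁻¹' ((fun q : (∀ i, F i) × (∀ i, F i) =>
        Φ N N' q.1 q.2) ⁻¹' univ.pi s)) =
        ∏ i, ∫⁻ y, (s i).indicator (fun _ => (1 : ℝ≥0∞)) ((N' i (z i) / N i y) • y)
          ∂(un (μ i) (N i)) := by
      intro z
      have e1 : (Prod.mk z ⁻¹' ((fun q : (∀ i, F i) × (∀ i, F i) =>
        Φ N N' q.1 q.2) ⁻¹' univ.pi s)) =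
          univ.pi fun i => {y : F i | (N' i (z i) / N i y) • y ∈ s i} := by
        ext y
        simp [Φ]
      rw [e1, hκ, Measure.pi_pi]
      refine Finset.prod_congr rfl fun i _ => ?_
      have hm : MeasurableSet {y : F i | (N' i (z i) / N i y) • y ∈ s i} :=
        ((hφm i).comp measurable_prodMk_left) (hs i)
      rw [← lintegral_indicator_one hm]
      rfl
    simp_rw [h1]
    have hgm : ∀ i, Measurable fun z : F i => ∫⁻ y, (s i).indicator (fun _ => (1 : ℝ≥0∞))
        ((N' i z / N i y) • y) ∂(un (μ i) (N i)) := fun i =>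
      Measurable.lintegral_prod_right' (f := fun q : F i × F i =>
        (s i).indicator (fun _ => (1 : ℝ≥0∞)) ((N' i q.1 / N i q.2) • q.2))
        ((measurable_const.indicator (hs i)).comp (hφm i))
    rw [lint_prod μ (fun i z => ∫⁻ y, (s i).indicator (fun _ => (1 : ℝ≥0∞))
        ((N' i z / N i y) • y) ∂(un (μ i) (N i))) hgm]
    have h2 : ∀ i, ∫⁻ z, ∫⁻ y, (s i).indicator (fun _ => (1 : ℝ≥0∞))
        ((N' i z / N i y) • y) ∂(un (μ i) (N i)) ∂(μ i) = cc (μ i) (N i) (N' i) * μ i (s i) := by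
      intro i
      rw [polar (μ i) (hN i) (hN' i) (measurable_const.indicator (hs i)),
        lintegral_indicator (hs i), setLIntegral_const, one_mul]
    simp_rw [h2]
    rw [Finset.prod_mul_distrib, ← hc, ← mul_assoc, ENNReal.inv_mul_cancel hc0 hct, one_mul]
  have hfm : Measurable fun q : (∀ i, F i) × (∀ i, F i) => f (Φ N N' q.1 q.2) := hf.comp hΦ
  have h3 : ∫⁻ x, f x ∂(Measure.pi μ) =
      c⁻¹ * ∫⁻ z, ∫⁻ y, f (Φ N N' z y) ∂κ ∂(Measure.pi μ) := by
    conv_lhs => rw [← key]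
    rw [lintegral_smul_measure, lintegral_map hf hΦ, lintegral_prod _ hfm.aemeasurable,
      smul_eq_mul]
  rw [h3, ← mul_assoc, ENNReal.mul_inv_cancel hc0 hct, one_mul]

end

end Pool.Agent.W5h44.DS
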