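import Pool.Agent.TH610.RB.Core
import Pool.Agent.W5h44.DS.Lip

/-!
# The law of the radial variables on a Euclidean space
-/

set_option autoImplicit false
set_option linter.unusedSectionVars false

namespace Pool.Agent.W5h44.DS

open MeasureTheory Set Filter Topology Module
open scoped ENNReal InnerProductSpace
open Pool.Agent.R751.MB (Eu UBody Body)
open Pool.Agent.TH610.RB (P G RD Sw NN nb blk SC)
open Pool.Agent.H212R2.KLS (mu Bdd)
open Pool.Agent.TH594.KP (GD)

variable {b : ℕ} {m : Fin b → ℕ}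

/-- the index set of all coordinates -/
abbrev Ix (m : Fin b → ℕ) : Type := Σ i : Fin b, Fin (m i)

/-- the Euclidean space of all coordinates -/
abbrev VV (m : Fin b → ℕ) : Type := EuclideanSpace ℝ (Ix m)

/-- the blocks -/
def Th (x : VV m) : E m := fun i => WithLp.toLp 2 fun j => x ⟨i, j⟩

/-- the inverse map -/
def Ti (x : E m) : VV m := WithLp.toLp 2 fun p => x p.1 p.2

theorem Th_Ti (x : E m) : Th (Ti x) = x := rfl

theorem Ti_Th (x : VV m) : Ti (Th x) = x := rfl

theorem Th_cont : Continuous (Th (m := m)) := by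
  unfold Th
  refine continuous_pi fun i => (PiLp.continuous_toLp 2 _).comp (continuous_pi fun j => ?_)
  fun_prop

theorem Ti_cont : Continuous (Ti (m := m)) := by
  unfold Ti
  refine (PiLp.continuous_toLp 2 _).comp (continuous_pi fun p => ?_)
  have : Continuous fun x : E m => x p.1 := continuous_apply p.1
  fun_prop

/-- the equivalence -/
def TE (m : Fin b → ℕ) : E m ≃ᵐ VV m where
  toFun := Ti
  invFun := Th
  left_inv := Th_Ti
  right_inv := Ti_Th
  measurable_toFun := Ti_cont.measurable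
  measurable_invFun := Th_cont.measurable

theorem Ti_mp : MeasurePreserving (Ti (m := m)) volume volume := by
  have h1 : MeasurePreserving (fun (x : E m) (i : Fin b) => (WithLp.ofLp (x i) : Fin (m i) → ℝ))
      volume volume := volume_preserving_pi fun i => PiLp.volume_preserving_ofLp (Fin (m i))
  have h2 : MeasurePreserving (fun (x : ∀ i : Fin b, Fin (m i) → ℝ) (p : Ix m) => x p.1 p.2)
      volume volume := by
    have hm : Measurable fun (x : ∀ i : Fin b, Fin (m i) → ℝ) (p : Ix m) => x p.1 p.2 := by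
      refine measurable_pi_lambda _ fun p => ?_
      exact (measurable_pi_apply p.2).comp (measurable_pi_apply p.1)
    refine ⟨hm, ?_⟩
    symm
    rw [volume_pi]
    refine Measure.pi_eq fun s hs => ?_
    rw [Measure.map_apply hm (MeasurableSet.univ_pi hs)]
    have e1 : (fun (x : ∀ i : Fin b, Fin (m i) → ℝ) (p : Ix m) => x p.1 p.2) ⁻¹' univ.pi s =
        univ.pi fun i => univ.pi fun j => s ⟨i, j⟩ := by
      ext x
      simp only [mem_preimage, mem_univ_pi]
      exact ⟨fun h i j => h ⟨i, j⟩, fun h p => h p.1 p.2⟩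
    rw [e1, volume_pi_pi]
    simp_rw [volume_pi_pi]
    rw [← Finset.univ_sigma_univ, Finset.prod_sigma]
  have h3 : MeasurePreserving (@WithLp.toLp 2 (Ix m → ℝ)) volume volume :=
    PiLp.volume_preserving_toLp (Ix m)
  exact h3.comp (h2.comp h1)

theorem Th_mp : MeasurePreserving (Th (m := m)) volume volume :=
  MeasurePreserving.symm (TE m) Ti_mp

theorem norm_P (i : Fin b) (x : VV m) :
    ‖P (Sigma.fst : Ix m → Fin b) i x‖ ^ 2 = ‖Th x i‖ ^ 2 := by
  rw [Pool.Agent.TH610.RB.norm_sq_P, EuclideanSpace.real_norm_sq_eq]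
  rw [← Finset.univ_sigma_univ, Finset.sum_sigma, Finset.sum_eq_single i]
  · refine Finset.sum_congr rfl fun j _ => ?_
    rw [if_pos rfl]
    rfl
  · intro j _ hj
    refine Finset.sum_eq_zero fun l _ => ?_
    rw [if_neg hj]
  · intro h
    exact absurd (Finset.mem_univ i) h

theorem norm_P' (i : Fin b) (x : VV m) :
    ‖P (Sigma.fst : Ix m → Fin b) i x‖ = ‖Th x i‖ :=
  (sq_eq_sq₀ (norm_nonneg _) (norm_nonneg _)).1 (norm_P i x)

theorem norm_VV (x : VV m) : ‖x‖ ^ 2 = ∑ i, ‖Th x i‖ ^ 2 := by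
  rw [Pool.Agent.TH610.RB.norm_sq_sum (Sigma.fst : Ix m → Fin b) x]
  exact Finset.sum_congr rfl fun i _ => norm_P i x

section

variable {D : Set (Eu (Fin b))} (hD : UBody D) {N : ∀ i, Eu (Fin (m i)) → ℝ}
  (hN : ∀ i, Gg (N i)) (hm : ∀ i, 1 ≤ m i)

/-- the density of the radial law -/
noncomputable def rho (D : Set (Eu (Fin b))) (N : ∀ i, Eu (Fin (m i)) → ℝ) : VV m → ℝ :=
  (Th ⁻¹' (SS D (NZ D N))).indicator fun _ => (volume (SS D (NZ D N))).toReal⁻¹

include hD hN hm

theorem vol_toReal : 0 < (volume (SS D (NZ D N))).toReal :=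
  ENNReal.toReal_pos (SS_pos hD (NZ_gg hD hN hm)).ne' (SS_lt hD (NZ_gg hD hN hm)).ne

theorem pre_meas : MeasurableSet (Th ⁻¹' (SS D (NZ D N)) : Set (VV m)) :=
  (SS_closed hD (NZ_gg hD hN hm)).measurableSet.preimage Th_cont.measurable

theorem conv_SZ : Convex ℝ (Th ⁻¹' (SS D (NZ D N)) : Set (VV m)) := by
  intro x hx y hy a c ha hc hac
  have h1 := hD.conv hx hy ha hc hac
  refine hD.unc _ h1 _ fun i => ?_
  have hal := al_pos hD hN hm i
  have h2 : Th (a • x + c • y) i = a • Th x i + c • Th y i := rfl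
  simp only [PiLp.add_apply, PiLp.smul_apply, smul_eq_mul]
  rw [h2, abs_of_nonneg ((NZ_gg hD hN hm i).nonneg _),
    abs_of_nonneg (add_nonneg (mul_nonneg ha ((NZ_gg hD hN hm i).nonneg _))
      (mul_nonneg hc ((NZ_gg hD hN hm i).nonneg _)))]
  unfold NZ
  rw [div_le_iff₀ hal]
  have h3 : (a * (‖Th x i‖ / al D N i) + c * (‖Th y i‖ / al D N i)) * al D N i =
      a * ‖Th x i‖ + c * ‖Th y i‖ := by field_simp
  rw [h3]
  refine (norm_add_le _ _).trans (le_of_eq ?_)
  rw [norm_smul, norm_smul, Real.norm_eq_abs, Real.norm_eq_abs, abs_of_nonneg ha, abs_of_nonneg hc]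

theorem rho_RD : RD (Sigma.fst : Ix m → Fin b) (id : Fin b → Fin b) (rho D N) := by
  have hv := vol_toReal hD hN hm
  have hvi : 0 ≤ (volume (SS D (NZ D N))).toReal⁻¹ := (inv_pos.2 hv).le
  refine ⟨fun x => indicator_nonneg (fun _ _ => hvi) x,
    measurable_const.indicator (pre_meas hD hN hm), ?_, ?_⟩
  · intro x y t ht0 ht1
    by_cases hx : x ∈ (Th ⁻¹' (SS D (NZ D N)) : Set (VV m))
    · by_cases hy : y ∈ (Th ⁻¹' (SS D (NZ D N)) : Set (VV m))
      · have hxy := conv_SZ hD hN hm hx hy (by linarith : 0 ≤ 1 - t) ht0.le (by ring)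
        unfold rho
        rw [indicator_of_mem hx, indicator_of_mem hy, indicator_of_mem hxy,
          ← Real.rpow_add (inv_pos.2 hv)]
        simp
      · have h0 : rho D N y = 0 := indicator_of_notMem hy _
        rw [h0, Real.zero_rpow ht0.ne', mul_zero]
        exact indicator_nonneg (fun _ _ => hvi) _
    · have h0 : rho D N x = 0 := indicator_of_notMem hx _
      rw [h0, Real.zero_rpow (by linarith : 1 - t ≠ 0), zero_mul]
      exact indicator_nonneg (fun _ _ => hvi) _
  · intro a a' haa x y hxy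
    have haa' : a = a' := haa
    subst haa'
    have h1 : ∀ i, ‖Th y i‖ = ‖Th x i‖ := by
      intro i
      have h2 := hxy i
      rw [Equiv.swap_self, Equiv.refl_apply, norm_P', norm_P'] at h2
      exact h2
    have h3 : y ∈ (Th ⁻¹' (SS D (NZ D N)) : Set (VV m)) ↔ x ∈ (Th ⁻¹' (SS D (NZ D N)) :
        Set (VV m)) := by
      show WithLp.toLp 2 (fun i => NZ D N i (Th y i)) ∈ D ↔
        WithLp.toLp 2 (fun i => NZ D N i (Th x i)) ∈ D
      unfold NZ
      simp only [h1]
    unfold rho
    by_cases hx : x ∈ (Th ⁻¹' (SS D (NZ D N)) : Set (VV m))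
    · rw [indicator_of_mem hx, indicator_of_mem (h3.2 hx)]
    · rw [indicator_of_notMem hx, indicator_of_notMem (fun h => hx (h3.1 h))]

theorem mu_eq : mu (rho D N) = (volume (SS D (NZ D N)))⁻¹ •
    (volume.restrict (Th ⁻¹' (SS D (NZ D N))) : Measure (VV m)) := by
  have hv := vol_toReal hD hN hm
  unfold mu rho
  have h1 : (fun x : VV m => ENNReal.ofReal ((Th ⁻¹' (SS D (NZ D N))).indicator
      (fun _ => (volume (SS D (NZ D N))).toReal⁻¹) x)) =
      (Th ⁻¹' (SS D (NZ D N))).indicator fun _ => (volume (SS D (NZ D N)))⁻¹ := by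
    funext x
    by_cases hx : x ∈ (Th ⁻¹' (SS D (NZ D N)) : Set (VV m))
    · rw [indicator_of_mem hx, indicator_of_mem hx, ENNReal.ofReal_inv_of_pos hv,
        ENNReal.ofReal_toReal (SS_lt hD (NZ_gg hD hN hm)).ne]
    · rw [indicator_of_notMem hx, indicator_of_notMem hx, ENNReal.ofReal_zero]
  rw [h1, withDensity_indicator (pre_meas hD hN hm), withDensity_const]

/-- the law of the blocks -/
theorem map_mu : (mu (rho D N)).map Th = PS D (NZ D N) := by
  rw [mu_eq hD hN hm, Measure.map_smul, PS]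
  congr 1
  exact (Th_mp.restrict_preimage (SS_closed hD (NZ_gg hD hN hm)).measurableSet).map_eq

theorem mu_prob : mu (rho D N) univ = 1 := by
  have h1 := PS_prob hD (NZ_gg hD hN hm)
  have h2 : (mu (rho D N)).map Th univ = 1 := by
    rw [map_mu hD hN hm]
    exact measure_univ
  rwa [Measure.map_apply Th_cont.measurable MeasurableSet.univ, preimage_univ] at h2

theorem rho_bdd : Bdd (rho D N) := by
  obtain ⟨R, hR⟩ := (SS_compact hD (NZ_gg hD hN hm)).isBounded.exists_norm_le
  have hcomp : IsCompact (Th ⁻¹' (SS D (NZ D N)) : Set (VV m)) := by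
    have h1 : (Th ⁻¹' (SS D (NZ D N)) : Set (VV m)) = Ti '' (SS D (NZ D N)) := by
      ext x
      constructor
      · intro hx
        exact ⟨Th x, hx, Ti_Th x⟩
      · rintro ⟨y, hy, rfl⟩
        exact hy
    rw [h1]
    exact (SS_compact hD (NZ_gg hD hN hm)).image Ti_cont
  obtain ⟨R', hR'⟩ := hcomp.isBounded.exists_norm_le
  refine ⟨R', fun x hx => ?_⟩
  unfold rho
  rw [indicator_of_notMem]
  intro h
  exact absurd (hR' x h) (not_le.2 hx)

end

end Pool.Agent.W5h44.DS
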